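import Mathlib

/-!
# Project TA: definitions

Two elliptic curves with complex multiplication by `ℤ[i]` and `ℤ[ρ]`, `ρ = e^{2πi/3}`.
-/

set_option autoImplicit false

open Complex

namespace Pool.Agent.Helper49.TA

/-- the third root of unity `e^{2πi/3}` -/
noncomputable def rho : ℂ := -1 / 2 + (Real.sqrt 3 / 2 : ℝ) * I

/-- the constant `π / Im τ` -/
noncomputable def hc (τ : ℂ) : ℝ := Real.pi / τ.im

/-- the normalised theta function `S(z) = θ(z, τ) exp(h z² / 2) / θ(0, τ)` -/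
noncomputable def Sf (τ z : ℂ) : ℂ :=
  jacobiTheta₂ z τ * cexp (hc τ * z ^ 2 / 2) / jacobiTheta₂ 0 τ

/-- the period `ω₁ = B(1/4, 1/2) / 2` of `y² = 4x³ - 4x` -/
noncomputable def w1 : ℝ := 2 * ∫ x in (0 : ℝ)..1, 1 / Real.sqrt (4 * x - 4 * x ^ 3)

/-- the period `ω₂ = B(1/6, 1/2) / 3` of `y² = 4x³ - 4` -/
noncomputable def w2 : ℝ := 2 * ∫ x in (0 : ℝ)..1, 1 / Real.sqrt (4 * x - 4 * x ^ 4)

/-- the functions on the universal vector extension of the curve, in the scale of the lattice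
`ℤ + ℤτ`: `ψ_k(x; y) = μ^{-k} ∂_t^k [S(x+t) exp(-h t y)]` at `t = 0` -/
noncomputable def psi (τ μ : ℂ) (k : ℕ) (x y : ℂ) : ℂ :=
  μ⁻¹ ^ k * ∑ j ∈ Finset.range (k + 1), (k.choose j : ℂ) * iteratedDeriv (k - j) (Sf τ) x *
    (-(hc τ) * y) ^ j

/-- the Hurwitz coefficients of the function `S` are integers in the scale `μ` -/
def HasHurwitz (τ μ : ℂ) (a : ℕ → ℤ) : Prop :=
  μ ≠ 0 ∧ ∀ n, iteratedDeriv n (Sf τ) 0 = μ ^ n * (a n : ℂ)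

/-! ### the space `V = ℂ⁴`, coordinates `z 0 = z₀`, `z 1 = z₁`, `z 2 = z₀'`, `z 3 = z₁'` -/

/-- the parameters `τ` of the four factors -/
noncomputable def ta : Fin 4 → ℂ := ![I, I, rho, rho]

/-- the scales of the four factors -/
def mf (μ₁ μ₂ : ℂ) : Fin 4 → ℂ := ![μ₁, μ₁, μ₂, μ₂]

/-- the linear forms `x, y, X, Y`: `z₀ = x + yρ`, `z₁ = x + y conj ρ`, `z₀ = X + iY`,
`z₁' = X - iY` -/
noncomputable def Lf (i : Fin 4) (z : Fin 4 → ℂ) : ℂ :=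
  ![(rho * z 1 - (starRingEnd ℂ) rho * z 0) / (rho - (starRingEnd ℂ) rho),
    (z 0 - z 1) / (rho - (starRingEnd ℂ) rho), (z 0 + z 3) / 2, (z 0 - z 3) / (2 * I)] i

/-- the conjugate linear forms `x*, y*, X*, Y*` -/
noncomputable def Ls (i : Fin 4) (z : Fin 4 → ℂ) : ℂ :=
  ![((starRingEnd ℂ) rho * z 3 - rho * z 2) / ((starRingEnd ℂ) rho - rho),
    (z 2 - z 3) / ((starRingEnd ℂ) rho - rho), (z 2 + z 1) / 2, (z 1 - z 2) / (2 * I)] i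

/-- the real points of `V` -/
def IsR (z : Fin 4 → ℂ) : Prop := z 2 = (starRingEnd ℂ) (z 0) ∧ z 3 = (starRingEnd ℂ) (z 1)

/-- the element `x + yρ`, `x = κ₀ + κ₁ i`, `y = κ₂ + κ₃ i`, of the ring of integers of `ℚ(ζ₁₂)` -/
noncomputable def lat (κ : Fin 4 → ℤ) : Fin 4 → ℂ :=
  ![(κ 0 + κ 1 * I) + (κ 2 + κ 3 * I) * rho,
    (κ 0 + κ 1 * I) + (κ 2 + κ 3 * I) * (starRingEnd ℂ) rho,
    (starRingEnd ℂ) ((κ 0 + κ 1 * I) + (κ 2 + κ 3 * I) * rho),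
    (starRingEnd ℂ) ((κ 0 + κ 1 * I) + (κ 2 + κ 3 * I) * (starRingEnd ℂ) rho)]

/-- the quadratic form `∑ h_i l_i l*_i` -/
noncomputable def Qf (z : Fin 4 → ℂ) : ℂ := ∑ i, (hc (ta i) : ℂ) * Lf i z * Ls i z

/-- the cross term of the growth estimate -/
noncomputable def Xf (s v : Fin 4 → ℂ) : ℝ :=
  ∑ i, hc (ta i) * (Lf i s * (starRingEnd ℂ) (Lf i v)).im

/-- the auxiliary functions -/
noncomputable def Ff (μ₁ μ₂ : ℂ) (L : ℕ) (p : (Fin 4 → Fin (L + 1)) → ℂ) (z : Fin 4 → ℂ) : ℂ :=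
  ∑ k : Fin 4 → Fin (L + 1), p k * ∏ i, psi (ta i) (mf μ₁ μ₂ i) (k i) (Lf i z) (Ls i z)

/-- the auxiliary functions after a change of gauge -/
noncomputable def Ft (μ₁ μ₂ : ℂ) (L : ℕ) (p : (Fin 4 → Fin (L + 1)) → ℂ) (z : Fin 4 → ℂ) : ℂ :=
  Ff μ₁ μ₂ L p z * cexp (-(Qf z) / 2)

/-- the derivative of order `m` at `0` along the line through `z` -/
noncomputable def dl (m : ℕ) (F : (Fin 4 → ℂ) → ℂ) (z : Fin 4 → ℂ) : ℂ :=
  iteratedDeriv m (fun ζ : ℂ => F (ζ • z)) 0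

/-- the scaled directions -/
noncomputable def zd (μ₁ μ₂ : ℂ) (a : Fin 4 → ℂ) : Fin 4 → ℂ :=
  ![18 * a 0 / μ₂, 18 * a 1 / μ₁, 18 * a 2 * μ₁ / Real.pi, 18 * a 3 / μ₂]

/-- the numbers `μ₁/μ₂`, `π/(μ₁μ₂)`, `i`, `ρ` -/
noncomputable def vv (μ₁ μ₂ : ℂ) : Fin 4 → ℂ := ![μ₁ / μ₂, Real.pi / (μ₁ * μ₂), I, rho]

/-- the length of a polynomial in several variables -/
noncomputable def ln {n : ℕ} (P : MvPolynomial (Fin n) ℤ) : ℝ :=
  ∑ m ∈ P.support, |((MvPolynomial.coeff m P : ℤ) : ℝ)|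

end Pool.Agent.Helper49.TA
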