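import Mathlib

/-!
# Project TA: assembly, numerical part
-/

set_option autoImplicit false

open Complex Polynomial

namespace Pool.Agent.Helper49.TA

/-- the value of a polynomial with bounded degree and coefficients -/
theorem aeval_le (β : ℂ) (Q : ℤ[X]) (d : ℝ) (h1 : (Q.natDegree : ℝ) ≤ d)
    (h2 : ∀ i, |(Q.coeff i : ℝ)| ≤ Real.exp d) :
    ‖aeval β Q‖ ≤ Real.exp ((2 + Real.log (1 + ‖β‖)) * d) := by
  have hb : (1 : ℝ) ≤ 1 + ‖β‖ := by linarith [norm_nonneg β]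
  have hl : 0 ≤ Real.log (1 + ‖β‖) := Real.log_nonneg hb
  have e1 : aeval β Q = ∑ i ∈ Finset.range (Q.natDegree + 1), (Q.coeff i : ℂ) * β ^ i := by
    rw [aeval_eq_sum_range]
    refine Finset.sum_congr rfl fun i _ => ?_
    rw [zsmul_eq_mul]
  have e2 : ∀ i ∈ Finset.range (Q.natDegree + 1), ‖(Q.coeff i : ℂ) * β ^ i‖ ≤
      Real.exp d * (1 + ‖β‖) ^ Q.natDegree := by
    intro i hi
    rw [norm_mul, norm_pow]
    have h3 : ‖(Q.coeff i : ℂ)‖ = |(Q.coeff i : ℝ)| := by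
      rw [Complex.norm_intCast]
    rw [h3]
    refine mul_le_mul (h2 i) ?_ (by positivity) (Real.exp_pos _).le
    calc ‖β‖ ^ i ≤ (1 + ‖β‖) ^ i := pow_le_pow_left₀ (norm_nonneg _) (by linarith) _
      _ ≤ (1 + ‖β‖) ^ Q.natDegree :=
        pow_le_pow_right₀ hb (by simpa [Nat.lt_succ_iff] using hi)
  rw [e1]
  refine (norm_sum_le _ _).trans ((Finset.sum_le_sum e2).trans ?_)
  rw [Finset.sum_const, Finset.card_range, nsmul_eq_mul]
  have h4 : ((Q.natDegree + 1 : ℕ) : ℝ) ≤ Real.exp d := by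
    have := Real.add_one_le_exp (Q.natDegree : ℝ)
    push_cast
    exact this.trans (Real.exp_le_exp.2 h1)
  have h5 : (1 + ‖β‖) ^ Q.natDegree ≤ Real.exp (Real.log (1 + ‖β‖) * d) := by
    calc (1 + ‖β‖) ^ Q.natDegree = Real.exp (Real.log (1 + ‖β‖) * Q.natDegree) := by
          rw [mul_comm, Real.exp_nat_mul, Real.exp_log (by linarith)]
      _ ≤ _ := Real.exp_le_exp.2 (mul_le_mul_of_nonneg_left h1 hl)
  calc ((Q.natDegree + 1 : ℕ) : ℝ) * (Real.exp d * (1 + ‖β‖) ^ Q.natDegree)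
      ≤ Real.exp d * (Real.exp d * Real.exp (Real.log (1 + ‖β‖) * d)) := by
        gcongr
    _ = Real.exp ((2 + Real.log (1 + ‖β‖)) * d) := by
        rw [← Real.exp_add, ← Real.exp_add]
        congr 1
        ring

/-- the function `u(T) = (cT + 3) log (cT + 3)` -/
noncomputable def uu (c T : ℕ) : ℝ := ((c : ℝ) * T + 3) * Real.log ((c : ℝ) * T + 3)

theorem log3 : (1 : ℝ) ≤ Real.log 3 := by
  rw [Real.le_log_iff_exp_le (by norm_num)]
  linarith [Real.exp_one_lt_d9]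

theorem one_le_log (c T : ℕ) : 1 ≤ Real.log ((c : ℝ) * T + 3) :=
  log3.trans (Real.log_le_log (by norm_num) (by
    have : (0 : ℝ) ≤ (c : ℝ) * T := by positivity
    linarith))

theorem le_uu (c T : ℕ) : (c : ℝ) * T + 3 ≤ uu c T := by
  have h := one_le_log c T
  have h1 : (0 : ℝ) ≤ (c : ℝ) * T + 3 := by positivity
  unfold uu
  nlinarith

theorem one_le_uu (c T : ℕ) : 1 ≤ uu c T := by
  have := le_uu c T
  have : (0 : ℝ) ≤ (c : ℝ) * T := by positivity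
  linarith [le_uu c T]

theorem uu_mono (c : ℕ) {m T : ℕ} (h : m ≤ T) : uu c m ≤ uu c T := by
  have h1 : (c : ℝ) * m + 3 ≤ (c : ℝ) * T + 3 := by
    have : (m : ℝ) ≤ T := by exact_mod_cast h
    nlinarith [Nat.cast_nonneg (α := ℝ) c]
  unfold uu
  refine mul_le_mul h1 (Real.log_le_log (by positivity) h1) ?_ (by positivity)
  linarith [one_le_log c m]

theorem uu_le (c : ℕ) : ∃ K : ℝ, 1 ≤ K ∧ ∀ T : ℕ, 1 ≤ T → uu c T ≤ K * (T : ℝ) ^ (11 / 10 : ℝ) := by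
  refine ⟨10 * ((c : ℝ) + 3) ^ (11 / 10 : ℝ), ?_, fun T hT => ?_⟩
  · have : (1 : ℝ) ≤ ((c : ℝ) + 3) ^ (11 / 10 : ℝ) :=
      Real.one_le_rpow (by linarith [Nat.cast_nonneg (α := ℝ) c]) (by norm_num)
    linarith
  · have hT' : (1 : ℝ) ≤ T := by exact_mod_cast hT
    have hc : (0 : ℝ) ≤ c := Nat.cast_nonneg c
    have h1 : (0 : ℝ) < (c : ℝ) * T + 3 := by positivity
    have h2 := Real.log_le_rpow_div h1.le (ε := 1 / 10) (by norm_num)
    have h3 : (c : ℝ) * T + 3 ≤ ((c : ℝ) + 3) * T := by nlinarith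
    calc uu c T ≤ ((c : ℝ) * T + 3) * (((c : ℝ) * T + 3) ^ (1 / 10 : ℝ) / (1 / 10)) :=
          mul_le_mul_of_nonneg_left h2 h1.le
      _ = 10 * ((c : ℝ) * T + 3) ^ (11 / 10 : ℝ) := by
          rw [show (11 / 10 : ℝ) = 1 + 1 / 10 by norm_num, Real.rpow_add h1, Real.rpow_one]
          ring
      _ ≤ 10 * (((c : ℝ) + 3) * T) ^ (11 / 10 : ℝ) := by
          gcongr
      _ = 10 * ((c : ℝ) + 3) ^ (11 / 10 : ℝ) * (T : ℝ) ^ (11 / 10 : ℝ) := by
          rw [Real.mul_rpow (by linarith) (by linarith)]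
          ring

theorem rpow_lt (K η : ℝ) (hη : 0 < η) : ∃ T₁ : ℕ, ∀ T : ℕ, T₁ ≤ T → 1 ≤ T →
    K * (T : ℝ) ^ (11 / 4 : ℝ) < η * (T : ℝ) ^ 3 := by
  have h1 : Filter.Tendsto (fun x : ℝ => x ^ (1 / 4 : ℝ)) Filter.atTop Filter.atTop :=
    tendsto_rpow_atTop (by norm_num)
  have h2 : Filter.Tendsto (fun T : ℕ => (T : ℝ) ^ (1 / 4 : ℝ)) Filter.atTop Filter.atTop :=
    h1.comp tendsto_natCast_atTop_atTop
  obtain ⟨T₁, hT₁⟩ := Filter.eventually_atTop.1 (h2.eventually_gt_atTop (K / η))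
  refine ⟨T₁, fun T hT hT1 => ?_⟩
  have h3 := hT₁ T hT
  have hpos : (0 : ℝ) < T := by exact_mod_cast hT1
  have h4 : (T : ℝ) ^ 3 = (T : ℝ) ^ (11 / 4 : ℝ) * (T : ℝ) ^ (1 / 4 : ℝ) := by
    rw [← Real.rpow_add hpos, ← Real.rpow_natCast]
    norm_num
  rw [h4]
  have h5 : K < η * (T : ℝ) ^ (1 / 4 : ℝ) := by
    rwa [div_lt_iff₀ hη, mul_comm] at h3
  have h6 : (0 : ℝ) < (T : ℝ) ^ (11 / 4 : ℝ) := Real.rpow_pos_of_pos hpos _
  nlinarith

end Pool.Agent.Helper49.TA
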