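import Mathlib
import Pool.Agent.Helper49.TA.Df
import Pool.Agent.Helper12.TA.Mh
import Pool.Agent.Helper53.TA.Fg
import Pool.Agent.Helper53.TA.Fo
import Pool.Agent.Helper53.TA.Fn
import Pool.Agent.Helper98.TA.X
import Pool.Agent.Helper2.TA.N5
import Pool.Agent.Helper2.TA.N8
import Pool.Agent.Helper4.TA.Fz

/-!
# Project TA: the results of the blocks M, F, X, N
-/

set_option autoImplicit false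

open Complex Polynomial

namespace Pool.Agent.Helper49.TA

/-! ### Block M -/

theorem M_main {μ : ℂ} {a : ℕ → ℤ} (h : HasHurwitz I μ a) :
    ∃ C : ℝ, 0 < C ∧ ∀ P : ℤ[X], P ≠ 0 → ∀ s : ℝ, (P.natDegree : ℝ) ≤ s →
      (∀ i, |(P.coeff i : ℝ)| ≤ Real.exp s) →
      Real.exp (-C * (s + 1) ^ (5 / 2 : ℝ)) ≤ ‖aeval (Real.pi / μ ^ 2 : ℂ) P‖ :=
  Pool.Agent.Helper12.TA.M_final h

/-! ### Block F -/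

section F

variable (μ₁ μ₂ : ℂ) (L : ℕ) (p : (Fin 4 → Fin (L + 1)) → ℂ)

theorem F_diff : Differentiable ℂ (Ff μ₁ μ₂ L p) :=
  Pool.Agent.Helper53.TA.F_diff μ₁ μ₂ L p

/-- quasi-periodicity; the factor does not depend on `p` (nor on `L`) -/
theorem F_qp (κ : Fin 4 → ℤ) : ∃ χ : ℂ, (χ = 1 ∨ χ = -1) ∧ ∀ (L : ℕ)
    (p : (Fin 4 → Fin (L + 1)) → ℂ) (z : Fin 4 → ℂ), Ff μ₁ μ₂ L p (z + lat κ) =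
      χ * cexp (∑ i, (hc (ta i) : ℂ) * ((starRingEnd ℂ) (Lf i (lat κ)) * Lf i z +
        Lf i (lat κ) * (starRingEnd ℂ) (Lf i (lat κ)) / 2)) * Ff μ₁ μ₂ L p z :=
  Pool.Agent.Helper53.TA.F_qp μ₁ μ₂ κ

theorem F_per (κ : Fin 4 → ℤ) (z : Fin 4 → ℂ) (hz : IsR z) :
    ‖Ft μ₁ μ₂ L p (z + lat κ)‖ = ‖Ft μ₁ μ₂ L p z‖ :=
  Pool.Agent.Helper53.TA.F_per μ₁ μ₂ L p κ z hz

theorem F_growth (h1 : μ₁ ≠ 0) (h2 : μ₂ ≠ 0) : ∃ C : ℝ, 1 ≤ C ∧ ∀ (L : ℕ)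
    (p : (Fin 4 → Fin (L + 1)) → ℂ) (s v : Fin 4 → ℂ), IsR s → IsR v →
      ‖Ft μ₁ μ₂ L p (s + I • v)‖ ≤ (∑ k, ‖p k‖) *
        Real.exp (C * (L + 1) * Real.log (L + 2) + C * ‖v‖ ^ 2 + Xf s v) :=
  Pool.Agent.Helper53.TA.F_growth μ₁ μ₂ h1 h2

theorem F_poly : ∃ G : ℕ → (Fin 4 → ℂ) → ℂ, (∀ j, Differentiable ℂ (G j)) ∧
    (∀ j z w, G j (Function.update z 2 w) = G j z) ∧
    ∀ z, Ff μ₁ μ₂ L p z = ∑ j ∈ Finset.range (4 * L + 1), G j z * z 2 ^ j :=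
  Pool.Agent.Helper53.TA.F_poly μ₁ μ₂ L p

theorem F_ne (h1 : μ₁ ≠ 0) (h2 : μ₂ ≠ 0) (h : ∀ z, Ff μ₁ μ₂ L p z = 0) : ∀ k, p k = 0 :=
  Pool.Agent.Helper53.TA.F_ne μ₁ μ₂ L p h1 h2 h

end F

/-! ### Block F5: arithmetic of the derivatives -/

theorem F_arith {μ₁ μ₂ : ℂ} {a₁ a₂ : ℕ → ℤ} (h₁ : HasHurwitz I μ₁ a₁)
    (h₂ : HasHurwitz rho μ₂ a₂) : ∃ C : ℝ, 1 ≤ C ∧
    ∃ W : ℕ → (Fin 4 → ℕ) → (Fin 4 → ℕ) → MvPolynomial (Fin 4) ℤ,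
    ∀ (m : ℕ) (k a : Fin 4 → ℕ) (T : ℕ), 1 ≤ T → m ≤ T → (∀ i, k i ≤ T) → (∀ i, a i ≤ T) →
      ((W m k a).totalDegree : ℝ) ≤ C * T ∧
      ln (W m k a) ≤ Real.exp (C * T * Real.log (T + 1)) ∧
      dl m (fun z => ∏ i, psi (ta i) (mf μ₁ μ₂ i) (k i) (Lf i z) (Ls i z))
        (zd μ₁ μ₂ fun i => (a i : ℂ)) = MvPolynomial.aeval (vv μ₁ μ₂) (W m k a) :=
  Pool.Agent.Helper4.TA.F_arith h₁ h₂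

/-- derivatives of a sum -/
theorem dl_Ff (μ₁ μ₂ : ℂ) (L : ℕ) (p : (Fin 4 → Fin (L + 1)) → ℂ) (m : ℕ) (z : Fin 4 → ℂ) :
    dl m (Ff μ₁ μ₂ L p) z = ∑ k : Fin 4 → Fin (L + 1), p k *
      dl m (fun z => ∏ i, psi (ta i) (mf μ₁ μ₂ i) (k i) (Lf i z) (Ls i z)) z :=
  Pool.Agent.Helper4.TA.dl_Ff μ₁ μ₂ L p m z

/-- `z ↦ dl m F z` is a homogeneous polynomial of degree `m`; a grid decides whether it vanishes -/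
theorem F_grid {μ₁ μ₂ : ℂ} (h1 : μ₁ ≠ 0) (h2 : μ₂ ≠ 0) (L : ℕ)
    (p : (Fin 4 → Fin (L + 1)) → ℂ) (m : ℕ)
    (h : ∀ a : Fin 4 → ℕ, a 0 = 1 → (∀ i, i ≠ 0 → a i ≤ m) →
      dl m (Ff μ₁ μ₂ L p) (zd μ₁ μ₂ fun i => (a i : ℂ)) = 0) (z : Fin 4 → ℂ) :
    dl m (Ff μ₁ μ₂ L p) z = 0 :=
  Pool.Agent.Helper4.TA.F_grid h1 h2 L p m h z

/-- an entire function all of whose derivatives at `0` along lines vanish is zero -/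
theorem F_zero {F : (Fin 4 → ℂ) → ℂ} (hF : Differentiable ℂ F) (h : ∀ m z, dl m F z = 0)
    (z : Fin 4 → ℂ) : F z = 0 :=
  Pool.Agent.Helper4.TA.F_zero hF h z

/-! ### Block X -/

theorem X_main (C₁ c₀ : ℝ) (hC₁ : 1 ≤ C₁) (hc₀ : 0 < c₀) : ∃ η T₀ : ℝ, 0 < η ∧
    ∀ (F Φ : (Fin 4 → ℂ) → ℂ) (A : ℝ) (D T : ℕ),
      Differentiable ℂ F → (∀ z, Φ z = F z * cexp (-(Qf z) / 2)) →
      (∀ κ z, IsR z → ‖Φ (z + lat κ)‖ = ‖Φ z‖) →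
      (∀ s v, IsR s → IsR v → ‖Φ (s + I • v)‖ ≤ Real.exp (A + C₁ * ‖v‖ ^ 2 + Xf s v)) →
      (∃ G : ℕ → (Fin 4 → ℂ) → ℂ, (∀ j, Differentiable ℂ (G j)) ∧
        (∀ j z w, G j (Function.update z 2 w) = G j z) ∧
        ∀ z, F z = ∑ j ∈ Finset.range (D + 1), G j z * z 2 ^ j) →
      (∀ m < T, ∀ z, dl m F z = 0) →
      c₀ * D ≤ T → T₀ ≤ T → A ≤ η * T ^ 3 →
      ∀ z, ‖dl T F z‖ ≤ T.factorial * ‖z‖ ^ T * Real.exp (-η * T ^ 3) :=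
  Pool.Agent.Helper98.TA.X_target C₁ c₀ hC₁ hc₀

/-! ### Block N -/

theorem N_siegel {β : ℂ} (hβ : Transcendental ℚ β) {ϖ : Fin 4 → ℂ}
    (hϖ : ∀ i, IsAlgebraic (IntermediateField.adjoin ℚ {β}) (ϖ i)) : ∃ C : ℝ, 1 ≤ C ∧
    ∀ (M N : ℕ) (S : ℝ) (a : Fin M → Fin N → MvPolynomial (Fin 4) ℤ), 1 ≤ N → C * M ≤ N →
      1 ≤ S → Real.log N ≤ S → (∀ m i, ((a m i).totalDegree : ℝ) ≤ S) →
      (∀ m i, ln (a m i) ≤ Real.exp S) →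
      ∃ p : Fin N → ℤ[X], p ≠ 0 ∧ (∀ i, ((p i).natDegree : ℝ) ≤ C * S) ∧
        (∀ i j, |((p i).coeff j : ℝ)| ≤ Real.exp (C * S)) ∧
        ∀ m, ∑ i, aeval β (p i) * MvPolynomial.aeval ϖ (a m i) = 0 :=
  Pool.Agent.Helper2.TA.N_siegel hβ hϖ

theorem N_norm {β : ℂ} (hβ : Transcendental ℚ β) {ϖ : Fin 4 → ℂ}
    (hϖ : ∀ i, IsAlgebraic (IntermediateField.adjoin ℚ {β}) (ϖ i)) : ∃ C : ℝ, 1 ≤ C ∧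
    ∀ (N : ℕ) (S : ℝ) (p : Fin N → ℤ[X]) (a : Fin N → MvPolynomial (Fin 4) ℤ), 1 ≤ N →
      1 ≤ S → Real.log N ≤ S → (∀ i, ((p i).natDegree : ℝ) ≤ S) →
      (∀ i j, |((p i).coeff j : ℝ)| ≤ Real.exp S) → (∀ i, ((a i).totalDegree : ℝ) ≤ S) →
      (∀ i, ln (a i) ≤ Real.exp S) → ∑ i, aeval β (p i) * MvPolynomial.aeval ϖ (a i) ≠ 0 →
      ∃ Q : ℤ[X], Q ≠ 0 ∧ (Q.natDegree : ℝ) ≤ C * S ∧
        (∀ j, |(Q.coeff j : ℝ)| ≤ Real.exp (C * S)) ∧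
        ‖aeval β Q‖ ≤ ‖∑ i, aeval β (p i) * MvPolynomial.aeval ϖ (a i)‖ * Real.exp (C * S) :=
  Pool.Agent.Helper2.TA.N_norm hβ hϖ

end Pool.Agent.Helper49.TA
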