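import Mathlib
import Pool.Agent.Helper49.TA.St

/-!
# Project TA: assembly, algebraic part
-/

set_option autoImplicit false

open Complex Polynomial

namespace Pool.Agent.Helper49.TA

/-- a number with a transcendence measure is transcendental -/
theorem transcendental_of_meas {β : ℂ}
    (h : ∃ C : ℝ, 0 < C ∧ ∀ P : ℤ[X], P ≠ 0 → ∀ s : ℝ, (P.natDegree : ℝ) ≤ s →
      (∀ i, |(P.coeff i : ℝ)| ≤ Real.exp s) →
      Real.exp (-C * (s + 1) ^ (5 / 2 : ℝ)) ≤ ‖aeval β P‖) : Transcendental ℚ β := by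
  obtain ⟨C, hC, h⟩ := h
  intro halg
  have h2 : IsAlgebraic ℤ β := (IsFractionRing.isAlgebraic_iff ℤ ℚ ℂ).2 halg
  obtain ⟨P, hP, hPβ⟩ := h2
  -- a common bound
  obtain ⟨s, hs1, hs2⟩ : ∃ s : ℝ, (P.natDegree : ℝ) ≤ s ∧ ∀ i, |(P.coeff i : ℝ)| ≤ Real.exp s := by
    refine ⟨P.natDegree + ∑ i ∈ P.support, |(P.coeff i : ℝ)|, ?_, fun i => ?_⟩
    · exact le_add_of_nonneg_right (Finset.sum_nonneg fun _ _ => abs_nonneg _)
    · have h0 : 0 ≤ ∑ i ∈ P.support, |(P.coeff i : ℝ)| := Finset.sum_nonneg fun _ _ => abs_nonneg _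
      have h1 : |(P.coeff i : ℝ)| ≤ ∑ i ∈ P.support, |(P.coeff i : ℝ)| := by
        by_cases hi : i ∈ P.support
        · exact Finset.single_le_sum (f := fun i => |(P.coeff i : ℝ)|)
            (fun _ _ => abs_nonneg _) hi
        · rw [Polynomial.notMem_support_iff.1 hi]
          simpa using h0
      have h3 : (0 : ℝ) ≤ P.natDegree := Nat.cast_nonneg _
      have h4 := Real.add_one_le_exp ((P.natDegree : ℝ) + ∑ i ∈ P.support, |(P.coeff i : ℝ)|)
      linarith
  have h5 := h P hP s hs1 hs2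
  rw [hPβ, norm_zero] at h5
  exact absurd (Real.exp_pos _) (not_lt.2 h5)

/-- if `β` is transcendental and `(β, γ)` is algebraically dependent then `γ` is algebraic over
`ℚ(β)` -/
theorem algebraic_of_dependent {β γ : ℂ} (hβ : Transcendental ℚ β)
    (h : ¬ AlgebraicIndependent ℚ ![β, γ]) :
    IsAlgebraic (IntermediateField.adjoin ℚ {β}) γ := by
  by_contra hγ
  apply h
  have h1 : AlgebraicIndependent ℚ (fun _ : Unit => β) := by
    rw [algebraicIndependent_unique_type_iff]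
    exact hβ
  have h2 : Transcendental (Algebra.adjoin ℚ (Set.range fun _ : Unit => β)) γ := by
    intro h3
    apply hγ
    rw [Set.range_const] at h3
    have h4 : Algebra.adjoin ℚ {β} ≤ (IntermediateField.adjoin ℚ {β}).toSubalgebra :=
      IntermediateField.algebra_adjoin_le_adjoin ℚ {β}
    obtain ⟨P, hP, hPγ⟩ := h3
    refine ⟨P.map (Subalgebra.inclusion h4 : _ →+* _), ?_, ?_⟩
    · intro h5
      apply hP
      exact Polynomial.map_injective _ (Subalgebra.inclusion_injective h4) (by simpa using h5)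
    · rw [aeval_def, eval₂_map]
      rw [aeval_def] at hPγ
      exact hPγ
  have h3 := (AlgebraicIndependent.option_iff_transcendental h1 γ).2 h2
  let e : Fin 2 ≃ Option Unit :=
    { toFun := ![some (), none]
      invFun := fun o => o.elim 1 fun _ => 0
      left_inv := by intro i; fin_cases i <;> rfl
      right_inv := by intro i; rcases i with _ | _ <;> rfl }
  have h4 := (algebraicIndependent_equiv' e (f := fun o : Option Unit => o.elim γ fun _ => β)
    (g := ![β, γ]) (by ext i; fin_cases i <;> rfl)).2 h3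
  exact h4

/-- the numbers `vv μ₁ μ₂` are algebraic over `ℚ(π/μ₁²)` as soon as `π/μ₂²` is -/
theorem vv_algebraic {μ₁ μ₂ : ℂ} (h1 : μ₁ ≠ 0) (h2 : μ₂ ≠ 0)
    (h : IsAlgebraic (IntermediateField.adjoin ℚ {(Real.pi / μ₁ ^ 2 : ℂ)})
      (Real.pi / μ₂ ^ 2 : ℂ)) (i : Fin 4) :
    IsAlgebraic (IntermediateField.adjoin ℚ {(Real.pi / μ₁ ^ 2 : ℂ)}) (vv μ₁ μ₂ i) := by
  set K := IntermediateField.adjoin ℚ {(Real.pi / μ₁ ^ 2 : ℂ)} with hK
  have hpi : (Real.pi : ℂ) ≠ 0 := by exact_mod_cast Real.pi_ne_zero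
  have hβ : IsAlgebraic K (Real.pi / μ₁ ^ 2 : ℂ) :=
    isAlgebraic_algebraMap (R := K) (⟨_, IntermediateField.mem_adjoin_simple_self ℚ _⟩ : K)
  have hI : IsAlgebraic K I := by
    refine ⟨X ^ 2 + 1, ?_, ?_⟩
    · exact (Polynomial.monic_X_pow_add_C (1 : K) two_ne_zero).ne_zero
    · simp
  fin_cases i
  · refine IsAlgebraic.of_pow (n := 2) two_pos ?_
    have : vv μ₁ μ₂ 0 ^ 2 = (Real.pi / μ₂ ^ 2 : ℂ) * (Real.pi / μ₁ ^ 2 : ℂ)⁻¹ := by
      simp only [vv, Matrix.cons_val_zero]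
      field_simp
    change IsAlgebraic K (vv μ₁ μ₂ 0 ^ 2)
    rw [this]
    exact h.mul hβ.inv
  · refine IsAlgebraic.of_pow (n := 2) two_pos ?_
    have : vv μ₁ μ₂ 1 ^ 2 = (Real.pi / μ₂ ^ 2 : ℂ) * (Real.pi / μ₁ ^ 2 : ℂ) := by
      have e : vv μ₁ μ₂ 1 = Real.pi / (μ₁ * μ₂) := rfl
      rw [e]
      field_simp
    change IsAlgebraic K (vv μ₁ μ₂ 1 ^ 2)
    rw [this]
    exact h.mul hβ
  · exact hI
  · change IsAlgebraic K rho
    refine ⟨X ^ 2 + X + 1, ?_, ?_⟩
    · intro h0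
      have := congrArg (fun P => Polynomial.coeff P 2) h0
      simp [Polynomial.coeff_X, Polynomial.coeff_one] at this
    · have h3 : ((Real.sqrt 3 : ℝ) : ℂ) ^ 2 = 3 := by
        rw [← ofReal_pow, Real.sq_sqrt (by norm_num)]
        norm_num
      simp only [map_add, map_pow, aeval_X, map_one, rho]
      push_cast
      linear_combination (1 / 4 : ℂ) * I ^ 2 * h3 + (3 / 4 : ℂ) * I_sq

end Pool.Agent.Helper49.TA
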