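import Mathlib
import Pool.Agent.Helper49.TA.An
import Pool.Agent.Helper49.TA.Ar

/-!
# Project TA: assembly, the main theorem
-/

set_option autoImplicit false

open Complex Polynomial

namespace Pool.Agent.Helper49.TA

/-- `N_siegel` for arbitrary finite index sets -/
theorem siegel_fin {β : ℂ} (hβ : Transcendental ℚ β) {ϖ : Fin 4 → ℂ}
    (hϖ : ∀ i, IsAlgebraic (IntermediateField.adjoin ℚ {β}) (ϖ i)) : ∃ C : ℝ, 1 ≤ C ∧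
    ∀ (ι κ : Type) [Fintype ι] [Fintype κ] (S : ℝ) (a : ι → κ → MvPolynomial (Fin 4) ℤ),
      1 ≤ Fintype.card κ → C * Fintype.card ι ≤ Fintype.card κ →
      1 ≤ S → Real.log (Fintype.card κ) ≤ S → (∀ m i, ((a m i).totalDegree : ℝ) ≤ S) →
      (∀ m i, ln (a m i) ≤ Real.exp S) →
      ∃ p : κ → ℤ[X], p ≠ 0 ∧ (∀ i, ((p i).natDegree : ℝ) ≤ C * S) ∧
        (∀ i j, |((p i).coeff j : ℝ)| ≤ Real.exp (C * S)) ∧
        ∀ m, ∑ i, aeval β (p i) * MvPolynomial.aeval ϖ (a m i) = 0 := by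
  obtain ⟨C, hC, h⟩ := N_siegel hβ hϖ
  refine ⟨C, hC, fun ι κ _ _ S a h1 h2 h3 h4 h5 h6 => ?_⟩
  obtain ⟨p, hp, q1, q2, q3⟩ := h (Fintype.card ι) (Fintype.card κ) S
    (fun m i => a ((Fintype.equivFin ι).symm m) ((Fintype.equivFin κ).symm i)) h1 h2 h3 h4
    (fun m i => h5 _ _) (fun m i => h6 _ _)
  refine ⟨fun i => p (Fintype.equivFin κ i), fun h0 => hp ?_, fun i => q1 _, fun i j => q2 _ j,
    fun m => ?_⟩
  · funext i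
    have := congrFun h0 ((Fintype.equivFin κ).symm i)
    simpa using this
  · have := q3 (Fintype.equivFin ι m)
    simp only [Equiv.symm_apply_apply] at this
    rw [← this]
    exact Fintype.sum_equiv (Fintype.equivFin κ) _ _ fun i => by simp

/-- `N_norm` for arbitrary finite index sets -/
theorem norm_fin {β : ℂ} (hβ : Transcendental ℚ β) {ϖ : Fin 4 → ℂ}
    (hϖ : ∀ i, IsAlgebraic (IntermediateField.adjoin ℚ {β}) (ϖ i)) : ∃ C : ℝ, 1 ≤ C ∧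
    ∀ (κ : Type) [Fintype κ] (S : ℝ) (p : κ → ℤ[X]) (a : κ → MvPolynomial (Fin 4) ℤ),
      1 ≤ Fintype.card κ →
      1 ≤ S → Real.log (Fintype.card κ) ≤ S → (∀ i, ((p i).natDegree : ℝ) ≤ S) →
      (∀ i j, |((p i).coeff j : ℝ)| ≤ Real.exp S) → (∀ i, ((a i).totalDegree : ℝ) ≤ S) →
      (∀ i, ln (a i) ≤ Real.exp S) → ∑ i, aeval β (p i) * MvPolynomial.aeval ϖ (a i) ≠ 0 →
      ∃ Q : ℤ[X], Q ≠ 0 ∧ (Q.natDegree : ℝ) ≤ C * S ∧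
        (∀ j, |(Q.coeff j : ℝ)| ≤ Real.exp (C * S)) ∧
        ‖aeval β Q‖ ≤ ‖∑ i, aeval β (p i) * MvPolynomial.aeval ϖ (a i)‖ * Real.exp (C * S) := by
  obtain ⟨C, hC, h⟩ := N_norm hβ hϖ
  refine ⟨C, hC, fun κ _ S p a h1 h2 h3 h4 h5 h6 h7 h8 => ?_⟩
  have e : ∑ i, aeval β (p i) * MvPolynomial.aeval ϖ (a i) =
      ∑ i, aeval β (p ((Fintype.equivFin κ).symm i)) *
        MvPolynomial.aeval ϖ (a ((Fintype.equivFin κ).symm i)) :=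
    Fintype.sum_equiv (Fintype.equivFin κ) _ _ fun i => by simp
  rw [e] at h8 ⊢
  exact h (Fintype.card κ) S (fun i => p ((Fintype.equivFin κ).symm i))
    (fun i => a ((Fintype.equivFin κ).symm i)) h1 h2 h3 (fun i => h4 _) (fun i j => h5 _ j)
    (fun i => h6 _) (fun i => h7 _) h8

/-- the directions `zd` are bounded -/
theorem zd_norm (μ₁ μ₂ : ℂ) : ∃ R : ℝ, 1 ≤ R ∧ ∀ (a : Fin 4 → ℕ) (T : ℕ), (∀ i, a i ≤ T) →
    ‖zd μ₁ μ₂ fun i => (a i : ℂ)‖ ≤ R * T := by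
  refine ⟨1 + 18 * ‖μ₂⁻¹‖ + 18 * ‖μ₁⁻¹‖ + 18 * ‖μ₁‖ / Real.pi, ?_, fun a T ha => ?_⟩
  · have h1 : 0 ≤ 18 * ‖μ₁‖ / Real.pi := by positivity
    have h2 : 0 ≤ 18 * ‖μ₂⁻¹‖ := by positivity
    have h3 : 0 ≤ 18 * ‖μ₁⁻¹‖ := by positivity
    linarith
  · have h1 : 0 ≤ 18 * ‖μ₁‖ / Real.pi := by positivity
    have h2 : 0 ≤ 18 * ‖μ₂⁻¹‖ := by positivity
    have h3 : 0 ≤ 18 * ‖μ₁⁻¹‖ := by positivity
    have hT : (0 : ℝ) ≤ T := Nat.cast_nonneg T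
    have hR : 0 ≤ 1 + 18 * ‖μ₂⁻¹‖ + 18 * ‖μ₁⁻¹‖ + 18 * ‖μ₁‖ / Real.pi := by linarith
    have ha' : ∀ i, (a i : ℝ) ≤ T := fun i => by exact_mod_cast ha i
    have ha0 : ∀ i, (0 : ℝ) ≤ (a i : ℝ) := fun i => Nat.cast_nonneg _
    refine (pi_norm_le_iff_of_nonneg (mul_nonneg hR hT)).2 fun i => ?_
    have key : ∀ x : ℝ, 0 ≤ x → x ≤ 1 + 18 * ‖μ₂⁻¹‖ + 18 * ‖μ₁⁻¹‖ + 18 * ‖μ₁‖ / Real.pi →
        ∀ i, x * (a i : ℝ) ≤ (1 + 18 * ‖μ₂⁻¹‖ + 18 * ‖μ₁⁻¹‖ + 18 * ‖μ₁‖ / Real.pi) * T :=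
      fun x hx hx' i => mul_le_mul hx' (ha' i) (ha0 i) hR
    fin_cases i
    · have e : ‖zd μ₁ μ₂ (fun i => (a i : ℂ)) 0‖ = 18 * ‖μ₂⁻¹‖ * (a 0 : ℝ) := by
        simp [zd]
        ring
      exact e.le.trans (key _ h2 (by linarith) 0)
    · have e : ‖zd μ₁ μ₂ (fun i => (a i : ℂ)) 1‖ = 18 * ‖μ₁⁻¹‖ * (a 1 : ℝ) := by
        simp [zd]
        ring
      exact e.le.trans (key _ h3 (by linarith) 1)
    · have e : ‖zd μ₁ μ₂ (fun i => (a i : ℂ)) 2‖ = 18 * ‖μ₁‖ / Real.pi * (a 2 : ℝ) := by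
        have : zd μ₁ μ₂ (fun i => (a i : ℂ)) 2 = 18 * (a 2 : ℂ) * μ₁ / Real.pi := rfl
        rw [this]
        simp [abs_of_pos Real.pi_pos]
        ring
      exact e.le.trans (key _ h1 (by linarith) 2)
    · have e : ‖zd μ₁ μ₂ (fun i => (a i : ℂ)) 3‖ = 18 * ‖μ₂⁻¹‖ * (a 3 : ℝ) := by
        have : zd μ₁ μ₂ (fun i => (a i : ℂ)) 3 = 18 * (a 3 : ℂ) / μ₂ := rfl
        rw [this]
        simp
        ring
      exact e.le.trans (key _ h2 (by linarith) 3)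

end Pool.Agent.Helper49.TA
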