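import Mathlib
import Pool.Agent.Helper49.TA.As

/-!
# Project TA: assembly, the auxiliary function
-/

set_option autoImplicit false

open Complex Polynomial

namespace Pool.Agent.Helper49.TA

theorem uu_bounds {C : ℝ} (hC : 1 ≤ C) (c T : ℕ) :
    C * ((c * T : ℕ) : ℝ) ≤ 4 * C * uu c T ∧
    C * ((c * T : ℕ) : ℝ) * Real.log (((c * T : ℕ) : ℝ) + 1) ≤ 4 * C * uu c T ∧
    1 ≤ 4 * C * uu c T ∧ Real.log (((c * T : ℕ) : ℝ) ^ 4) ≤ 4 * C * uu c T := by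
  have h0 : (0 : ℝ) ≤ (c : ℝ) * T := by positivity
  have h1 := le_uu c T
  have h2 := one_le_uu c T
  have h3 := one_le_log c T
  have hu : 0 ≤ uu c T := by linarith
  have h4 : Real.log ((c : ℝ) * T + 1) ≤ Real.log ((c : ℝ) * T + 3) :=
    Real.log_le_log (by positivity) (by linarith)
  have h5 : (c : ℝ) * T * Real.log ((c : ℝ) * T + 1) ≤ uu c T := by
    unfold uu
    exact mul_le_mul (by linarith) h4 (Real.log_nonneg (by linarith)) (by linarith)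
  have h6 : Real.log ((c : ℝ) * T) ≤ uu c T := by
    have : Real.log ((c : ℝ) * T) ≤ (c : ℝ) * T := by
      rcases h0.eq_or_lt with h | h
      · rw [← h]
        simp
      · linarith [Real.log_le_sub_one_of_pos h]
    linarith
  push_cast
  refine ⟨?_, ?_, ?_, ?_⟩
  · nlinarith
  · nlinarith
  · nlinarith
  · rw [Real.log_pow]
    push_cast
    nlinarith

theorem A_core {μ₁ μ₂ β : ℂ} {a₁ a₂ : ℕ → ℤ} (h₁ : HasHurwitz I μ₁ a₁)
    (h₂ : HasHurwitz rho μ₂ a₂) (hβ : Transcendental ℚ β)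
    (hϖ : ∀ i, IsAlgebraic (IntermediateField.adjoin ℚ {β}) (vv μ₁ μ₂ i)) :
    ∃ (c : ℕ) (K : ℝ), 1 ≤ c ∧ 1 ≤ K ∧ ∀ n : ℕ, 1 ≤ n → ∃ (L T : ℕ)
      (pk : (Fin 4 → Fin (L + 1)) → ℂ) (a : Fin 4 → ℕ) (Q : ℤ[X]),
      L + 1 = c * n ∧ n ≤ T ∧ (∀ i, a i ≤ T) ∧ 0 < ∑ k, ‖pk k‖ ∧
      Real.log (∑ k, ‖pk k‖) ≤ K * uu c T ∧
      (∀ m < T, ∀ z, dl m (Ff μ₁ μ₂ L pk) z = 0) ∧ Q ≠ 0 ∧
      (Q.natDegree : ℝ) ≤ K * uu c T ∧ (∀ i, |(Q.coeff i : ℝ)| ≤ Real.exp (K * uu c T)) ∧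
      ‖aeval β Q‖ ≤ ‖dl T (Ff μ₁ μ₂ L pk) (zd μ₁ μ₂ fun i => (a i : ℂ))‖ *
        Real.exp (K * uu c T) := by
  have hμ₁ := h₁.1
  have hμ₂ := h₂.1
  obtain ⟨C_S, hCS, hS⟩ := siegel_fin hβ hϖ
  obtain ⟨C_N, hCN, hN⟩ := norm_fin hβ hϖ
  obtain ⟨C_W, hCW, W, hW⟩ := F_arith h₁ h₂
  obtain ⟨c, hcS⟩ : ∃ c : ℕ, C_S ≤ c := exists_nat_ge C_S
  have hc1 : 1 ≤ c := by
    have : (1 : ℝ) ≤ c := hCS.trans hcS
    exact_mod_cast this
  obtain ⟨B, hBdef⟩ : ∃ B, B = 2 + Real.log (1 + ‖β‖) := ⟨_, rfl⟩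
  have hB : 2 ≤ B := by
    rw [hBdef]
    linarith [Real.log_nonneg (show (1 : ℝ) ≤ 1 + ‖β‖ by linarith [norm_nonneg β])]
  have hBS : 0 ≤ B * C_S := by positivity
  have hNS : 1 ≤ C_N * C_S := by nlinarith
  -- the integrality statement in the normalised form
  have hWT : ∀ (m : ℕ) (k a : Fin 4 → ℕ) (T : ℕ), 1 ≤ T → m ≤ c * T → (∀ i, k i ≤ c * T) →
      (∀ i, a i ≤ c * T) → ((W m k a).totalDegree : ℝ) ≤ 4 * C_W * uu c T ∧
      ln (W m k a) ≤ Real.exp (4 * C_W * uu c T) ∧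
      dl m (fun z => ∏ i, psi (ta i) (mf μ₁ μ₂ i) (k i) (Lf i z) (Ls i z))
        (zd μ₁ μ₂ fun i => (a i : ℂ)) = MvPolynomial.aeval (vv μ₁ μ₂) (W m k a) := by
    intro m k a T hT hm hk ha
    obtain ⟨q1, q2, q3⟩ := hW m k a (c * T) (Nat.mul_pos hc1 hT) hm hk ha
    obtain ⟨b1, b2, b3, b4⟩ := uu_bounds hCW c T
    exact ⟨q1.trans b1, q2.trans (Real.exp_le_exp.2 b2), q3⟩
  refine ⟨c, 4 * C_W * (C_N * C_S + 1 + B * C_S), hc1, by nlinarith, fun n hn => ?_⟩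
  obtain ⟨L, hL⟩ : ∃ L, L + 1 = c * n := ⟨c * n - 1, Nat.sub_add_cancel (Nat.mul_pos hc1 hn)⟩
  have hcard : Fintype.card (Fin 4 → Fin (L + 1)) = (c * n) ^ 4 := by simp [hL]
  have hcard2 : Fintype.card (Fin n × (Fin 3 → Fin n)) = n ^ 4 := by
    simp
    ring
  have hcn : n ≤ c * n := Nat.le_mul_of_pos_left n hc1
  have hcn1 : 1 ≤ c * n := hn.trans hcn
  have hkn : ∀ (k : Fin 4 → Fin (L + 1)) (i : Fin 4), (k i : ℕ) < c * n := fun k i => by
    rw [← hL]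
    exact (k i).2
  obtain ⟨b1, b2, b3, b4⟩ := uu_bounds hCW c n
  have hcons : ∀ (b : Fin 3 → Fin n) (i : Fin 4),
      (Fin.cons 1 (fun i => (b i : ℕ)) : Fin 4 → ℕ) i ≤ c * n := by
    intro b i
    refine Fin.cases ?_ (fun i => ?_) i
    · simpa using hcn1
    · simpa using (b i).2.le.trans hcn
  obtain ⟨p, hp0, hp1, hp2, hp3⟩ := hS (Fin n × (Fin 3 → Fin n)) (Fin 4 → Fin (L + 1))
    (4 * C_W * uu c n)
    (fun mb k => W mb.1 (fun i => (k i : ℕ)) (Fin.cons 1 fun i => (mb.2 i : ℕ)))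
    (by
      rw [hcard]
      exact Nat.one_le_pow _ _ hcn1)
    (by
      rw [hcard, hcard2]
      push_cast
      have h1 : (1 : ℝ) ≤ c := by exact_mod_cast hc1
      have h2 : (c : ℝ) ≤ (c : ℝ) ^ 4 := by
        have := pow_le_pow_right₀ h1 (show 1 ≤ 4 by norm_num)
        simpa using this
      rw [mul_pow]
      exact mul_le_mul_of_nonneg_right (hcS.trans h2) (by positivity))
    b3
    (by
      rw [hcard, Nat.cast_pow]
      exact b4)
    (fun mb k => (hWT _ _ _ n hn (mb.1.2.le.trans hcn) (fun i => (hkn k i).le) (hcons mb.2)).1)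
    (fun mb k => (hWT _ _ _ n hn (mb.1.2.le.trans hcn) (fun i => (hkn k i).le) (hcons mb.2)).2.1)
  obtain ⟨pk, hpk⟩ : ∃ pk : (Fin 4 → Fin (L + 1)) → ℂ, pk = fun k => aeval β (p k) := ⟨_, rfl⟩
  -- `p ≠ 0` gives a nonzero function
  obtain ⟨k₀, hk₀⟩ : ∃ k, p k ≠ 0 := by
    by_contra h
    push Not at h
    exact hp0 (funext h)
  have hβ' : Transcendental ℤ β := fun h =>
    hβ ((IsFractionRing.isAlgebraic_iff ℤ ℚ ℂ).1 h)
  have hpk₀ : pk k₀ ≠ 0 := by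
    rw [hpk]
    intro h
    exact hβ' ⟨p k₀, hk₀, h⟩
  have hex : ∃ m, ∃ z, dl m (Ff μ₁ μ₂ L pk) z ≠ 0 := by
    by_contra h
    push Not at h
    have h1 := F_zero (F_diff μ₁ μ₂ L pk) h
    exact hpk₀ (F_ne μ₁ μ₂ L pk hμ₁ hμ₂ h1 k₀)
  classical
  obtain ⟨T, hTdef⟩ : ∃ T, T = Nat.find hex := ⟨_, rfl⟩
  have hT0 : ∃ z, dl T (Ff μ₁ μ₂ L pk) z ≠ 0 := by
    rw [hTdef]
    exact Nat.find_spec hex
  have hTm : ∀ m < T, ∀ z, dl m (Ff μ₁ μ₂ L pk) z = 0 := by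
    intro m hm z
    rw [hTdef] at hm
    have := Nat.find_min hex hm
    push Not at this
    exact this z
  -- the derivative at a grid point
  have hder : ∀ (m : ℕ) (a : Fin 4 → ℕ) (T : ℕ), 1 ≤ T → n ≤ T → m ≤ c * T →
      (∀ i, a i ≤ c * T) → dl m (Ff μ₁ μ₂ L pk) (zd μ₁ μ₂ fun i => (a i : ℂ)) =
      ∑ k : Fin 4 → Fin (L + 1), aeval β (p k) *
        MvPolynomial.aeval (vv μ₁ μ₂) (W m (fun i => (k i : ℕ)) a) := by
    intro m a T hT hnT hm ha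
    rw [dl_Ff]
    refine Finset.sum_congr rfl fun k _ => ?_
    rw [(hWT m (fun i => (k i : ℕ)) a T hT hm
      (fun i => (hkn k i).le.trans (Nat.mul_le_mul_left c hnT)) ha).2.2, hpk]
  have hnT : n ≤ T := by
    by_contra hlt
    push Not at hlt
    obtain ⟨z, hz⟩ := hT0
    refine hz (F_grid hμ₁ hμ₂ L pk T (fun a ha0 ha => ?_) z)
    have ha' : ∀ i, a i ≤ c * n := by
      intro i
      by_cases hi : i = 0
      · rw [hi, ha0]
        exact hcn1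
      · exact (ha i hi).trans (hlt.le.trans hcn)
    rw [hder T a n hn le_rfl (hlt.le.trans hcn) ha']
    have h3 := hp3 (⟨T, hlt⟩, fun i => ⟨a i.succ, (ha _ (Fin.succ_ne_zero i)).trans_lt hlt⟩)
    have e : (Fin.cons 1 fun i : Fin 3 => a i.succ : Fin 4 → ℕ) = a := by
      funext i
      refine Fin.cases ?_ (fun i => ?_) i
      · simp [ha0]
      · simp
    simp only [e] at h3
    exact h3
  have hT1 : 1 ≤ T := hn.trans hnT
  have hcT : T ≤ c * T := Nat.le_mul_of_pos_left T hc1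
  obtain ⟨a, ha0, ha, hne⟩ : ∃ a : Fin 4 → ℕ, a 0 = 1 ∧ (∀ i, i ≠ 0 → a i ≤ T) ∧
      dl T (Ff μ₁ μ₂ L pk) (zd μ₁ μ₂ fun i => (a i : ℂ)) ≠ 0 := by
    by_contra h
    push Not at h
    obtain ⟨z, hz⟩ := hT0
    exact hz (F_grid hμ₁ hμ₂ L pk T h z)
  have haT : ∀ i, a i ≤ T := by
    intro i
    by_cases hi : i = 0
    · rw [hi, ha0]
      exact hT1
    · exact ha i hi
  have hξ := hder T a T hT1 hnT hcT fun i => (haT i).trans hcT
  obtain ⟨d1, d2, d3, d4⟩ := uu_bounds hCW c T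
  have hun : uu c n ≤ uu c T := uu_mono c hnT
  have huT : 1 ≤ uu c T := one_le_uu c T
  have hunn : 1 ≤ uu c n := one_le_uu c n
  have hCSu : C_S * (4 * C_W * uu c n) ≤ C_S * (4 * C_W * uu c T) := by gcongr
  have hle : 4 * C_W * uu c T ≤ C_S * (4 * C_W * uu c T) := by
    have : 0 ≤ 4 * C_W * uu c T := by positivity
    nlinarith
  have hlogN : Real.log (Fintype.card (Fin 4 → Fin (L + 1))) ≤ 4 * C_W * uu c T := by
    rw [hcard, Nat.cast_pow]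
    refine b4.trans ?_
    gcongr
  obtain ⟨Q, hQ0, hQ1, hQ2, hQ3⟩ := hN (Fin 4 → Fin (L + 1)) (C_S * (4 * C_W * uu c T)) p
    (fun k => W T (fun i => (k i : ℕ)) a)
    (by
      rw [hcard]
      exact Nat.one_le_pow _ _ hcn1)
    (d3.trans hle) (hlogN.trans hle) (fun k => (hp1 k).trans hCSu)
    (fun k j => (hp2 k j).trans (Real.exp_le_exp.2 hCSu))
    (fun k => ((hWT T (fun i => (k i : ℕ)) a T hT1 hcT
      (fun i => (hkn k i).le.trans (Nat.mul_le_mul_left c hnT))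
      fun i => (haT i).trans hcT).1).trans hle)
    (fun k => ((hWT T (fun i => (k i : ℕ)) a T hT1 hcT
      (fun i => (hkn k i).le.trans (Nat.mul_le_mul_left c hnT))
      fun i => (haT i).trans hcT).2.1).trans (Real.exp_le_exp.2 hle))
    (by rwa [← hξ])
  have hKN : C_N * (C_S * (4 * C_W * uu c T)) ≤
      4 * C_W * (C_N * C_S + 1 + B * C_S) * uu c T := by
    have h1 : 0 ≤ 4 * C_W * uu c T := by positivity
    have h2 : C_N * (C_S * (4 * C_W * uu c T)) = (C_N * C_S) * (4 * C_W * uu c T) := by ring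
    have h3 : 4 * C_W * (C_N * C_S + 1 + B * C_S) * uu c T =
        (C_N * C_S + 1 + B * C_S) * (4 * C_W * uu c T) := by ring
    rw [h2, h3]
    exact mul_le_mul_of_nonneg_right (by linarith) h1
  have hpos : 0 < ∑ k, ‖pk k‖ :=
    lt_of_lt_of_le (norm_pos_iff.2 hpk₀)
      (Finset.single_le_sum (f := fun k => ‖pk k‖) (fun _ _ => norm_nonneg _) (Finset.mem_univ k₀))
  refine ⟨L, T, pk, a, Q, hL, hnT, haT, hpos, ?_, hTm, hQ0, hQ1.trans hKN,
    fun i => (hQ2 i).trans (Real.exp_le_exp.2 hKN), ?_⟩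
  · -- the size of the coefficients
    have h1 : ∀ k, ‖pk k‖ ≤ Real.exp (B * (C_S * (4 * C_W * uu c T))) := by
      intro k
      rw [hpk, hBdef]
      exact aeval_le β (p k) _ ((hp1 k).trans hCSu)
        (fun j => (hp2 k j).trans (Real.exp_le_exp.2 hCSu))
    have h2 : ∑ k, ‖pk k‖ ≤ (Fintype.card (Fin 4 → Fin (L + 1)) : ℝ) *
        Real.exp (B * (C_S * (4 * C_W * uu c T))) := by
      refine (Finset.sum_le_sum fun k _ => h1 k).trans ?_
      rw [Finset.sum_const, nsmul_eq_mul, Finset.card_univ]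
    have hcp : (0 : ℝ) < Fintype.card (Fin 4 → Fin (L + 1)) := by
      rw [hcard]
      have : 0 < (c * n) ^ 4 := Nat.one_le_pow _ _ hcn1
      exact_mod_cast this
    have h3 := Real.log_le_log hpos h2
    rw [Real.log_mul hcp.ne' (Real.exp_pos _).ne', Real.log_exp] at h3
    refine h3.trans ?_
    have h4 : 0 ≤ 4 * C_W * uu c T := by positivity
    have h5 : 4 * C_W * (C_N * C_S + 1 + B * C_S) * uu c T =
        (C_N * C_S) * (4 * C_W * uu c T) + 4 * C_W * uu c T + B * (C_S * (4 * C_W * uu c T)) := by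
      ring
    rw [h5]
    have h6 : 0 ≤ (C_N * C_S) * (4 * C_W * uu c T) := by positivity
    linarith
  · rw [hξ]
    refine hQ3.trans ?_
    exact mul_le_mul_of_nonneg_left (Real.exp_le_exp.2 hKN) (norm_nonneg _)

end Pool.Agent.Helper49.TA
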