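import Mathlib
import Pool.Agent.Helper49.TA.At

/-!
# Project TA: assembly, the main theorem
-/

set_option autoImplicit false

open Complex Polynomial

namespace Pool.Agent.Helper49.TA

theorem A_main {μ₁ μ₂ : ℂ} {a₁ a₂ : ℕ → ℤ} (h₁ : HasHurwitz I μ₁ a₁)
    (h₂ : HasHurwitz rho μ₂ a₂) :
    AlgebraicIndependent ℚ ![(Real.pi / μ₁ ^ 2 : ℂ), (Real.pi / μ₂ ^ 2 : ℂ)] := by
  by_contra hdep
  have hmeas := M_main h₁
  have hβ := transcendental_of_meas hmeas
  have hγ := algebraic_of_dependent hβ hdep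
  have hϖ := fun i => vv_algebraic h₁.1 h₂.1 hγ i
  obtain ⟨C_M, hCM, hM⟩ := hmeas
  obtain ⟨c, K, hc, hK, hcore⟩ := A_core h₁ h₂ hβ hϖ
  obtain ⟨C_G, hCG, hG⟩ := F_growth μ₁ μ₂ h₁.1 h₂.1
  have hc' : (1 : ℝ) ≤ c := by exact_mod_cast hc
  obtain ⟨η, T₀, hη, hX⟩ := X_main C_G (1 / (4 * c)) hCG (by positivity)
  obtain ⟨R, hR, hzd⟩ := zd_norm μ₁ μ₂
  obtain ⟨Ku, hKu, hu⟩ := uu_le c
  obtain ⟨T₁, hT₁⟩ := rpow_lt ((K + C_G) * Ku) η hη
  obtain ⟨T₂, hT₂⟩ := rpow_lt ((R + 2 + K) * Ku + C_M * (2 * K * Ku) ^ (5 / 2 : ℝ)) η hη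
  obtain ⟨n, hn1, hnT₁, hnT₂, hnT₀⟩ : ∃ n : ℕ, 1 ≤ n ∧ T₁ ≤ n ∧ T₂ ≤ n ∧ T₀ ≤ n := by
    refine ⟨max 1 (max T₁ (max T₂ ⌈T₀⌉₊)), le_max_left _ _, ?_, ?_, ?_⟩
    · exact (le_max_left _ _).trans (le_max_right _ _)
    · exact (le_max_left _ _).trans ((le_max_right _ _).trans (le_max_right _ _))
    · refine (Nat.le_ceil T₀).trans ?_
      exact_mod_cast (le_max_right _ _).trans ((le_max_right _ _).trans (le_max_right _ _))
  obtain ⟨L, T, pk, a, Q, hL, hnT, haT, hpos, hlog, hTm, hQ0, hQ1, hQ2, hQ3⟩ := hcore n hn1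
  have hT1 : 1 ≤ T := hn1.trans hnT
  have hT1' : (1 : ℝ) ≤ T := by exact_mod_cast hT1
  have hT0' : (0 : ℝ) < T := by linarith
  have hLc : (L : ℝ) + 1 = c * n := by exact_mod_cast hL
  have hnT' : (n : ℝ) ≤ T := by exact_mod_cast hnT
  have hLT : (L : ℝ) + 1 ≤ c * T := by
    rw [hLc]
    gcongr
  -- the function `u`
  have hu1 : 1 ≤ uu c T := one_le_uu c T
  have hule : (c : ℝ) * T + 3 ≤ uu c T := le_uu c T
  have hTu : (T : ℝ) ≤ uu c T := by nlinarith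
  have hlogu := one_le_log c T
  have hTlog : (T : ℝ) * Real.log T ≤ uu c T := by
    unfold uu
    exact mul_le_mul (by nlinarith) (Real.log_le_log hT0' (by nlinarith))
      (Real.log_nonneg hT1') (by positivity)
  have hupow : uu c T ≤ Ku * (T : ℝ) ^ (11 / 4 : ℝ) := by
    refine (hu T hT1).trans ?_
    have : (T : ℝ) ^ (11 / 10 : ℝ) ≤ (T : ℝ) ^ (11 / 4 : ℝ) :=
      Real.rpow_le_rpow_of_exponent_le hT1' (by norm_num)
    gcongr
  have hTp : (0 : ℝ) < (T : ℝ) ^ (11 / 4 : ℝ) := Real.rpow_pos_of_pos hT0' _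
  have hX1 := hX (Ff μ₁ μ₂ L pk) (Ft μ₁ μ₂ L pk)
    (Real.log (∑ k, ‖pk k‖) + C_G * (L + 1) * Real.log (L + 2)) (4 * L) T
    (F_diff μ₁ μ₂ L pk) (fun z => rfl) (fun κ z hz => F_per μ₁ μ₂ L pk κ z hz)
    (fun s v hs hv => by
      refine (hG L pk s v hs hv).trans (le_of_eq ?_)
      rw [add_assoc (Real.log _), add_assoc (Real.log _), Real.exp_add (Real.log _),
        Real.exp_log hpos])
    (F_poly μ₁ μ₂ L pk) hTm
    (by
      have h1 : (L : ℝ) ≤ c * T := by linarith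
      push_cast
      rw [div_mul_eq_mul_div, div_le_iff₀ (by positivity)]
      linarith)
    (hnT₀.trans hnT')
    (by
      -- the size `A`
      have h1 : C_G * ((L : ℝ) + 1) * Real.log ((L : ℝ) + 2) ≤ C_G * uu c T := by
        have h2 : Real.log ((L : ℝ) + 2) ≤ Real.log ((c : ℝ) * T + 3) :=
          Real.log_le_log (by positivity) (by linarith)
        have h3 : ((L : ℝ) + 1) * Real.log ((L : ℝ) + 2) ≤ uu c T := by
          unfold uu
          exact mul_le_mul (by linarith) h2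
            (Real.log_nonneg (by linarith [Nat.cast_nonneg (α := ℝ) L])) (by positivity)
        rw [mul_assoc]
        exact mul_le_mul_of_nonneg_left h3 (by linarith)
      have h4 : (K + C_G) * uu c T ≤ (K + C_G) * Ku * (T : ℝ) ^ (11 / 4 : ℝ) := by
        rw [mul_assoc]
        exact mul_le_mul_of_nonneg_left hupow (by linarith)
      have h5 := hT₁ T (hnT₁.trans hnT) hT1
      linarith)
    (zd μ₁ μ₂ fun i => (a i : ℂ))
  -- upper bound
  have hfac : ((T.factorial : ℕ) : ℝ) ≤ Real.exp (uu c T) := by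
    have h1 : ((T.factorial : ℕ) : ℝ) ≤ (T : ℝ) ^ T := by exact_mod_cast Nat.factorial_le_pow T
    refine h1.trans ?_
    calc (T : ℝ) ^ T = Real.exp (T * Real.log T) := by
          rw [Real.exp_nat_mul, Real.exp_log hT0']
      _ ≤ _ := Real.exp_le_exp.2 hTlog
  have hzp : ‖zd μ₁ μ₂ fun i => (a i : ℂ)‖ ^ T ≤ Real.exp ((R + 1) * uu c T) := by
    have h1 := hzd a T haT
    have hRT : 0 < R * T := by positivity
    calc ‖zd μ₁ μ₂ fun i => (a i : ℂ)‖ ^ T ≤ (R * T) ^ T :=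
          pow_le_pow_left₀ (norm_nonneg _) h1 _
      _ = Real.exp (T * Real.log (R * T)) := by
          rw [Real.exp_nat_mul, Real.exp_log hRT]
      _ ≤ _ := by
          refine Real.exp_le_exp.2 ?_
          rw [Real.log_mul (by linarith) hT0'.ne']
          have h2 : Real.log R ≤ R := by
            linarith [Real.log_le_sub_one_of_pos (show 0 < R by linarith)]
          have h3 : (T : ℝ) * Real.log R ≤ R * uu c T := by
            calc (T : ℝ) * Real.log R ≤ T * R := mul_le_mul_of_nonneg_left h2 hT0'.le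
              _ = R * T := mul_comm _ _
              _ ≤ R * uu c T := mul_le_mul_of_nonneg_left hTu (by linarith)
          linarith
  have hup : ‖dl T (Ff μ₁ μ₂ L pk) (zd μ₁ μ₂ fun i => (a i : ℂ))‖ ≤
      Real.exp (uu c T + (R + 1) * uu c T + -η * T ^ 3) := by
    refine hX1.trans ?_
    rw [Real.exp_add, Real.exp_add]
    refine mul_le_mul_of_nonneg_right ?_ (Real.exp_pos _).le
    exact mul_le_mul hfac hzp (by positivity) (Real.exp_pos _).le
  -- lower bound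
  have hlow := hM Q hQ0 (K * uu c T) hQ1 hQ2
  have hfin := Real.exp_le_exp.1 (hlow.trans (hQ3.trans
    ((mul_le_mul_of_nonneg_right hup (Real.exp_pos _).le).trans_eq (Real.exp_add _ _).symm)))
  have h52 : (K * uu c T + 1) ^ (5 / 2 : ℝ) ≤
      (2 * K * Ku) ^ (5 / 2 : ℝ) * (T : ℝ) ^ (11 / 4 : ℝ) := by
    have h1 : K * uu c T + 1 ≤ 2 * K * Ku * (T : ℝ) ^ (11 / 10 : ℝ) := by
      have h2 : K * uu c T ≤ K * (Ku * (T : ℝ) ^ (11 / 10 : ℝ)) :=
        mul_le_mul_of_nonneg_left (hu T hT1) (by linarith)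
      have h3 : 1 ≤ K * uu c T := by nlinarith
      linarith
    calc (K * uu c T + 1) ^ (5 / 2 : ℝ) ≤ (2 * K * Ku * (T : ℝ) ^ (11 / 10 : ℝ)) ^ (5 / 2 : ℝ) :=
          Real.rpow_le_rpow (by positivity) h1 (by norm_num)
      _ = (2 * K * Ku) ^ (5 / 2 : ℝ) * (T : ℝ) ^ (11 / 4 : ℝ) := by
          rw [Real.mul_rpow (by positivity) (by positivity), ← Real.rpow_mul hT0'.le]
          norm_num
  have h6 := hT₂ T (hnT₂.trans hnT) hT1
  have h7 : C_M * (K * uu c T + 1) ^ (5 / 2 : ℝ) ≤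
      C_M * (2 * K * Ku) ^ (5 / 2 : ℝ) * (T : ℝ) ^ (11 / 4 : ℝ) := by
    rw [mul_assoc]
    exact mul_le_mul_of_nonneg_left h52 hCM.le
  have h8 : (R + 2 + K) * uu c T ≤ (R + 2 + K) * Ku * (T : ℝ) ^ (11 / 4 : ℝ) := by
    rw [mul_assoc]
    exact mul_le_mul_of_nonneg_left hupow (by linarith)
  linarith

end Pool.Agent.Helper49.TA
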