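import Mathlib
import Pool.Agent.Helper49.TA.Df

/-!
# Project TA, block E, part a: the function `Sf τ`
-/

set_option autoImplicit false

open Complex

namespace Pool.Agent.Helper49.TA

/-- TA-Ea1. -/
theorem rho_im : rho.im = Real.sqrt 3 / 2 := by
  unfold rho
  simp

private theorem rho_sq_sqrt : ((Real.sqrt 3 : ℝ) : ℂ) ^ 2 = 3 := by
  rw [← Complex.ofReal_pow, Real.sq_sqrt (by norm_num)]
  norm_num

/-- TA-Ea1. -/
theorem rho_sq : rho ^ 2 = -1 - rho := by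
  unfold rho
  push_cast
  linear_combination (I ^ 2 / 4) * rho_sq_sqrt + (3 / 4 : ℂ) * I_sq

/-- TA-Ea1. `-1/ρ = ρ + 1` -/
theorem neg_inv_rho : -1 / rho = rho + 1 := by
  have h0 : rho ≠ 0 := by
    intro h
    have h1 := rho_sq
    rw [h] at h1
    norm_num at h1
  rw [div_eq_iff h0]
  linear_combination -rho_sq

/-- TA-Ea1. all terms `exp(-π n²)` are positive reals -/
theorem theta_zero_I : jacobiTheta₂ 0 I ≠ 0 := by
  intro h0
  have h1 := hasSum_jacobiTheta₂_term 0 (τ := I) (by rw [I_im]; exact one_pos)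
  rw [h0] at h1
  have h2 := Complex.hasSum_re h1
  have h3 : ∀ n : ℤ, (jacobiTheta₂_term n 0 I).re = Real.exp (-(Real.pi * (n : ℝ) ^ 2)) := by
    intro n
    have h4 : jacobiTheta₂_term n 0 I = ((Real.exp (-(Real.pi * (n : ℝ) ^ 2)) : ℝ) : ℂ) := by
      rw [jacobiTheta₂_term, Complex.ofReal_exp]
      congr 1
      push_cast
      linear_combination ((Real.pi : ℂ) * (n : ℂ) ^ 2) * I_sq
    rw [h4, Complex.ofReal_re]
  simp only [h3, Complex.zero_re] at h2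
  have h5 := le_hasSum h2 0 fun n _ => (Real.exp_pos _).le
  exact absurd h5 (not_le.2 (Real.exp_pos _))

/-- TA-Ea2. `|θ(0,ρ) - 1| ≤ 2 ∑_{n ≥ 1} exp(-π n² √3/2) < 1` -/
theorem theta_zero_rho : jacobiTheta₂ 0 rho ≠ 0 := by
  intro h0
  have him : rho.im = Real.sqrt 3 / 2 := by
    simp only [rho, add_im, mul_im, ofReal_re, ofReal_im, I_re, I_im]
    norm_num
  have h3 : (1.7 : ℝ) < Real.sqrt 3 := by
    apply Real.lt_sqrt_of_sq_lt
    norm_num
  have hpos : 0 < rho.im := by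
    rw [him]
    linarith
  have h1 := norm_jacobiTheta_sub_one_le hpos
  rw [jacobiTheta_eq_jacobiTheta₂, h0] at h1
  have hpi := Real.pi_gt_three
  have h2 : Real.exp (-Real.pi * rho.im) < 1 / 3 := by
    rw [neg_mul, Real.exp_neg, ← one_div]
    have h4 : (2 : ℝ) < Real.pi * rho.im := by
      rw [him]
      nlinarith
    have h5 := Real.add_one_le_exp (Real.pi * rho.im)
    apply one_div_lt_one_div_of_lt (by norm_num)
    linarith
  have h6 : (0 : ℝ) < Real.exp (-Real.pi * rho.im) := Real.exp_pos _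
  have h7 : 2 / (1 - Real.exp (-Real.pi * rho.im)) * Real.exp (-Real.pi * rho.im) < 1 := by
    rw [div_mul_eq_mul_div, div_lt_one (by linarith)]
    linarith
  have h8 : ‖(0 : ℂ) - 1‖ = 1 := by
    rw [zero_sub, norm_neg, norm_one]
  rw [h8] at h1
  linarith

/-- TA-Ea3. -/
theorem Sf_differentiable {τ : ℂ} (hτ : 0 < τ.im) : Differentiable ℂ (Sf τ) := by
  intro z
  have h1 : DifferentiableAt ℂ (fun z : ℂ => cexp (hc τ * z ^ 2 / 2)) z := by fun_prop
  exact ((differentiableAt_jacobiTheta₂_fst z hτ).mul h1).div_const _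

/-- TA-Ea3. -/
theorem Sf_zero {τ : ℂ} (h0 : jacobiTheta₂ 0 τ ≠ 0) : Sf τ 0 = 1 := by
  unfold Sf
  have h1 : (hc τ : ℂ) * 0 ^ 2 / 2 = 0 := by ring
  rw [h1, Complex.exp_zero, mul_one, div_self h0]

/-- TA-Ea3. -/
theorem Sf_neg (τ z : ℂ) : Sf τ (-z) = Sf τ z := by
  unfold Sf
  rw [jacobiTheta₂_neg_left, neg_sq]

/-- TA-Ea3. -/
theorem Sf_add_one (τ z : ℂ) : Sf τ (z + 1) = cexp (hc τ * (z + 1 / 2)) * Sf τ z := by
  unfold Sf
  have h1 : (hc τ : ℂ) * (z + 1) ^ 2 / 2 = hc τ * (z + 1 / 2) + hc τ * z ^ 2 / 2 := by ring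
  rw [jacobiTheta₂_add_left, h1, Complex.exp_add]
  ring

/-- TA-Ea3. Use `h (τ - conj τ) = 2πi`. -/
theorem Sf_add_tau {τ : ℂ} (hτ : 0 < τ.im) (z : ℂ) :
    Sf τ (z + τ) = cexp (hc τ * ((starRingEnd ℂ) τ * z + τ * (starRingEnd ℂ) τ / 2)) * Sf τ z := by
  have hk : (hc τ : ℂ) * (τ - (starRingEnd ℂ) τ) = 2 * Real.pi * I := by
    have h0 : (τ.im : ℂ) ≠ 0 := by exact_mod_cast hτ.ne'
    rw [Complex.sub_conj, hc]
    push_cast
    field_simp
  unfold Sf
  have h1 : (hc τ : ℂ) * (z + τ) ^ 2 / 2 + -Real.pi * I * (τ + 2 * z) =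
      hc τ * ((starRingEnd ℂ) τ * z + τ * (starRingEnd ℂ) τ / 2) + hc τ * z ^ 2 / 2 := by
    linear_combination (z + τ / 2) * hk
  have h2 : cexp (-Real.pi * I * (τ + 2 * z)) * cexp (hc τ * (z + τ) ^ 2 / 2) =
      cexp (hc τ * ((starRingEnd ℂ) τ * z + τ * (starRingEnd ℂ) τ / 2)) *
        cexp (hc τ * z ^ 2 / 2) := by
    rw [← Complex.exp_add, ← Complex.exp_add, ← h1, add_comm]
  rw [jacobiTheta₂_add_left']
  linear_combination (jacobiTheta₂ z τ / jacobiTheta₂ 0 τ) * h2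

/-- Iteration of one quasi-period. -/
private theorem Sf_add_iter {f : ℂ → ℂ} {h w c : ℂ}
    (H : ∀ z, f (z + w) = cexp (h * (c * z + w * c / 2)) * f z) (n : ℤ) (z : ℂ) :
    f (z + n * w) = cexp (h * (n * c * z + n ^ 2 * w * c / 2)) * f z := by
  induction n using Int.induction_on with
  | zero => simp
  | succ i ih =>
    have e : z + ((i : ℤ) + 1 : ℤ) * w = z + (i : ℤ) * w + w := by push_cast; ring
    rw [e, H, ih, ← mul_assoc, ← Complex.exp_add]
    congr 2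
    push_cast
    ring
  | pred i ih =>
    have e : z + (-(i : ℤ) : ℤ) * w = z + (-(i : ℤ) - 1 : ℤ) * w + w := by push_cast; ring
    rw [e, H] at ih
    have h1 : f (z + (-(i : ℤ) - 1 : ℤ) * w) =
        cexp (-(h * (c * (z + (-(i : ℤ) - 1 : ℤ) * w) + w * c / 2))) *
          (cexp (h * (c * (z + (-(i : ℤ) - 1 : ℤ) * w) + w * c / 2)) *
            f (z + (-(i : ℤ) - 1 : ℤ) * w)) := by
      rw [← mul_assoc, ← Complex.exp_add, neg_add_cancel, Complex.exp_zero, one_mul]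
    rw [h1, ih, ← mul_assoc, ← Complex.exp_add]
    congr 2
    push_cast
    ring

/-- The sign. -/
private theorem Sf_add_sign (k : ℤ) :
    cexp (-(Real.pi * k * I)) = 1 ∨ cexp (-(Real.pi * k * I)) = -1 := by
  rcases Int.even_or_odd' k with ⟨j, rfl | rfl⟩
  · left
    rw [Complex.exp_eq_one_iff]
    exact ⟨-j, by push_cast; ring⟩
  · right
    have e : -((Real.pi : ℂ) * ((2 * j + 1 : ℤ) : ℂ) * I) =
        ((-j - 1 : ℤ) : ℂ) * (2 * Real.pi * I) + Real.pi * I := by push_cast; ring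
    rw [e, Complex.exp_add, Complex.exp_int_mul_two_pi_mul_I, Complex.exp_pi_mul_I, one_mul]

/-- TA-Ea4. Induction on `|m|`, `|n|`; the sign is `(-1)^{mn}`. -/
theorem Sf_add {τ : ℂ} (hτ : 0 < τ.im) (m n : ℤ) : ∃ χ : ℂ, (χ = 1 ∨ χ = -1) ∧ ∀ z : ℂ,
    Sf τ (z + (m + n * τ)) = χ * cexp (hc τ * ((starRingEnd ℂ) (m + n * τ) * z +
      (m + n * τ) * (starRingEnd ℂ) (m + n * τ) / 2)) * Sf τ z := by
  refine ⟨cexp (-(Real.pi * (m * n : ℤ) * I)), Sf_add_sign (m * n), fun z => ?_⟩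
  have h1 : Sf τ (z + m * 1) =
      cexp (hc τ * (m * 1 * z + m ^ 2 * 1 * 1 / 2)) * Sf τ z :=
    Sf_add_iter (fun z => by rw [Sf_add_one, one_mul, one_mul]) m z
  have h2 : Sf τ (z + m * 1 + n * τ) =
      cexp (hc τ * (n * (starRingEnd ℂ) τ * (z + m * 1) + n ^ 2 * τ * (starRingEnd ℂ) τ / 2)) *
        Sf τ (z + m * 1) :=
    Sf_add_iter (fun z => Sf_add_tau hτ z) n (z + m * 1)
  have e : z + (m + n * τ) = z + m * 1 + n * τ := by ring
  have hh : (hc τ : ℂ) * τ.im = Real.pi := by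
    have : hc τ * τ.im = Real.pi := div_mul_cancel₀ _ hτ.ne'
    exact_mod_cast this
  have hs : (starRingEnd ℂ) τ = τ - 2 * τ.im * I := by
    apply Complex.ext <;> simp <;> ring
  rw [e, h2, h1, ← mul_assoc, ← Complex.exp_add, ← Complex.exp_add]
  congr 2
  simp only [map_add, map_mul, map_intCast]
  rw [hs]
  push_cast
  linear_combination (-(m : ℂ) * n * I) * hh

private theorem Sf_growth_red {τ : ℂ} (hτ : 0 < τ.im) (z : ℂ) :
    ∃ m n : ℤ, ‖z - (m + n * τ)‖ ≤ 1 + ‖τ‖ := by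
  set t : ℝ := z.im / τ.im with ht
  set s : ℝ := z.re - t * τ.re with hs
  refine ⟨⌊s⌋, ⌊t⌋, ?_⟩
  have h1 : z - ((⌊s⌋ : ℂ) + (⌊t⌋ : ℂ) * τ) = ((Int.fract s : ℝ) : ℂ) + ((Int.fract t : ℝ) : ℂ) * τ := by
    have hz : z = (s : ℂ) + (t : ℂ) * τ := by
      apply Complex.ext
      · simp [hs]
      · simp [ht]
        field_simp
    have e1 : (s : ℂ) = (⌊s⌋ : ℂ) + ((Int.fract s : ℝ) : ℂ) := by
      have := Int.floor_add_fract s
      exact_mod_cast this.symm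
    have e2 : (t : ℂ) = (⌊t⌋ : ℂ) + ((Int.fract t : ℝ) : ℂ) := by
      have := Int.floor_add_fract t
      exact_mod_cast this.symm
    rw [hz]
    linear_combination e1 + e2 * τ
  rw [h1]
  refine (norm_add_le _ _).trans (add_le_add ?_ ?_)
  · rw [Complex.norm_real, Real.norm_eq_abs, abs_of_nonneg (Int.fract_nonneg s)]
    exact (Int.fract_lt_one s).le
  · rw [norm_mul, Complex.norm_real, Real.norm_eq_abs, abs_of_nonneg (Int.fract_nonneg t)]
    exact mul_le_of_le_one_left (norm_nonneg _) (Int.fract_lt_one t).le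

/-- TA-Ea5. The function `‖Sf τ z‖ exp(-h |z|²/2)` is periodic, so it is bounded (reduce `z` to the
compact parallelogram by `m`, `n` = floors of the real coordinates). -/
theorem Sf_growth {τ : ℂ} (hτ : 0 < τ.im) :
    ∃ C : ℝ, 1 ≤ C ∧ ∀ z : ℂ, ‖Sf τ z‖ ≤ C * Real.exp (hc τ * ‖z‖ ^ 2 / 2) := by
  obtain ⟨C, hC⟩ := (isCompact_closedBall (0 : ℂ) (1 + ‖τ‖)).exists_bound_of_continuousOn
    (Sf_differentiable hτ).continuous.continuousOn
  refine ⟨max 1 C, le_max_left _ _, fun z => ?_⟩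
  obtain ⟨m, n, hw⟩ := Sf_growth_red hτ z
  obtain ⟨χ, hχ, H⟩ := Sf_add hτ m n
  set ω : ℂ := m + n * τ with hω
  set w : ℂ := z - ω with hwdef
  have hz : z = w + ω := by rw [hwdef]; ring
  have hχ1 : ‖χ‖ = 1 := by
    rcases hχ with h | h <;> simp [h]
  have hh : 0 < hc τ := div_pos Real.pi_pos hτ
  have h2 : ‖Sf τ w‖ ≤ max 1 C := by
    refine le_trans (hC w ?_) (le_max_right _ _)
    rw [mem_closedBall_zero_iff]
    exact hw
  have h3 : hc τ * ((starRingEnd ℂ) ω * w + ω * (starRingEnd ℂ) ω / 2).re =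
      hc τ * ‖w + ω‖ ^ 2 / 2 - hc τ * ‖w‖ ^ 2 / 2 := by
    rw [← Complex.normSq_eq_norm_sq, ← Complex.normSq_eq_norm_sq, Complex.normSq_apply,
      Complex.normSq_apply]
    simp only [add_re, mul_re, conj_re, conj_im, add_im, Complex.mul_conj,
      Complex.div_ofNat_re, Complex.ofReal_re, Complex.normSq_apply]
    ring
  rw [hz, H w, norm_mul, norm_mul, hχ1, one_mul, Complex.norm_exp, Complex.re_ofReal_mul, h3]
  have h4 : Real.exp (hc τ * ‖w + ω‖ ^ 2 / 2 - hc τ * ‖w‖ ^ 2 / 2) ≤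
      Real.exp (hc τ * ‖w + ω‖ ^ 2 / 2) := by
    apply Real.exp_le_exp.2
    have : 0 ≤ hc τ * ‖w‖ ^ 2 / 2 := by positivity
    linarith
  rw [mul_comm]
  exact mul_le_mul h2 h4 (Real.exp_pos _).le (le_trans zero_le_one (le_max_left _ _))

/-- TA-Ea6. `θ(iz, i) = exp(π z²) θ(z, i)` by the functional equation at `τ = i`, and evenness. -/
theorem Sf_mul_I (z : ℂ) : Sf I (I * z) = Sf I z := by
  have hI : (I : ℂ) ^ 2 = -1 := I_sq
  have hh : (hc I : ℂ) = Real.pi := by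
    rw [hc, I_im, div_one]
  have h1 := jacobiTheta₂_functional_equation z I
  have e1 : -I * I = 1 := by rw [neg_mul, I_mul_I, neg_neg]
  have e2 : -(Real.pi : ℂ) * I * z ^ 2 / I = -(Real.pi * z ^ 2) := by
    rw [div_eq_iff I_ne_zero]
    ring
  have e3 : z / I = -(I * z) := by
    rw [div_eq_iff I_ne_zero]
    linear_combination z * hI
  have e4 : (-1 : ℂ) / I = I := by
    rw [div_eq_iff I_ne_zero]
    linear_combination -hI
  rw [e1, Complex.one_cpow, div_one, one_mul, e2, e3, e4, jacobiTheta₂_neg_left] at h1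
  unfold Sf
  rw [h1, hh]
  have h2 : cexp (Real.pi * (I * z) ^ 2 / 2) =
      cexp (-(Real.pi * z ^ 2)) * cexp (Real.pi * z ^ 2 / 2) := by
    rw [← Complex.exp_add]
    congr 1
    linear_combination ((Real.pi : ℂ) * z ^ 2 / 2) * hI
  rw [h2]
  ring

private theorem Sf_rho_sym_shift (z τ : ℂ) :
    jacobiTheta₂ z (τ + 1) = jacobiTheta₂ (z + 1 / 2) τ := by
  refine tsum_congr (fun n => ?_)
  simp only [jacobiTheta₂_term]
  obtain ⟨k, hk⟩ := Int.even_mul_pred_self n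
  have hk' : (n : ℂ) * ((n : ℂ) - 1) = 2 * (k : ℂ) := by
    have : ((n * (n - 1) : ℤ) : ℂ) = ((k + k : ℤ) : ℂ) := by rw [hk]
    push_cast at this
    rw [this]; ring
  have h1 : 2 * (Real.pi : ℂ) * I * n * z + Real.pi * I * n ^ 2 * (τ + 1) =
      (2 * Real.pi * I * n * (z + 1 / 2) + Real.pi * I * n ^ 2 * τ) +
        k * (2 * Real.pi * I) := by
    linear_combination (Real.pi : ℂ) * I * hk'
  rw [h1, Complex.exp_add, Complex.exp_int_mul_two_pi_mul_I, mul_one]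

/-- TA-Ea7. `jacobiTheta₂ z (τ+1) = jacobiTheta₂ (z+1/2) τ`, the functional equation at `τ = ρ`,
`-1/ρ = ρ+1`; the quadratic exponents cancel:
`h/2 - πi/ρ - h/(2ρ²) = 0` for `h = 2π/√3`. -/
theorem Sf_rho_sym : ∃ κ ν : ℂ, κ ≠ 0 ∧ ∀ z : ℂ,
    Sf rho z = κ * cexp (ν * z) * Sf rho (z / rho + 1 / 2) := by
  have him := rho_im
  have hs : (0 : ℝ) < Real.sqrt 3 := Real.sqrt_pos.2 (by norm_num)
  have h3 : Real.sqrt 3 * Real.sqrt 3 = 3 := Real.mul_self_sqrt (by norm_num)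
  have hs0 : ((Real.sqrt 3 : ℝ) : ℂ) ≠ 0 := by exact_mod_cast hs.ne'
  have h3' : ((Real.sqrt 3 : ℝ) : ℂ) * ((Real.sqrt 3 : ℝ) : ℂ) = 3 := by exact_mod_cast h3
  have hrho0 : rho ≠ 0 := by
    intro h
    rw [h, Complex.zero_im] at him
    linarith
  have hsq := rho_sq
  have hinv : (1 : ℂ) / rho = -1 - rho := by
    have h := neg_inv_rho
    linear_combination -h
  have hh : (hc rho : ℂ) = 2 * Real.pi / (Real.sqrt 3 : ℝ) := by
    rw [hc, him]
    push_cast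
    field_simp
  have hrho : rho = -1 / 2 + ((Real.sqrt 3 : ℝ) : ℂ) / 2 * I := by
    rw [rho]; push_cast; ring
  have hcoef : (hc rho : ℂ) / 2 - Real.pi * I * (1 / rho) - hc rho / 2 * (1 / rho) ^ 2 = 0 := by
    have e1 : ((1 : ℂ) / rho) ^ 2 = rho := by
      rw [hinv]
      linear_combination hsq
    rw [e1, hinv, hh]
    field_simp
    rw [hrho]
    have hI : I ^ 2 = -1 := I_sq
    linear_combination ((Real.pi : ℂ) / 2 * I ^ 2) * h3' + 3 * (Real.pi : ℂ) / 2 * hI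
  refine ⟨1 / (-I * rho) ^ (1 / 2 : ℂ) * cexp (-(hc rho) / 8), -(hc rho) / 2 * (1 / rho), ?_,
    fun z => ?_⟩
  · refine mul_ne_zero (one_div_ne_zero ?_) (Complex.exp_ne_zero _)
    rw [Ne, Complex.cpow_eq_zero_iff]
    intro h
    exact mul_ne_zero (neg_ne_zero.2 I_ne_zero) hrho0 h.1
  · unfold Sf
    rw [jacobiTheta₂_functional_equation z rho, neg_inv_rho, Sf_rho_sym_shift]
    have e2 : cexp (-(Real.pi : ℂ) * I * z ^ 2 / rho) * cexp (hc rho * z ^ 2 / 2) =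
        cexp (-(hc rho) / 8) * cexp (-(hc rho) / 2 * (1 / rho) * z) *
          cexp (hc rho * (z / rho + 1 / 2) ^ 2 / 2) := by
      rw [← Complex.exp_add, ← Complex.exp_add, ← Complex.exp_add]
      congr 1
      have e3 : z / rho = z * (1 / rho) := by ring
      have e4 : -(Real.pi : ℂ) * I * z ^ 2 / rho = -(Real.pi : ℂ) * I * z ^ 2 * (1 / rho) := by ring
      rw [e3, e4]
      linear_combination z ^ 2 * hcoef
    linear_combination (1 / (-I * rho) ^ (1 / 2 : ℂ) * jacobiTheta₂ (z / rho + 1 / 2) rho /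
      jacobiTheta₂ 0 rho) * e2

end Pool.Agent.Helper49.TA
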