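import Mathlib
import Pool.Agent.Helper49.TA.Ea

/-!
# Project TA, block E, part b: addition formula and differential equation
-/

set_option autoImplicit false

open Complex

namespace Pool.Agent.Helper49.TA

private theorem theta_mul_theta_even (z t τ : ℂ) (a b : ℤ) :
    jacobiTheta₂_term (a + b) (z + t) τ * jacobiTheta₂_term (a - b) (z - t) τ =
      jacobiTheta₂_term a (2 * z) (2 * τ) * jacobiTheta₂_term b (2 * t) (2 * τ) := by
  unfold jacobiTheta₂_term
  rw [← Complex.exp_add, ← Complex.exp_add]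
  congr 1
  push_cast
  ring

private theorem theta_mul_theta_odd (z t τ : ℂ) (a b : ℤ) :
    jacobiTheta₂_term (a + b + 1) (z + t) τ * jacobiTheta₂_term (a - b) (z - t) τ =
      (cexp (2 * Real.pi * I * z + Real.pi * I * τ / 2) *
        jacobiTheta₂_term a (2 * z + τ) (2 * τ)) *
      (cexp (2 * Real.pi * I * t + Real.pi * I * τ / 2) *
        jacobiTheta₂_term b (2 * t + τ) (2 * τ)) := by
  unfold jacobiTheta₂_term
  rw [← Complex.exp_add, ← Complex.exp_add, ← Complex.exp_add, ← Complex.exp_add]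
  congr 1
  push_cast
  ring

private def theta_mul_theta_f (x : (ℤ × ℤ) ⊕ (ℤ × ℤ)) : ℤ × ℤ :=
  Sum.elim (fun p => (p.1 + p.2, p.1 - p.2)) (fun p => (p.1 + p.2 + 1, p.1 - p.2)) x

private theorem theta_mul_theta_bij : Function.Bijective theta_mul_theta_f := by
  constructor
  · rintro (⟨a, b⟩ | ⟨a, b⟩) (⟨c, d⟩ | ⟨c, d⟩) h
    · simp only [theta_mul_theta_f, Sum.elim_inl, Prod.mk.injEq] at h
      rw [show a = c by omega, show b = d by omega]
    · simp only [theta_mul_theta_f, Sum.elim_inl, Sum.elim_inr, Prod.mk.injEq] at h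
      omega
    · simp only [theta_mul_theta_f, Sum.elim_inl, Sum.elim_inr, Prod.mk.injEq] at h
      omega
    · simp only [theta_mul_theta_f, Sum.elim_inr, Prod.mk.injEq] at h
      rw [show a = c by omega, show b = d by omega]
  · rintro ⟨m, n⟩
    rcases Int.even_or_odd' (m + n) with ⟨k, hk | hk⟩
    · refine ⟨Sum.inl (k, m - k), ?_⟩
      simp only [theta_mul_theta_f, Sum.elim_inl, Prod.mk.injEq]
      omega
    · refine ⟨Sum.inr (k, m - k - 1), ?_⟩
      simp only [theta_mul_theta_f, Sum.elim_inr, Prod.mk.injEq]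
      omega

private theorem theta_mul_theta_gen {f g : ℤ → ℂ} {a b : ℂ} (hf : HasSum f a)
    (hg : HasSum g b) : HasSum (fun p : ℤ × ℤ => f p.1 * g p.2) (a * b) :=
  hf.mul hg (summable_mul_of_summable_norm hf.summable.norm hg.summable.norm)

private theorem theta_mul_theta_mul {τ τ' : ℂ} (hτ : 0 < τ.im) (hτ' : 0 < τ'.im) (x y : ℂ) :
    HasSum (fun p : ℤ × ℤ => jacobiTheta₂_term p.1 x τ * jacobiTheta₂_term p.2 y τ')
      (jacobiTheta₂ x τ * jacobiTheta₂ y τ') :=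
  theta_mul_theta_gen (f := fun n => jacobiTheta₂_term n x τ)
    (g := fun n => jacobiTheta₂_term n y τ') (hasSum_jacobiTheta₂_term x hτ)
    (hasSum_jacobiTheta₂_term y hτ')

/-- TA-Eb1. `θ(z+t) θ(z-t) = ∑_{m,n} exp(2πi(m(z+t)+n(z-t)) + πiτ(m²+n²))`; put `k = m+n`, `l = m-n`
(same parity): `A(z) = ∑_{k even} exp(2πikz + πiτk²/2) = jacobiTheta₂ (2z) (2τ)`,
`B(z) = ∑_{k odd} ... = exp(2πiz + πiτ/2) jacobiTheta₂ (2z+τ) (2τ)`. -/
theorem theta_mul_theta {τ : ℂ} (hτ : 0 < τ.im) (z t : ℂ) :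
    jacobiTheta₂ (z + t) τ * jacobiTheta₂ (z - t) τ =
      jacobiTheta₂ (2 * z) (2 * τ) * jacobiTheta₂ (2 * t) (2 * τ) +
      (cexp (2 * Real.pi * I * z + Real.pi * I * τ / 2) * jacobiTheta₂ (2 * z + τ) (2 * τ)) *
      (cexp (2 * Real.pi * I * t + Real.pi * I * τ / 2) * jacobiTheta₂ (2 * t + τ) (2 * τ)) := by
  have h2 : 0 < (2 * τ).im := by
    have : (2 * τ).im = 2 * τ.im := by simp
    rw [this]
    linarith
  have hL := theta_mul_theta_mul hτ hτ (z + t) (z - t)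
  have hL' := (Equiv.ofBijective _ theta_mul_theta_bij).hasSum_iff.2 hL
  have hE := theta_mul_theta_mul h2 h2 (2 * z) (2 * t)
  have hO := (theta_mul_theta_mul h2 h2 (2 * z + τ) (2 * t + τ)).mul_left
    (cexp (2 * Real.pi * I * z + Real.pi * I * τ / 2) *
      cexp (2 * Real.pi * I * t + Real.pi * I * τ / 2))
  generalize hF : (fun p : ℤ × ℤ => jacobiTheta₂_term p.1 (z + t) τ *
    jacobiTheta₂_term p.2 (z - t) τ) = F at hL hL'
  have hF' : ∀ m n : ℤ, F (m, n) = jacobiTheta₂_term m (z + t) τ *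
    jacobiTheta₂_term n (z - t) τ := fun m n => by rw [← hF]
  have e1 : (F ∘ (Equiv.ofBijective _ theta_mul_theta_bij)) ∘ Sum.inl = fun p : ℤ × ℤ =>
      jacobiTheta₂_term p.1 (2 * z) (2 * τ) * jacobiTheta₂_term p.2 (2 * t) (2 * τ) := by
    funext p
    exact (hF' _ _).trans (theta_mul_theta_even z t τ p.1 p.2)
  have e2 : (F ∘ (Equiv.ofBijective _ theta_mul_theta_bij)) ∘ Sum.inr = fun p : ℤ × ℤ =>
      cexp (2 * Real.pi * I * z + Real.pi * I * τ / 2) *
        cexp (2 * Real.pi * I * t + Real.pi * I * τ / 2) *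
      (jacobiTheta₂_term p.1 (2 * z + τ) (2 * τ) *
        jacobiTheta₂_term p.2 (2 * t + τ) (2 * τ)) := by
    funext p
    refine (hF' _ _).trans ((theta_mul_theta_odd z t τ p.1 p.2).trans ?_)
    ring
  rw [← e1] at hE
  rw [← e2] at hO
  have hS := HasSum.sum hE hO
  rw [hL'.unique hS]
  ring

/-- TA-Eb2. From `theta_mul_theta`: `S(z+t)S(z-t) = a(z)a(t) + b(z)b(t)` with `a, b` even entire
(`a = jacobiTheta₂ (2z) (2τ) exp(hz²)/θ(0)`, `b` similarly; `b` is even because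
`B(-z) = B(z)` by `jacobiTheta₂_add_left'` for `2τ` and `jacobiTheta₂_neg_left`), `a(0)²+b(0)² = 1`;
`c(z) = a(0) b(z) - b(0) a(z)`. -/
theorem Sf_addition {τ : ℂ} (hτ : 0 < τ.im) (h0 : jacobiTheta₂ 0 τ ≠ 0) :
    ∃ c : ℂ → ℂ, Differentiable ℂ c ∧ (∀ z, c (-z) = c z) ∧ c 0 = 0 ∧
      ∀ z t, Sf τ (z + t) * Sf τ (z - t) = Sf τ z ^ 2 * Sf τ t ^ 2 + c z * c t := by
  have h2 : 0 < (2 * τ).im := by
    have : (2 * τ).im = 2 * τ.im := by simp
    rw [this]
    linarith
  obtain ⟨a, ha⟩ : ∃ a : ℂ → ℂ, a = fun z => jacobiTheta₂ (2 * z) (2 * τ) *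
    cexp (hc τ * z ^ 2) / jacobiTheta₂ 0 τ := ⟨_, rfl⟩
  obtain ⟨b, hb⟩ : ∃ b : ℂ → ℂ, b = fun z => (cexp (2 * Real.pi * I * z + Real.pi * I * τ / 2) *
    jacobiTheta₂ (2 * z + τ) (2 * τ)) * cexp (hc τ * z ^ 2) / jacobiTheta₂ 0 τ := ⟨_, rfl⟩
  have hda : Differentiable ℂ a := by
    rw [ha]
    intro z
    have h := (differentiableAt_jacobiTheta₂_fst (2 * z) h2)
    have h' : DifferentiableAt ℂ (fun z : ℂ => jacobiTheta₂ (2 * z) (2 * τ)) z :=
      DifferentiableAt.comp (g := fun w => jacobiTheta₂ w (2 * τ)) (f := fun z : ℂ => 2 * z) z h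
        (by fun_prop)
    have h'' : DifferentiableAt ℂ (fun z : ℂ => cexp (hc τ * z ^ 2)) z := by fun_prop
    exact (h'.mul h'').div_const _
  have hdb : Differentiable ℂ b := by
    rw [hb]
    intro z
    have h := (differentiableAt_jacobiTheta₂_fst (2 * z + τ) h2)
    have h' : DifferentiableAt ℂ (fun z : ℂ => jacobiTheta₂ (2 * z + τ) (2 * τ)) z :=
      DifferentiableAt.comp (g := fun w => jacobiTheta₂ w (2 * τ)) (f := fun z : ℂ => 2 * z + τ) z h
        (by fun_prop)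
    have h'' : DifferentiableAt ℂ (fun z : ℂ => cexp (2 * Real.pi * I * z + Real.pi * I * τ / 2))
        z := by fun_prop
    have h3 : DifferentiableAt ℂ (fun z : ℂ => cexp (hc τ * z ^ 2)) z := by fun_prop
    exact ((h''.mul h').mul h3).div_const _
  have hae : ∀ z, a (-z) = a z := by
    intro z
    rw [ha]
    simp only
    rw [show (2 : ℂ) * -z = -(2 * z) by ring, jacobiTheta₂_neg_left, neg_sq]
  have hbe : ∀ z, b (-z) = b z := by
    intro z
    rw [hb]
    simp only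
    have h3 := jacobiTheta₂_add_left' (2 * z - τ) (2 * τ)
    rw [show (2 * z - τ + 2 * τ : ℂ) = 2 * z + τ by ring] at h3
    rw [h3, show (2 * -z + τ : ℂ) = -(2 * z - τ) by ring, jacobiTheta₂_neg_left, neg_sq,
      ← mul_assoc, ← Complex.exp_add]
    congr 4
    ring
  have hS : ∀ z t, Sf τ (z + t) * Sf τ (z - t) = a z * a t + b z * b t := by
    intro z t
    have h4 := theta_mul_theta hτ z t
    have h5 : cexp (hc τ * (z + t) ^ 2 / 2) * cexp (hc τ * (z - t) ^ 2 / 2) =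
        cexp (hc τ * z ^ 2) * cexp (hc τ * t ^ 2) := by
      rw [← Complex.exp_add, ← Complex.exp_add]
      congr 1
      ring
    rw [ha, hb]
    simp only [Sf]
    have h6 : jacobiTheta₂ (z + t) τ * cexp (hc τ * (z + t) ^ 2 / 2) / jacobiTheta₂ 0 τ *
        (jacobiTheta₂ (z - t) τ * cexp (hc τ * (z - t) ^ 2 / 2) / jacobiTheta₂ 0 τ) =
        (jacobiTheta₂ (z + t) τ * jacobiTheta₂ (z - t) τ) *
        (cexp (hc τ * (z + t) ^ 2 / 2) * cexp (hc τ * (z - t) ^ 2 / 2)) /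
        jacobiTheta₂ 0 τ ^ 2 := by
      ring
    rw [h6, h4, h5]
    ring
  have hS0 : Sf τ 0 = 1 := Sf_zero h0
  have h7 : ∀ z, Sf τ z ^ 2 = a z * a 0 + b z * b 0 := by
    intro z
    have := hS z 0
    rw [add_zero, sub_zero] at this
    rw [← this, sq]
  have h8 : a 0 ^ 2 + b 0 ^ 2 = 1 := by
    have := h7 0
    rw [hS0] at this
    rw [sq, sq, ← this, one_pow]
  refine ⟨fun z => a 0 * b z - b 0 * a z, ?_, ?_, ?_, ?_⟩
  · exact (hdb.const_mul _).sub (hda.const_mul _)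
  · intro z
    simp only [hae, hbe]
  · simp only
    ring
  · intro z t
    simp only
    rw [hS, h7, h7]
    linear_combination (-(a z * a t) - b z * b t) * h8

/-- the function `D = S'² - S S''` (so `D / S² = P = -(log S)''`) -/
noncomputable def Dv (S : ℂ → ℂ) (z : ℂ) : ℂ := iteratedDeriv 1 S z ^ 2 - S z * iteratedDeriv 2 S z

/-- the function `S S'''' - 4 S' S''' + 3 S''²` (`= S² (6P² - P'')`) -/
noncomputable def Qv (S : ℂ → ℂ) (z : ℂ) : ℂ :=
  S z * iteratedDeriv 4 S z - 4 * iteratedDeriv 1 S z * iteratedDeriv 3 S z +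
    3 * iteratedDeriv 2 S z ^ 2

private theorem Sf_nonconst_exp {S : ℂ → ℂ} (hd : Differentiable ℂ S) (h1 : S 0 = 1)
    (he : ∀ z, S (-z) = S z) (P₀ : ℂ) (h : ∀ z, Dv S z = P₀ * S z ^ 2) :
    ∀ z, S z * cexp (P₀ * z ^ 2 / 2) = 1 := by
  have hd1 : Differentiable ℂ (deriv S) := by
    have h2 := (hd.contDiff (n := 2)).differentiable_iteratedDeriv 1 (by norm_num)
    rwa [iteratedDeriv_one] at h2
  have hD : ∀ z, deriv S z ^ 2 - S z * deriv (deriv S) z = P₀ * S z ^ 2 := by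
    intro z
    have h2 := h z
    unfold Dv at h2
    rw [iteratedDeriv_one, iteratedDeriv_succ, iteratedDeriv_one] at h2
    exact h2
  have h0 : deriv S 0 = 0 := by
    have h2 : (fun z => S (-z)) = S := funext he
    have h3 : deriv (fun z => S (-z)) 0 = -deriv S (-0) := deriv_comp_neg S 0
    rw [h2, neg_zero] at h3
    exact self_eq_neg.1 h3
  -- a ball without zeros
  obtain ⟨r, hr, hball⟩ : ∃ r > 0, ∀ z ∈ Metric.ball (0 : ℂ) r, S z ≠ 0 := by
    have h2 : ∀ᶠ z in nhds (0 : ℂ), S z ≠ 0 :=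
      hd.continuous.continuousAt.eventually_ne (by rw [h1]; exact one_ne_zero)
    exact Metric.eventually_nhds_iff_ball.1 h2
  have hopen : IsOpen (Metric.ball (0 : ℂ) r) := Metric.isOpen_ball
  have hpre : IsPreconnected (Metric.ball (0 : ℂ) r) := (convex_ball _ _).isPreconnected
  have hmem : (0 : ℂ) ∈ Metric.ball (0 : ℂ) r := Metric.mem_ball_self hr
  -- the logarithmic derivative
  have hlog : ∀ z ∈ Metric.ball (0 : ℂ) r, deriv S z + P₀ * z * S z = 0 := by
    have hder : ∀ z ∈ Metric.ball (0 : ℂ) r,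
        HasDerivAt (fun z => deriv S z / S z + P₀ * z) 0 z := by
      intro z hz
      have h2 := ((hd1 z).hasDerivAt.div (hd z).hasDerivAt (hball z hz)).add
        ((hasDerivAt_id z).const_mul P₀)
      refine HasDerivAt.congr_deriv (f := fun z => deriv S z / S z + P₀ * z) h2 ?_
      have h3 := hD z
      have h4 := hball z hz
      have h5 : (deriv (deriv S) z * S z - deriv S z * deriv S z) / S z ^ 2 = -P₀ := by
        rw [div_eq_iff (pow_ne_zero 2 h4)]
        linear_combination -h3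
      rw [h5]
      ring
    obtain ⟨c, hc⟩ := hopen.exists_is_const_of_deriv_eq_zero hpre
      (fun z hz => (hder z hz).differentiableAt.differentiableWithinAt)
      (fun z hz => (hder z hz).deriv)
    intro z hz
    have h2 := hc z hz
    have h3 := hc 0 hmem
    simp only [h0, zero_div, mul_zero, add_zero] at h3
    rw [← h3] at h2
    have h4 := hball z hz
    field_simp at h2
    linear_combination h2
  have hT : Differentiable ℂ fun z => S z * cexp (P₀ * z ^ 2 / 2) := by fun_prop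
  have hcst : ∀ z ∈ Metric.ball (0 : ℂ) r, S z * cexp (P₀ * z ^ 2 / 2) = 1 := by
    have hder : ∀ z ∈ Metric.ball (0 : ℂ) r,
        HasDerivAt (fun z => S z * cexp (P₀ * z ^ 2 / 2)) 0 z := by
      intro z hz
      have h2 : HasDerivAt (fun z : ℂ => P₀ * z ^ 2 / 2) (P₀ * z) z := by
        have h3 := ((hasDerivAt_pow 2 z).const_mul P₀).div_const 2
        refine HasDerivAt.congr_deriv (f := fun z : ℂ => P₀ * z ^ 2 / 2) h3 ?_
        push_cast
        ring
      have h4 := (hd z).hasDerivAt.mul h2.cexp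
      refine HasDerivAt.congr_deriv (f := fun z => S z * cexp (P₀ * z ^ 2 / 2)) h4 ?_
      linear_combination (cexp (P₀ * z ^ 2 / 2)) * hlog z hz
    obtain ⟨c, hc⟩ := hopen.exists_is_const_of_deriv_eq_zero hpre
      (fun z hz => (hder z hz).differentiableAt.differentiableWithinAt)
      (fun z hz => (hder z hz).deriv)
    intro z hz
    have h3 := hc 0 hmem
    simp only [h1, ne_eq, OfNat.ofNat_ne_zero, not_false_eq_true, zero_pow, mul_zero, zero_div,
      Complex.exp_zero, mul_one] at h3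
    rw [hc z hz, ← h3]
  have hfin : (fun z => S z * cexp (P₀ * z ^ 2 / 2)) = fun _ => 1 :=
    AnalyticOnNhd.eq_of_eventuallyEq (𝕜 := ℂ) (fun z _ => hT.analyticAt z)
      (fun z _ => analyticAt_const) (z₀ := 0)
      (Filter.eventually_of_mem (hopen.mem_nhds hmem) hcst)
  exact fun z => congrFun hfin z

private theorem Sf_nonconst_lin {a b : ℂ} (h : ∀ z : ℂ, cexp (a * z + b) = 1) : a = 0 := by
  by_contra ha
  have h1 := h ((Real.pi * I - b) / a)
  rw [mul_div_cancel₀ _ ha, sub_add_cancel, Complex.exp_pi_mul_I] at h1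
  norm_num at h1

/-- TA-Eb3. If `D = P₀ S²` then `(S'/S)' = -P₀` near `0`, `S = exp(-P₀ z²/2)` near `0` (evenness),
hence everywhere; `Sf_add_one` and `Sf_add_tau` give `-P₀ = h` and `-P₀ τ = h conj τ`. -/
theorem Sf_nonconst {τ : ℂ} (hτ : 0 < τ.im) (h0 : jacobiTheta₂ 0 τ ≠ 0) (P₀ : ℂ) :
    ∃ z, Dv (Sf τ) z ≠ P₀ * Sf τ z ^ 2 := by
  by_contra hcon
  push Not at hcon
  have hS := Sf_nonconst_exp (Sf_differentiable hτ) (Sf_zero h0) (Sf_neg τ) P₀ hcon
  have hS' : ∀ z, Sf τ z = cexp (-(P₀ * z ^ 2 / 2)) := by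
    intro z
    rw [Complex.exp_neg, eq_inv_of_mul_eq_one_left (hS z)]
  have h1 : -P₀ - hc τ = 0 := by
    refine Sf_nonconst_lin (b := (-P₀ - hc τ) / 2) fun z => ?_
    have h2 := Sf_add_one τ z
    rw [hS', hS', ← Complex.exp_add] at h2
    have h3 : (-P₀ - hc τ) * z + (-P₀ - hc τ) / 2 =
        -(P₀ * (z + 1) ^ 2 / 2) - (hc τ * (z + 1 / 2) + -(P₀ * z ^ 2 / 2)) := by ring
    rw [h3, Complex.exp_sub, h2, div_self (Complex.exp_ne_zero _)]
  have h4 : -P₀ * τ - hc τ * (starRingEnd ℂ) τ = 0 := by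
    refine Sf_nonconst_lin (b := -P₀ * τ ^ 2 / 2 - hc τ * (τ * (starRingEnd ℂ) τ / 2)) fun z => ?_
    have h2 := Sf_add_tau hτ z
    rw [hS', hS', ← Complex.exp_add] at h2
    have h3 : (-P₀ * τ - hc τ * (starRingEnd ℂ) τ) * z +
        (-P₀ * τ ^ 2 / 2 - hc τ * (τ * (starRingEnd ℂ) τ / 2)) =
        -(P₀ * (z + τ) ^ 2 / 2) -
          (hc τ * ((starRingEnd ℂ) τ * z + τ * (starRingEnd ℂ) τ / 2) + -(P₀ * z ^ 2 / 2)) := by
      ring
    rw [h3, Complex.exp_sub, h2, div_self (Complex.exp_ne_zero _)]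
  have h5 : (hc τ : ℂ) * (τ - (starRingEnd ℂ) τ) = 0 := by
    linear_combination h4 - τ * h1
  have h6 : (hc τ : ℂ) ≠ 0 := by
    have : 0 < hc τ := div_pos Real.pi_pos hτ
    exact_mod_cast this.ne'
  have h7 : τ - (starRingEnd ℂ) τ = 0 := (mul_eq_zero.1 h5).resolve_left h6
  have h8 := congrArg Complex.im h7
  simp only [Complex.sub_im, Complex.conj_im, Complex.zero_im] at h8
  linarith

private theorem Sf_ode_it {f : ℂ → ℂ} (hf : Differentiable ℂ f) (k : ℕ) (t : ℂ) :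
    HasDerivAt (iteratedDeriv k f) (iteratedDeriv (k + 1) f t) t := by
  have h1 : ∀ k, Differentiable ℂ (iteratedDeriv k f) := by
    intro k
    induction k with
    | zero => rwa [iteratedDeriv_zero]
    | succ k ih =>
      rw [iteratedDeriv_succ]
      exact differentiableOn_univ.1 (ih.differentiableOn.deriv isOpen_univ)
  rw [iteratedDeriv_succ]
  exact (h1 k t).hasDerivAt

private theorem Sf_ode_lin {q c : ℂ → ℂ} (hq : Differentiable ℂ q) (hc : Differentiable ℂ c)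
    (a b : ℂ) (k : ℕ) : iteratedDeriv k (fun t => a * q t + b * c t) =
      fun t => a * iteratedDeriv k q t + b * iteratedDeriv k c t := by
  induction k with
  | zero => simp only [iteratedDeriv_zero]
  | succ k ih =>
    rw [iteratedDeriv_succ, ih]
    funext t
    exact (((Sf_ode_it hq k t).const_mul a).add ((Sf_ode_it hc k t).const_mul b)).deriv

private theorem Sf_ode_prod {S : ℂ → ℂ} (hS : Differentiable ℂ S) (z : ℂ) :
    iteratedDeriv 2 (fun t => S (z + t) * S (z - t)) 0 = -2 * Dv S z ∧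
      iteratedDeriv 4 (fun t => S (z + t) * S (z - t)) 0 = 2 * Qv S z := by
  obtain ⟨P, hPd⟩ : ∃ P : ℕ → ℕ → ℂ → ℂ, ∀ i j t,
      P i j t = iteratedDeriv i S (z + t) * iteratedDeriv j S (z - t) := ⟨_, fun _ _ _ => rfl⟩
  have hP : ∀ i j t, HasDerivAt (P i j) (P (i + 1) j t - P i (j + 1) t) t := by
    intro i j t
    have e : P i j = fun t => iteratedDeriv i S (z + t) * iteratedDeriv j S (z - t) :=
      funext fun t => hPd i j t
    rw [e, hPd, hPd]
    have h1 := ((Sf_ode_it hS i (z + t)).comp_const_add z t).mul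
      ((Sf_ode_it hS j (z - t)).comp_const_sub z t)
    refine h1.congr_deriv ?_
    ring
  have e0 : (fun t => S (z + t) * S (z - t)) = P 0 0 := by
    funext t
    rw [hPd, iteratedDeriv_zero]
  have e1 : iteratedDeriv 1 (P 0 0) = fun t => P 1 0 t - P 0 1 t := by
    rw [iteratedDeriv_one]
    exact funext fun t => (hP 0 0 t).deriv
  have e2 : iteratedDeriv 2 (P 0 0) = fun t => P 2 0 t - 2 * P 1 1 t + P 0 2 t := by
    rw [iteratedDeriv_succ, e1]
    funext t
    have h := ((hP 1 0 t).sub (hP 0 1 t)).deriv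
    refine h.trans ?_
    ring
  have e3 : iteratedDeriv 3 (P 0 0) =
      fun t => P 3 0 t - 3 * P 2 1 t + 3 * P 1 2 t - P 0 3 t := by
    rw [iteratedDeriv_succ, e2]
    funext t
    have h := (((hP 2 0 t).sub ((hP 1 1 t).const_mul 2)).add (hP 0 2 t)).deriv
    refine h.trans ?_
    ring
  have e4 : iteratedDeriv 4 (P 0 0) =
      fun t => P 4 0 t - 4 * P 3 1 t + 6 * P 2 2 t - 4 * P 1 3 t + P 0 4 t := by
    rw [iteratedDeriv_succ, e3]
    funext t
    have h := ((((hP 3 0 t).sub ((hP 2 1 t).const_mul 3)).add ((hP 1 2 t).const_mul 3)).sub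
      (hP 0 3 t)).deriv
    refine h.trans ?_
    ring
  rw [e0, e2, e4]
  simp only [hPd, add_zero, sub_zero, Dv, Qv, iteratedDeriv_zero]
  constructor <;> ring

/-- TA-Eb4. Second and fourth derivative in `t` at `0` of `Sf_addition`:
`-2 D(z) = S(z)² e₂ + c(z) c₂`, `2 Q(z) = S(z)² e₄ + c(z) c₄` with constants `e₂, e₄, c₂, c₄`;
`c₂ ≠ 0` by `Sf_nonconst`. -/
theorem Sf_ode {τ : ℂ} (hτ : 0 < τ.im) (h0 : jacobiTheta₂ 0 τ ≠ 0) :
    ∃ α β : ℂ, ∀ z, Qv (Sf τ) z = α * Dv (Sf τ) z + β * Sf τ z ^ 2 := by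
  obtain ⟨c, hc, -, -, hadd⟩ := Sf_addition hτ h0
  have hS := Sf_differentiable hτ
  have hq : Differentiable ℂ (fun t => Sf τ t ^ 2) := hS.pow 2
  have key : ∀ k z, iteratedDeriv k (fun t => Sf τ (z + t) * Sf τ (z - t)) 0 =
      Sf τ z ^ 2 * iteratedDeriv k (fun t => Sf τ t ^ 2) 0 + c z * iteratedDeriv k c 0 := by
    intro k z
    have h1 : (fun t => Sf τ (z + t) * Sf τ (z - t)) =
        fun t => Sf τ z ^ 2 * (fun t => Sf τ t ^ 2) t + c z * c t := funext fun t => hadd z t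
    rw [h1, Sf_ode_lin hq hc]
  have h2 : ∀ z, -2 * Dv (Sf τ) z =
      Sf τ z ^ 2 * iteratedDeriv 2 (fun t => Sf τ t ^ 2) 0 + c z * iteratedDeriv 2 c 0 := by
    intro z
    rw [← (Sf_ode_prod hS z).1, key]
  have h4 : ∀ z, 2 * Qv (Sf τ) z =
      Sf τ z ^ 2 * iteratedDeriv 4 (fun t => Sf τ t ^ 2) 0 + c z * iteratedDeriv 4 c 0 := by
    intro z
    rw [← (Sf_ode_prod hS z).2, key]
  generalize iteratedDeriv 2 (fun t => Sf τ t ^ 2) 0 = e₂ at h2
  generalize iteratedDeriv 4 (fun t => Sf τ t ^ 2) 0 = e₄ at h4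
  generalize iteratedDeriv 2 c 0 = c₂ at h2
  generalize iteratedDeriv 4 c 0 = c₄ at h4
  have hc2 : c₂ ≠ 0 := by
    rintro rfl
    obtain ⟨z, hz⟩ := Sf_nonconst hτ h0 (-e₂ / 2)
    apply hz
    have h5 := h2 z
    linear_combination (-1 / 2) * h5
  refine ⟨-c₄ / c₂, (e₄ - c₄ * e₂ / c₂) / 2, fun z => ?_⟩
  have h5 := h2 z
  have h6 := h4 z
  field_simp
  linear_combination c₂ * h6 - c₄ * h5

private theorem ode_I_iter (k : ℕ) (z : ℂ) :
    iteratedDeriv k (Sf I) z = I ^ k * iteratedDeriv k (Sf I) (I * z) := by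
  have hd : Differentiable ℂ (Sf I) := Sf_differentiable (by rw [I_im]; exact one_pos)
  have h1 := iteratedDeriv_comp_const_mul (n := k) (f := Sf I) hd.contDiff I
  have h2 : (fun x : ℂ => Sf I (I * x)) = Sf I := funext Sf_mul_I
  rw [h2] at h1
  exact congrFun h1 z

/-- Proof. From `S(iz) = S(z)` one gets `S⁽ᵏ⁾(z) = iᵏ S⁽ᵏ⁾(iz)`. Each term of `D` has total order
`2`, each term of `Q` total order `4`, so `D(z) = i² D(iz) = -D(iz)` and `Q(z) = i⁴ Q(iz) = Q(iz)`. -/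
private theorem ode_I_sym (z : ℂ) :
    Dv (Sf I) (I * z) = -Dv (Sf I) z ∧ Qv (Sf I) (I * z) = Qv (Sf I) z := by
  have hI : I ^ 2 = -1 := I_sq
  have hI4 : I ^ 4 = 1 := I_pow_four
  have e0 := Sf_mul_I z
  have e1 := ode_I_iter 1 z
  have e2 := ode_I_iter 2 z
  have e3 := ode_I_iter 3 z
  have e4 := ode_I_iter 4 z
  unfold Dv Qv
  rw [e0, e1, e2, e3, e4]
  constructor
  · linear_combination (iteratedDeriv 1 (Sf I) (I * z) ^ 2 -
      Sf I z * iteratedDeriv 2 (Sf I) (I * z)) * hI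
  · linear_combination (-(Sf I z * iteratedDeriv 4 (Sf I) (I * z)) +
      4 * iteratedDeriv 1 (Sf I) (I * z) * iteratedDeriv 3 (Sf I) (I * z) -
      3 * iteratedDeriv 2 (Sf I) (I * z) ^ 2) * hI4

/-- TA-Eb5. By `Sf_mul_I`: `D(iz) = -D(z)`, `Q(iz) = Q(z)` (`ode_I_sym`). Comparing
`Q = α D + β S²` (`Sf_ode`) at `z` and at `iz` gives `α D(z) = -α D(z)`, so `α D = 0` and
`Q = β S²`. -/
theorem ode_I : ∃ β : ℂ, ∀ z, Qv (Sf I) z = β * Sf I z ^ 2 := by
  obtain ⟨α, β, h⟩ := Sf_ode (τ := I) (by rw [I_im]; exact one_pos) theta_zero_I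
  refine ⟨β, fun z => ?_⟩
  have h1 := h z
  have h2 := h (I * z)
  rw [(ode_I_sym z).2, (ode_I_sym z).1, Sf_mul_I] at h2
  linear_combination (h1 + h2) / 2

/-- TA-Eb5. `D(0) = 0` (from `D(iz) = -D(z)`). -/
theorem Dv_I_zero : Dv (Sf I) 0 = 0 := by
  have h := (ode_I_sym 0).1
  rw [mul_zero] at h
  linear_combination h / 2

private theorem ode_rho_ne : rho ≠ 0 := by
  intro h
  have h1 := rho_sq
  rw [h] at h1
  norm_num at h1

private theorem ode_rho_tr {S : ℂ → ℂ} (hS : Differentiable ℂ S) {κ ν r : ℂ}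
    (h : ∀ z, S z = κ * cexp (ν * z) * S (r * z + 1 / 2)) (z : ℂ) :
    Dv S z = (κ * cexp (ν * z)) ^ 2 * (r ^ 2 * Dv S (r * z + 1 / 2)) ∧
      Qv S z = (κ * cexp (ν * z)) ^ 2 * (r ^ 4 * Qv S (r * z + 1 / 2)) := by
  obtain ⟨P, hPd⟩ : ∃ P : ℕ → ℂ → ℂ, ∀ i t,
      P i t = κ * cexp (ν * t) * iteratedDeriv i S (r * t + 1 / 2) := ⟨_, fun _ _ => rfl⟩
  have hP : ∀ i t, HasDerivAt (P i) (ν * P i t + r * P (i + 1) t) t := by
    intro i t
    have e : P i = fun t => κ * cexp (ν * t) * iteratedDeriv i S (r * t + 1 / 2) :=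
      funext fun t => hPd i t
    rw [e, hPd]
    have h1 : HasDerivAt (fun t : ℂ => κ * cexp (ν * t)) (κ * (cexp (ν * t) * ν)) t := by
      have h2 := (((hasDerivAt_id t).const_mul ν).cexp).const_mul κ
      refine h2.congr_deriv ?_
      simp only [id, mul_one]
    have h3 : HasDerivAt (fun t : ℂ => r * t + 1 / 2) r t := by
      have h4 := ((hasDerivAt_id t).const_mul r).add_const (1 / 2 : ℂ)
      refine h4.congr_deriv ?_
      rw [mul_one]
    have h5 : HasDerivAt (fun t : ℂ => iteratedDeriv i S (r * t + 1 / 2))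
        (iteratedDeriv (i + 1) S (r * t + 1 / 2) * r) t :=
      HasDerivAt.comp (h₂ := iteratedDeriv i S) (h := fun t : ℂ => r * t + 1 / 2) t
        (Sf_ode_it hS i (r * t + 1 / 2)) h3
    refine (h1.mul h5).congr_deriv ?_
    ring
  have e0 : S = P 0 := by
    funext t
    rw [hPd, iteratedDeriv_zero, ← h]
  have e1 : iteratedDeriv 1 S = fun t => ν * P 0 t + r * P 1 t := by
    rw [iteratedDeriv_one]
    funext t
    conv_lhs => rw [e0]
    exact (hP 0 t).deriv
  have e2 : iteratedDeriv 2 S = fun t => ν ^ 2 * P 0 t + 2 * ν * r * P 1 t + r ^ 2 * P 2 t := by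
    rw [iteratedDeriv_succ, e1]
    funext t
    have h := (((hP 0 t).const_mul ν).add ((hP 1 t).const_mul r)).deriv
    refine h.trans ?_
    ring
  have e3 : iteratedDeriv 3 S = fun t => ν ^ 3 * P 0 t + 3 * ν ^ 2 * r * P 1 t +
      3 * ν * r ^ 2 * P 2 t + r ^ 3 * P 3 t := by
    rw [iteratedDeriv_succ, e2]
    funext t
    have h := ((((hP 0 t).const_mul (ν ^ 2)).add ((hP 1 t).const_mul (2 * ν * r))).add
      ((hP 2 t).const_mul (r ^ 2))).deriv
    refine h.trans ?_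
    ring
  have e4 : iteratedDeriv 4 S = fun t => ν ^ 4 * P 0 t + 4 * ν ^ 3 * r * P 1 t +
      6 * ν ^ 2 * r ^ 2 * P 2 t + 4 * ν * r ^ 3 * P 3 t + r ^ 4 * P 4 t := by
    rw [iteratedDeriv_succ, e3]
    funext t
    have h := (((((hP 0 t).const_mul (ν ^ 3)).add ((hP 1 t).const_mul (3 * ν ^ 2 * r))).add
      ((hP 2 t).const_mul (3 * ν * r ^ 2))).add ((hP 3 t).const_mul (r ^ 3))).deriv
    refine h.trans ?_
    ring
  have hz : S z = P 0 z := congrFun e0 z
  have hz0 : S (r * z + 1 / 2) = iteratedDeriv 0 S (r * z + 1 / 2) := by rw [iteratedDeriv_zero]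
  unfold Dv Qv
  rw [congrFun e1 z, congrFun e2 z, congrFun e3 z, congrFun e4 z, hz, hz0]
  simp only [hPd]
  constructor <;> ring

/-- TA-Eb6. By `Sf_rho_sym` with `z' = z/ρ + 1/2`: for `f = exp(linear) g` one has
`D_f = exp(2 linear) D_g`, `Q_f = exp(2 linear) Q_g`, so `D(z) = κ² e^{2νz} ρ^{-2} D(z')`,
`Q(z) = κ² e^{2νz} ρ^{-4} Q(z')`; with `Sf_ode`: `α = ρ² α`, `β = ρ β`, because `D`, `S²` are linearly
independent (`Sf_nonconst`). -/
theorem ode_rho : ∀ z, Qv (Sf rho) z = 0 := by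
  have him : 0 < rho.im := by
    rw [rho_im]
    positivity
  have hr0 := ode_rho_ne
  have hS := Sf_differentiable him
  obtain ⟨κ, ν, hκ, hsym⟩ := Sf_rho_sym
  obtain ⟨α, β, hQ⟩ := Sf_ode him theta_zero_rho
  have hsym' : ∀ z, Sf rho z = κ * cexp (ν * z) * Sf rho (rho⁻¹ * z + 1 / 2) := by
    intro z
    rw [hsym z]
    congr 3
    rw [div_eq_inv_mul]
  have h3 : rho ^ 3 = 1 := by
    linear_combination (rho - 1) * rho_sq
  have hr3 : rho⁻¹ ^ 3 = 1 := by
    rw [inv_pow, h3, inv_one]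
  have hr1 : rho⁻¹ ^ 2 = rho := by
    have h4 : rho⁻¹ ^ 2 * rho ^ 3 = rho := by
      field_simp
    rw [h3, mul_one] at h4
    exact h4
  -- the relation at `z' = ρ⁻¹ z + 1/2`
  have key : ∀ w, α * (rho⁻¹ ^ 4 - rho⁻¹ ^ 2) * Dv (Sf rho) w +
      β * (rho⁻¹ ^ 4 - 1) * Sf rho w ^ 2 = 0 := by
    intro w
    obtain ⟨z, rfl⟩ : ∃ z, w = rho⁻¹ * z + 1 / 2 :=
      ⟨rho * (w - 1 / 2), by field_simp; ring⟩
    obtain ⟨hD, hQ2⟩ := ode_rho_tr hS hsym' z
    have hne : (κ * cexp (ν * z)) ^ 2 ≠ 0 := pow_ne_zero 2 (mul_ne_zero hκ (Complex.exp_ne_zero _))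
    have h5 := hQ z
    rw [hQ2, hD, hsym' z, hQ (rho⁻¹ * z + 1 / 2)] at h5
    have h6 : (κ * cexp (ν * z)) ^ 2 * (α * (rho⁻¹ ^ 4 - rho⁻¹ ^ 2) *
        Dv (Sf rho) (rho⁻¹ * z + 1 / 2) +
        β * (rho⁻¹ ^ 4 - 1) * Sf rho (rho⁻¹ * z + 1 / 2) ^ 2) = 0 := by
      linear_combination h5
    exact (mul_eq_zero.1 h6).resolve_left hne
  have hr4 : rho⁻¹ ^ 4 = rho⁻¹ := by
    rw [pow_succ, hr3, one_mul]
  rw [hr4, hr1] at key
  have hα : α = 0 := by
    by_contra hα
    have hc : α * (rho⁻¹ - rho) ≠ 0 := by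
      refine mul_ne_zero hα fun h => ?_
      have h7 : rho ^ 2 = 1 := by
        have h8 : rho * (rho⁻¹ - rho) = 1 - rho ^ 2 := by
          field_simp
        rw [h, mul_zero] at h8
        linear_combination h8
      have h9 : rho = 1 := by
        rw [pow_succ, h7, one_mul] at h3
        exact h3
      have h10 := rho_sq
      rw [h9] at h10
      norm_num at h10
    obtain ⟨w, hw⟩ := Sf_nonconst him theta_zero_rho
      (-(β * (rho⁻¹ - 1)) / (α * (rho⁻¹ - rho)))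
    apply hw
    have h8 := key w
    rw [div_mul_eq_mul_div, eq_div_iff hc]
    linear_combination h8
  have hβ : β = 0 := by
    have h8 := key 0
    rw [hα, Sf_zero theta_zero_rho] at h8
    have h9 : β * (rho⁻¹ - 1) = 0 := by linear_combination h8
    refine (mul_eq_zero.1 h9).resolve_right fun h => ?_
    have h11 : rho = 1 := by
      have h12 : rho⁻¹ = 1 := by linear_combination h
      exact inv_eq_one.1 h12
    have h10 := rho_sq
    rw [h11] at h10
    norm_num at h10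
  intro z
  rw [hQ z, hα, hβ]
  ring

end Pool.Agent.Helper49.TA
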