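import Mathlib
import Pool.Agent.Helper49.TA.Eb

/-!
# Project TA, block E, part c: Hurwitz integrality; curve 1
-/

set_option autoImplicit false

open Complex

namespace Pool.Agent.Helper49.TA

private def hurwitz_of_ode_Q (μ : ℂ) (m : ℕ) (x : ℂ) : Prop := ∃ a : ℤ, x = μ ^ m * (a : ℂ)

private theorem hurwitz_of_ode_add {μ : ℂ} {m : ℕ} {x y : ℂ} (hx : hurwitz_of_ode_Q μ m x)
    (hy : hurwitz_of_ode_Q μ m y) : hurwitz_of_ode_Q μ m (x + y) := by
  obtain ⟨a, rfl⟩ := hx
  obtain ⟨b, rfl⟩ := hy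
  exact ⟨a + b, by push_cast; ring⟩

private theorem hurwitz_of_ode_int {μ : ℂ} {m : ℕ} {x : ℂ} (c : ℤ) (hx : hurwitz_of_ode_Q μ m x) :
    hurwitz_of_ode_Q μ m (c * x) := by
  obtain ⟨a, rfl⟩ := hx
  exact ⟨c * a, by push_cast; ring⟩

private theorem hurwitz_of_ode_mul {μ : ℂ} {m k l : ℕ} {x y : ℂ} (hx : hurwitz_of_ode_Q μ k x)
    (hy : hurwitz_of_ode_Q μ l y) (h : k + l = m) : hurwitz_of_ode_Q μ m (x * y) := by
  obtain ⟨a, rfl⟩ := hx
  obtain ⟨b, rfl⟩ := hy
  exact ⟨a * b, by rw [← h, pow_add]; push_cast; ring⟩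

private theorem hurwitz_of_ode_sum {μ : ℂ} {m : ℕ} (s : Finset ℕ) (f : ℕ → ℂ)
    (hf : ∀ j ∈ s, hurwitz_of_ode_Q μ m (f j)) : hurwitz_of_ode_Q μ m (∑ j ∈ s, f j) := by
  induction s using Finset.induction_on with
  | empty => exact ⟨0, by simp⟩
  | insert a s ha ih =>
    rw [Finset.sum_insert ha]
    exact hurwitz_of_ode_add (hf a (Finset.mem_insert_self a s))
      (ih fun j hj => hf j (Finset.mem_insert_of_mem hj))

private theorem hurwitz_of_ode_diff {S : ℂ → ℂ} (hS : Differentiable ℂ S) (k : ℕ) :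
    ContDiff ℂ ⊤ (iteratedDeriv k S) := by
  have h1 : Differentiable ℂ (iteratedDeriv k S) := by
    induction k with
    | zero => rwa [iteratedDeriv_zero]
    | succ k ih =>
      rw [iteratedDeriv_succ]
      exact differentiableOn_univ.1 (ih.differentiableOn.deriv isOpen_univ)
  exact h1.contDiff

private theorem hurwitz_of_ode_comp (S : ℂ → ℂ) (n k : ℕ) :
    iteratedDeriv n (iteratedDeriv k S) = iteratedDeriv (n + k) S := by
  rw [iteratedDeriv_eq_iterate, iteratedDeriv_eq_iterate, iteratedDeriv_eq_iterate,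
    Function.iterate_add_apply]

private theorem hurwitz_of_ode_leib {S : ℂ → ℂ} (hS : Differentiable ℂ S) (n a b : ℕ) :
    iteratedDeriv n (fun z => iteratedDeriv a S z * iteratedDeriv b S z) 0 =
      ∑ j ∈ Finset.range (n + 1), (n.choose j : ℂ) * iteratedDeriv (j + a) S 0 *
        iteratedDeriv (n - j + b) S 0 := by
  rw [iteratedDeriv_fun_mul ((hurwitz_of_ode_diff hS a).contDiffAt.of_le le_top)
    ((hurwitz_of_ode_diff hS b).contDiffAt.of_le le_top)]
  simp only [hurwitz_of_ode_comp]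

/-- TA-Ec1. Take the `n`-th derivative at `0` of `Q = β S²` (Leibniz): with `s_n = S^{(n)}(0)`,
`∑_j C(n,j) (s_j s_{n-j+4} - 4 s_{j+1} s_{n-j+3} + 3 s_{j+2} s_{n-j+2}) = β ∑_j C(n,j) s_j s_{n-j}`.
The number `s_{n+4}` occurs exactly once, with the coefficient `s_0 = 1`; so it is a polynomial with
integer coefficients in `s_1, ..., s_{n+3}, β`, homogeneous of weight `n + 4`: strong induction. -/
theorem hurwitz_of_ode {S : ℂ → ℂ} (hS : Differentiable ℂ S) (h0 : S 0 = 1)
    (h1 : iteratedDeriv 1 S 0 = 0) (h3 : iteratedDeriv 3 S 0 = 0) (μ β : ℂ) (ε c : ℤ)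
    (h2 : iteratedDeriv 2 S 0 = -(ε : ℂ) * μ ^ 2) (hβ : β = c * μ ^ 4)
    (hode : ∀ z, Qv S z = β * S z ^ 2) :
    ∃ a : ℕ → ℤ, ∀ n, iteratedDeriv n S 0 = μ ^ n * (a n : ℂ) := by
  have key : ∀ n, hurwitz_of_ode_Q μ n (iteratedDeriv n S 0) := by
    intro n
    induction n using Nat.strong_induction_on with
    | _ n ih =>
      match n, ih with
      | 0, _ => exact ⟨1, by rw [iteratedDeriv_zero, h0]; simp⟩
      | 1, _ => exact ⟨0, by rw [h1]; simp⟩
      | 2, _ => exact ⟨-ε, by rw [h2]; push_cast; ring⟩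
      | 3, _ => exact ⟨0, by rw [h3]; simp⟩
      | n + 4, ih =>
        have hfun : (fun z => (iteratedDeriv 0 S z * iteratedDeriv 4 S z -
            4 * (iteratedDeriv 1 S z * iteratedDeriv 3 S z)) +
            3 * (iteratedDeriv 2 S z * iteratedDeriv 2 S z)) =
            fun z => β * (iteratedDeriv 0 S z * iteratedDeriv 0 S z) := by
          funext z
          have := hode z
          rw [Qv] at this
          simp only [iteratedDeriv_zero]
          linear_combination this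
        have hcd : ∀ a b : ℕ, ContDiff ℂ ⊤ (fun z => iteratedDeriv a S z * iteratedDeriv b S z) :=
          fun a b => (hurwitz_of_ode_diff hS a).mul (hurwitz_of_ode_diff hS b)
        have hc : ∀ a b : ℕ, ContDiffAt ℂ n (fun z => iteratedDeriv a S z * iteratedDeriv b S z) 0 :=
          fun a b => (hcd a b).contDiffAt.of_le le_top
        have hD := congrArg (fun f => iteratedDeriv n f 0) hfun
        rw [iteratedDeriv_fun_add ((hc 0 4).sub (contDiffAt_const.mul (hc 1 3)))
          (contDiffAt_const.mul (hc 2 2)), iteratedDeriv_fun_sub (hc 0 4)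
          (contDiffAt_const.mul (hc 1 3)), iteratedDeriv_const_mul_field,
          iteratedDeriv_const_mul_field, iteratedDeriv_const_mul_field,
          hurwitz_of_ode_leib hS, hurwitz_of_ode_leib hS, hurwitz_of_ode_leib hS,
          hurwitz_of_ode_leib hS, Finset.sum_range_succ'] at hD
        have e0 : iteratedDeriv (0 + 0) S 0 = 1 := by
          rw [iteratedDeriv_zero, h0]
        rw [Nat.choose_zero_right, Nat.cast_one, one_mul, e0, one_mul, Nat.sub_zero] at hD
        have e1 : iteratedDeriv (n + 4) S 0 =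
            β * (∑ j ∈ Finset.range (n + 1), (n.choose j : ℂ) * iteratedDeriv (j + 0) S 0 *
              iteratedDeriv (n - j + 0) S 0) +
            ((-1 : ℤ) : ℂ) * (∑ j ∈ Finset.range n, (n.choose (j + 1) : ℂ) *
              iteratedDeriv (j + 1 + 0) S 0 * iteratedDeriv (n - (j + 1) + 4) S 0) +
            ((4 : ℤ) : ℂ) * (∑ j ∈ Finset.range (n + 1), (n.choose j : ℂ) *
              iteratedDeriv (j + 1) S 0 * iteratedDeriv (n - j + 3) S 0) +
            ((-3 : ℤ) : ℂ) * (∑ j ∈ Finset.range (n + 1), (n.choose j : ℂ) *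
              iteratedDeriv (j + 2) S 0 * iteratedDeriv (n - j + 2) S 0) := by
          push_cast
          linear_combination hD
        rw [e1]
        have hch : ∀ (j m : ℕ) (x y : ℂ) (k l : ℕ), hurwitz_of_ode_Q μ k x →
            hurwitz_of_ode_Q μ l y → k + l = m → hurwitz_of_ode_Q μ m ((n.choose j : ℂ) * x * y) := by
          intro j m x y k l hx hy hkl
          have := hurwitz_of_ode_int (n.choose j : ℤ) (hurwitz_of_ode_mul hx hy hkl)
          rw [mul_assoc]
          push_cast at this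
          exact this
        refine hurwitz_of_ode_add (hurwitz_of_ode_add (hurwitz_of_ode_add ?_
          (hurwitz_of_ode_int _ ?_)) (hurwitz_of_ode_int _ ?_)) (hurwitz_of_ode_int _ ?_)
        · have hb : hurwitz_of_ode_Q μ 4 β := ⟨c, by rw [hβ]; ring⟩
          refine hurwitz_of_ode_mul hb (l := n) ?_ (by ring)
          refine hurwitz_of_ode_sum _ _ fun j hj => ?_
          have hj' := Finset.mem_range.1 hj
          exact hch j n _ _ _ _ (ih (j + 0) (by omega)) (ih (n - j + 0) (by omega)) (by omega)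
        · refine hurwitz_of_ode_sum _ _ fun j hj => ?_
          have hj' := Finset.mem_range.1 hj
          exact hch (j + 1) (n + 4) _ _ _ _ (ih (j + 1 + 0) (by omega))
            (ih (n - (j + 1) + 4) (by omega)) (by omega)
        · refine hurwitz_of_ode_sum _ _ fun j hj => ?_
          have hj' := Finset.mem_range.1 hj
          exact hch j (n + 4) _ _ _ _ (ih (j + 1) (by omega)) (ih (n - j + 3) (by omega)) (by omega)
        · refine hurwitz_of_ode_sum _ _ fun j hj => ?_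
          have hj' := Finset.mem_range.1 hj
          exact hch j (n + 4) _ _ _ _ (ih (j + 2) (by omega)) (ih (n - j + 2) (by omega)) (by omega)
  choose a ha using key
  exact ⟨a, ha⟩

/-- TA-Ec2. odd derivatives of an even function vanish at `0` -/
theorem iteratedDeriv_odd_zero {S : ℂ → ℂ} (hS : Differentiable ℂ S) (he : ∀ z, S (-z) = S z)
    (n : ℕ) (hn : Odd n) : iteratedDeriv n S 0 = 0 := by
  have h1 := iteratedDeriv_comp_neg n S (0 : ℂ)
  have h2 : (fun x => S (-x)) = S := funext he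
  rw [h2, neg_zero, hn.neg_one_pow, neg_one_smul] at h1
  have h3 : (2 : ℂ) * iteratedDeriv n S 0 = 0 := by linear_combination h1
  exact (mul_eq_zero.1 h3).resolve_left two_ne_zero

private theorem lin_unique_lip (c C : ℝ) (hC : 0 ≤ C) (h : |c| ≤ C) :
    LipschitzOnWith (Real.toNNReal (C + 1)) (fun p : ℝ × ℝ => (p.2, c * p.1)) Set.univ := by
  rw [lipschitzOnWith_univ]
  refine LipschitzWith.of_dist_le_mul fun p r => ?_
  rw [Real.coe_toNNReal _ (by linarith), Prod.dist_eq, Prod.dist_eq]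
  refine max_le ?_ ?_
  · calc dist p.2 r.2 ≤ max (dist p.1 r.1) (dist p.2 r.2) := le_max_right _ _
      _ ≤ (C + 1) * max (dist p.1 r.1) (dist p.2 r.2) :=
          le_mul_of_one_le_left (le_max_of_le_left dist_nonneg) (by linarith)
  · rw [Real.dist_eq, ← mul_sub, abs_mul, ← Real.dist_eq]
    exact mul_le_mul (by linarith) (le_max_left _ _) dist_nonneg (by linarith)

/-- TA-Ec3. a real linear differential equation of second order has only the zero solution with
zero initial values (Gronwall for `(δ, δ')` on compact intervals). -/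
theorem lin_unique {q δ : ℝ → ℝ} (hq : Continuous q) (hδ : ContDiff ℝ 2 δ)
    (h : ∀ x, iteratedDeriv 2 δ x = q x * δ x) (a : ℝ) (h0 : δ a = 0) (h1 : deriv δ a = 0) :
    ∀ x, δ x = 0 := by
  intro x
  obtain ⟨R, hR⟩ : ∃ R, R = |a| + |x| + 1 := ⟨_, rfl⟩
  obtain ⟨C, hC⟩ := (isCompact_Icc (a := -R) (b := R)).exists_bound_of_continuousOn hq.continuousOn
  have ha : a ∈ Set.Ioo (-R) R := by
    constructor
    · have := neg_abs_le a
      have := abs_nonneg x
      linarith
    · have := le_abs_self a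
      have := abs_nonneg x
      linarith
  have hx : x ∈ Set.Ioo (-R) R := by
    constructor
    · have := neg_abs_le x
      have := abs_nonneg a
      linarith
    · have := le_abs_self x
      have := abs_nonneg a
      linarith
  have hC0 : 0 ≤ C := (norm_nonneg _).trans (hC a (Set.Ioo_subset_Icc_self ha))
  have hd1 : ∀ t, HasDerivAt δ (deriv δ t) t := fun t =>
    (hδ.differentiable (by norm_num) t).hasDerivAt
  have hd2 : ∀ t, HasDerivAt (deriv δ) (q t * δ t) t := by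
    intro t
    have h3 : Differentiable ℝ (deriv δ) := hδ.differentiable_deriv_two
    have h4 := (h3 t).hasDerivAt
    rwa [← iteratedDeriv_one, ← iteratedDeriv_succ, h t, iteratedDeriv_one] at h4
  have key := ODE_solution_unique_of_mem_Ioo (v := fun t (p : ℝ × ℝ) => (p.2, q t * p.1))
    (s := fun _ => Set.univ) (K := Real.toNNReal (C + 1)) (a := -R) (b := R) (t₀ := a)
    (f := fun t => (δ t, deriv δ t)) (g := fun _ => ((0 : ℝ), (0 : ℝ)))
    (fun t ht => lin_unique_lip (q t) C hC0 (hC t (Set.Ioo_subset_Icc_self ht))) ha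
    (fun t _ => ⟨(hd1 t).prodMk (hd2 t), Set.mem_univ _⟩)
    (fun t _ => ⟨(hasDerivAt_const t ((0 : ℝ), (0 : ℝ))).congr_deriv (by
      simp only [mul_zero]
      rfl), Set.mem_univ _⟩)
    (by simp [h0, h1])
  exact congrArg Prod.fst (key hx)

private theorem ode1_zeros_iter (f : ℝ → ℝ) (x : ℝ) :
    iteratedDeriv 2 f x = deriv (deriv f) x := by
  rw [iteratedDeriv_succ, iteratedDeriv_one]

private theorem ode1_zeros_d1 {p : ℝ → ℝ} (hp : ContDiff ℝ 2 p) (x : ℝ) :
    HasDerivAt p (deriv p x) x :=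
  ((hp.differentiable (by norm_num)) x).hasDerivAt

private theorem ode1_zeros_d2 {p : ℝ → ℝ} (hp : ContDiff ℝ 2 p)
    (hode : ∀ x, iteratedDeriv 2 p x = 6 * p x ^ 2 - 2) (x : ℝ) :
    HasDerivAt (deriv p) (6 * p x ^ 2 - 2) x := by
  have h1 : ContDiff ℝ 1 (deriv p) := by
    have h2 : ContDiff ℝ (1 + 1) p := by
      convert hp using 1
      norm_num
    exact (contDiff_succ_iff_deriv.1 h2).2.2
  have h2 := ((h1.differentiable (by norm_num)) x).hasDerivAt
  rwa [← ode1_zeros_iter, hode] at h2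

private theorem ode1_zeros_first {p : ℝ → ℝ} (hp : ContDiff ℝ 2 p)
    (hode : ∀ x, iteratedDeriv 2 p x = 6 * p x ^ 2 - 2) (h0 : p 0 = 0) (h1 : deriv p 0 = 0)
    (x : ℝ) : deriv p x ^ 2 = 4 * p x ^ 3 - 4 * p x := by
  have hd : ∀ y, HasDerivAt (fun y => deriv p y ^ 2 - (4 * p y ^ 3 - 4 * p y)) 0 y := by
    intro y
    have e1 := ode1_zeros_d1 hp y
    have e2 := ode1_zeros_d2 hp hode y
    have e3 := (e2.pow 2).sub (((e1.pow 3).const_mul 4).sub (e1.const_mul 4))
    have e4 : ((2 : ℕ) : ℝ) * deriv p y ^ (2 - 1) * (6 * p y ^ 2 - 2) -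
        (4 * (((3 : ℕ) : ℝ) * p y ^ (3 - 1) * deriv p y) - 4 * deriv p y) = 0 := by
      push_cast
      ring
    rw [e4] at e3
    exact e3
  have h2 := is_const_of_deriv_eq_zero (f := fun y => deriv p y ^ 2 - (4 * p y ^ 3 - 4 * p y))
    (fun y => (hd y).differentiableAt) (fun y => (hd y).deriv) x 0
  simp only [h0, h1] at h2
  linarith

private theorem ode1_zeros_refl {p : ℝ → ℝ} (hp : ContDiff ℝ 2 p)
    (hode : ∀ x, iteratedDeriv 2 p x = 6 * p x ^ 2 - 2) (s : ℝ) (hs : deriv p s = 0) (v : ℝ) :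
    p (s + v) = p (s - v) := by
  have hc : Continuous p := hp.continuous
  have e1 : ∀ v, HasDerivAt (fun v => p (s + v)) (deriv p (s + v)) v := fun v =>
    (ode1_zeros_d1 hp (s + v)).comp_const_add s v
  have e2 : ∀ v, HasDerivAt (fun v => p (s - v)) (-deriv p (s - v)) v := fun v =>
    (ode1_zeros_d1 hp (s - v)).comp_const_sub s v
  have e3 : ∀ v, HasDerivAt (fun v => deriv p (s + v)) (6 * p (s + v) ^ 2 - 2) v := fun v =>
    (ode1_zeros_d2 hp hode (s + v)).comp_const_add s v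
  have e4 : ∀ v, HasDerivAt (fun v => deriv p (s - v)) (-(6 * p (s - v) ^ 2 - 2)) v := fun v =>
    (ode1_zeros_d2 hp hode (s - v)).comp_const_sub s v
  have e5 : deriv (fun v => p (s + v) - p (s - v)) = fun v => deriv p (s + v) + deriv p (s - v) := by
    funext v
    have := ((e1 v).sub (e2 v)).deriv
    rw [sub_neg_eq_add] at this
    exact this
  have key := lin_unique (q := fun v => 6 * (p (s + v) + p (s - v)))
    (δ := fun v => p (s + v) - p (s - v)) (by fun_prop)
    ((hp.comp (contDiff_const.add contDiff_id)).sub (hp.comp (contDiff_const.sub contDiff_id)))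
    (fun x => by
      rw [ode1_zeros_iter, e5]
      have := ((e3 x).add (e4 x)).deriv
      refine this.trans ?_
      ring) 0 (by simp) (by rw [e5]; simp [hs]) v
  exact sub_eq_zero.1 key

private theorem ode1_zeros_w1 {p : ℝ → ℝ} (hp : ContDiff ℝ 2 p)
    (hode : ∀ x, iteratedDeriv 2 p x = 6 * p x ^ 2 - 2) (h0 : p 0 = 0) (h1 : deriv p 0 = 0)
    (u : ℝ) (hu : 0 < u) (hneg : ∀ x ∈ Set.Ioo 0 u, deriv p x < 0) (hpu : p u = -1) :
    w1 = 2 * u := by
  have hanti : StrictAntiOn p (Set.Icc 0 u) :=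
    strictAntiOn_of_deriv_neg (convex_Icc 0 u) hp.continuous.continuousOn (by rwa [interior_Icc])
  have himg : (fun x => -p x) '' Set.Ioo 0 u = Set.Ioo 0 1 := by
    apply Set.Subset.antisymm
    · rintro _ ⟨x, hx, rfl⟩
      have a1 := hanti (Set.left_mem_Icc.2 hu.le) (Set.Ioo_subset_Icc_self hx) hx.1
      have a2 := hanti (Set.Ioo_subset_Icc_self hx) (Set.right_mem_Icc.2 hu.le) hx.2
      rw [h0] at a1
      rw [hpu] at a2
      constructor <;> simp only <;> linarith
    · have := intermediate_value_Ioo (f := fun x => -p x) hu.le hp.continuous.neg.continuousOn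
      simpa [h0, hpu] using this
  have hinj : Set.InjOn (fun x => -p x) (Set.Ioo 0 u) := by
    intro x hx y hy hxy
    exact hanti.injOn (Set.Ioo_subset_Icc_self hx) (Set.Ioo_subset_Icc_self hy) (neg_injective hxy)
  have hcv := MeasureTheory.integral_image_eq_integral_abs_deriv_smul
    (f := fun x => -p x) (f' := fun x => -deriv p x) (s := Set.Ioo 0 u) measurableSet_Ioo
    (fun x _ => (ode1_zeros_d1 hp x).neg.hasDerivWithinAt) hinj
    (fun y => 1 / Real.sqrt (4 * y - 4 * y ^ 3))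
  rw [himg] at hcv
  have h2 : ∫ x in Set.Ioo 0 u, |(-deriv p x)| • (1 / Real.sqrt (4 * (-p x) - 4 * (-p x) ^ 3)) =
      ∫ x in Set.Ioo 0 u, (1 : ℝ) := by
    refine MeasureTheory.setIntegral_congr_fun measurableSet_Ioo fun x hx => ?_
    have a1 := hneg x hx
    have a2 := ode1_zeros_first hp hode h0 h1 x
    have a3 : 4 * (-p x) - 4 * (-p x) ^ 3 = (-deriv p x) ^ 2 := by
      rw [neg_sq, a2]
      ring
    simp only [smul_eq_mul]
    rw [a3, Real.sqrt_sq_eq_abs, mul_one_div, div_self]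
    rw [abs_ne_zero]
    linarith
  rw [h2] at hcv
  unfold w1
  rw [intervalIntegral.integral_of_le zero_le_one, MeasureTheory.integral_Ioc_eq_integral_Ioo, hcv]
  simp [hu.le]

/-- TA-Ec4. Real function: `p'' = 6p² - 2`, `p(0) = p'(0) = 0`. First integral `p'² = 4p³ - 4p`. For small
`u > 0`: `p < 0`, `p' < 0` (`p''(0) = -2`). Let `u*` be the supremum of the `u` with `p' < 0` on `(0,u)`. There
`-1 < p < 0` and `G(p(u)) = u`, `G(y) = ∫_0^{-y} dx/√(4x-4x³)` (continuous on `[-1,0]`), so `u* ≤ w1/2`,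
`p'(u*) = 0`, `p(u*) = -1`, `u* = w1/2`. By `lin_unique` (`δ(v) = p(u*+v) - p(u*-v)`, `δ'' = 6(p(u*+v)+p(u*-v))δ`)
`p(w1 - u) = p(u)`, and `p(u + w1) = p(u)` in the same way from `p(-u) = p(u)`. So `p < 0` on `(0,w1)` and the
zeros are the multiples of `w1`. -/
theorem ode1_zeros {p : ℝ → ℝ} (hp : ContDiff ℝ 2 p)
    (hode : ∀ x, iteratedDeriv 2 p x = 6 * p x ^ 2 - 2) (h0 : p 0 = 0) (h1 : deriv p 0 = 0)
    (T : ℝ) (hT : 0 < T) (hpT : p T = 0) : ∃ N : ℕ, 0 < N ∧ T = N * w1 := by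
  have hd1 := ode1_zeros_d1 hp
  have hd2 := ode1_zeros_d2 hp hode
  have hfirst := ode1_zeros_first hp hode h0 h1
  have hcd : Continuous (deriv p) :=
    continuous_iff_continuousAt.2 fun x => (hd2 x).continuousAt
  -- the derivative is negative near zero
  obtain ⟨a, ha, haneg⟩ : ∃ a : ℝ, 0 < a ∧ ∀ x ∈ Set.Ioc 0 a, deriv p x < 0 := by
    have h2 : HasDerivAt (deriv p) (-2) 0 := by
      have := hd2 0
      rw [h0] at this
      simpa using this
    have h3 := (hasDerivAt_iff_tendsto_slope.1 h2)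
    have h4 : ∀ᶠ x in nhdsWithin (0 : ℝ) {0}ᶜ, slope (deriv p) 0 x < 0 :=
      h3.eventually (gt_mem_nhds (by norm_num))
    rw [eventually_nhdsWithin_iff, Metric.eventually_nhds_iff] at h4
    obtain ⟨e, he, h5⟩ := h4
    refine ⟨e / 2, by positivity, fun x hx => ?_⟩
    have h6 := h5 (y := x) (by rw [Real.dist_eq, sub_zero, abs_of_pos hx.1]; linarith [hx.2])
      hx.1.ne'
    rw [slope_def_field, h1, sub_zero, sub_zero, div_neg_iff] at h6
    rcases h6 with h6 | h6
    · exact absurd h6.2 (not_lt.2 hx.1.le)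
    · exact h6.1
  -- the first zero of the derivative
  obtain ⟨c, hc, hpc⟩ : ∃ c ∈ Set.Ioo 0 T, deriv p c = 0 := by
    obtain ⟨c, hc, hpc⟩ := exists_deriv_eq_zero hT hp.continuous.continuousOn (h0.trans hpT.symm)
    exact ⟨c, hc, hpc⟩
  set Z : Set ℝ := {x | a ≤ x ∧ deriv p x = 0} with hZ
  have hZne : Z.Nonempty := by
    refine ⟨c, ?_, hpc⟩
    by_contra h2
    exact absurd hpc (haneg c ⟨hc.1, (not_le.1 h2).le⟩).ne
  have hZc : IsClosed Z := (isClosed_Ici).inter (isClosed_eq hcd continuous_const)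
  have hZb : BddBelow Z := ⟨a, fun x hx => hx.1⟩
  obtain ⟨hua, hu0⟩ : sInf Z ∈ Z := hZc.csInf_mem hZne hZb
  set u := sInf Z with hu
  have hupos : 0 < u := ha.trans_le hua
  have hneg : ∀ x ∈ Set.Ioo 0 u, deriv p x < 0 := by
    intro x hx
    rcases le_or_gt x a with hxa | hxa
    · exact haneg x ⟨hx.1, hxa⟩
    · by_contra h2
      push Not at h2
      have h3 := intermediate_value_Icc hxa.le hcd.continuousOn
      obtain ⟨y, hy, hy0⟩ := h3 ⟨(haneg a ⟨ha, le_rfl⟩).le, h2⟩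
      have h4 : u ≤ y := csInf_le hZb ⟨hy.1, hy0⟩
      linarith [hy.2, hx.2]
  have hanti : StrictAntiOn p (Set.Icc 0 u) :=
    strictAntiOn_of_deriv_neg (convex_Icc 0 u) hp.continuous.continuousOn (by rwa [interior_Icc])
  have hpu : p u = -1 := by
    have h2 := hanti (Set.left_mem_Icc.2 hupos.le) (Set.right_mem_Icc.2 hupos.le) hupos
    rw [h0] at h2
    have h3 := hfirst u
    rw [hu0] at h3
    have h4 : p u * ((p u - 1) * (p u + 1)) = 0 := by nlinarith
    rcases mul_eq_zero.1 h4 with h5 | h5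
    · exact absurd h5 h2.ne
    · rcases mul_eq_zero.1 h5 with h6 | h6
      · linarith
      · linarith
  have hw : w1 = 2 * u := ode1_zeros_w1 hp hode h0 h1 u hupos hneg hpu
  have hrefl := ode1_zeros_refl hp hode
  have heven : ∀ v, p (-v) = p v := by
    intro v
    have := hrefl 0 h1 v
    simpa using this.symm
  have hper : Function.Periodic p w1 := by
    intro v
    have h2 := hrefl u hu0 (v + u)
    have h3 : u + (v + u) = v + w1 := by rw [hw]; ring
    have h4 : u - (v + u) = -v := by ring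
    rw [h3, h4, heven] at h2
    exact h2
  have hw0 : 0 < w1 := by rw [hw]; positivity
  have hlt : ∀ x ∈ Set.Ioo 0 w1, p x < 0 := by
    intro x hx
    have h2 : ∀ y ∈ Set.Ioc 0 u, p y < 0 := by
      intro y hy
      have := hanti (Set.left_mem_Icc.2 hupos.le) ⟨hy.1.le, hy.2⟩ hy.1
      rwa [h0] at this
    rcases le_or_gt x u with h3 | h3
    · exact h2 x ⟨hx.1, h3⟩
    · have h4 := hrefl u hu0 (x - u)
      have h5 : u + (x - u) = x := by ring
      rw [h5] at h4
      rw [h4]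
      have h6 := hx.2
      rw [hw] at h6
      exact h2 _ ⟨by linarith, by linarith⟩
  refine ⟨⌊T / w1⌋₊, ?_, ?_⟩
  · rw [Nat.floor_pos]
    by_contra h2
    rw [not_le, div_lt_one hw0] at h2
    exact absurd hpT (hlt T ⟨hT, h2⟩).ne
  · have h2 := hper.sub_nat_mul_eq (x := T) ⌊T / w1⌋₊
    have h3 : 0 ≤ T - ⌊T / w1⌋₊ * w1 := by
      have := Nat.floor_le (div_nonneg hT.le hw0.le)
      rw [le_div_iff₀ hw0] at this
      linarith
    have h4 : T - ⌊T / w1⌋₊ * w1 < w1 := by
      have := Nat.lt_floor_add_one (T / w1)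
      rw [div_lt_iff₀ hw0] at this
      linarith
    rcases h3.eq_or_lt with h5 | h5
    · linarith
    · exact absurd (h2.trans hpT) (hlt _ ⟨h5, h4⟩).ne

private theorem ode1_beta_d2 {P : ℝ → ℝ} (hP : ContDiff ℝ 2 P) (β : ℝ)
    (hode : ∀ x, iteratedDeriv 2 P x = 6 * P x ^ 2 - β) (x : ℝ) :
    HasDerivAt (deriv P) (6 * P x ^ 2 - β) x := by
  have h1 : Differentiable ℝ (deriv P) := hP.differentiable_deriv_two
  have h2 := (h1 x).hasDerivAt
  rwa [← ode1_zeros_iter, hode] at h2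

/-- TA-Ec5. `P'' = 6P² - β`, `P(0) = P'(0) = P(1) = 0`, `P` of period `1`, not identically `0`. `β = 0`: `P = 0` by
`lin_unique`. `β < 0`: `P'' ≥ -β > 0`, `P` unbounded. `β > 0`: `μ = (β/2)^{1/4}`,
`p(u) = P(u/μ)/μ²`, `ode1_zeros` with `T = μ`. -/
theorem ode1_beta {P : ℝ → ℝ} (hP : ContDiff ℝ 2 P) (β : ℝ)
    (hode : ∀ x, iteratedDeriv 2 P x = 6 * P x ^ 2 - β) (h0 : P 0 = 0) (h1 : deriv P 0 = 0)
    (hper : ∀ x, P (x + 1) = P x) (hne : ∃ x, P x ≠ 0) :
    ∃ N : ℕ, 0 < N ∧ β = 2 * (N * w1) ^ 4 := by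
  have hd1 := ode1_zeros_d1 hP
  have hd2 := ode1_beta_d2 hP β hode
  rcases lt_trichotomy β 0 with hb | hb | hb
  · exfalso
    have hmono : StrictMono (deriv P) := strictMono_of_deriv_pos fun x => by
      rw [(hd2 x).deriv]
      have := sq_nonneg (P x)
      linarith
    have hP1 : P 1 = 0 := by
      have := hper 0
      rwa [zero_add, h0] at this
    obtain ⟨c, hc, hpc⟩ := exists_deriv_eq_zero (zero_lt_one (α := ℝ))
      hP.continuous.continuousOn (h0.trans hP1.symm)
    have := hmono hc.1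
    rw [h1, hpc] at this
    exact lt_irrefl _ this
  · exfalso
    obtain ⟨x, hx⟩ := hne
    exact hx (lin_unique (q := fun x => 6 * P x) (hP.continuous.const_mul 6) hP
      (fun x => by rw [hode, hb]; ring) 0 h0 h1 x)
  · obtain ⟨μ, hμ, hμ4⟩ : ∃ μ : ℝ, 0 < μ ∧ μ ^ 4 = β / 2 := by
      refine ⟨Real.sqrt (Real.sqrt (β / 2)), by positivity, ?_⟩
      have e1 : Real.sqrt (Real.sqrt (β / 2)) ^ 2 = Real.sqrt (β / 2) :=
        Real.sq_sqrt (Real.sqrt_nonneg _)
      have e2 : Real.sqrt (β / 2) ^ 2 = β / 2 := Real.sq_sqrt (by positivity)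
      calc Real.sqrt (Real.sqrt (β / 2)) ^ 4 = (Real.sqrt (Real.sqrt (β / 2)) ^ 2) ^ 2 := by ring
        _ = β / 2 := by rw [e1, e2]
    have hμ0 := hμ.ne'
    have e1 : ∀ u, HasDerivAt (fun u : ℝ => P (μ⁻¹ * u) * μ⁻¹ ^ 2)
        (deriv P (μ⁻¹ * u) * μ⁻¹ ^ 3) u := by
      intro u
      have h2 : HasDerivAt (fun u : ℝ => μ⁻¹ * u) μ⁻¹ u := by
        simpa using (hasDerivAt_id u).const_mul μ⁻¹
      have h3 := ((hd1 (μ⁻¹ * u)).comp u h2).mul_const (μ⁻¹ ^ 2)
      refine h3.congr_deriv ?_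
      ring
    have e2 : ∀ u, HasDerivAt (fun u : ℝ => deriv P (μ⁻¹ * u) * μ⁻¹ ^ 3)
        ((6 * P (μ⁻¹ * u) ^ 2 - β) * μ⁻¹ ^ 4) u := by
      intro u
      have h2 : HasDerivAt (fun u : ℝ => μ⁻¹ * u) μ⁻¹ u := by
        simpa using (hasDerivAt_id u).const_mul μ⁻¹
      have h3 := ((hd2 (μ⁻¹ * u)).comp u h2).mul_const (μ⁻¹ ^ 3)
      refine h3.congr_deriv ?_
      ring
    have e3 : deriv (fun u : ℝ => P (μ⁻¹ * u) * μ⁻¹ ^ 2) =
        fun u : ℝ => deriv P (μ⁻¹ * u) * μ⁻¹ ^ 3 := funext fun u => (e1 u).deriv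
    obtain ⟨N, hN, hNw⟩ := ode1_zeros (p := fun u : ℝ => P (μ⁻¹ * u) * μ⁻¹ ^ 2)
      ((hP.comp (contDiff_const.mul contDiff_id)).mul contDiff_const)
      (fun x => by
        rw [ode1_zeros_iter, e3, (e2 x).deriv]
        have hβ : β = 2 * μ ^ 4 := by rw [hμ4]; ring
        rw [hβ]
        field_simp)
      (by simp [h0]) (by rw [e3]; simp [h1]) μ hμ
      (by
        have := hper 0
        rw [zero_add, h0] at this
        simp [hμ0, this])
    refine ⟨N, hN, ?_⟩
    rw [← hNw, hμ4]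
    ring

private theorem Sf_I_real_conj (x : ℝ) :
    jacobiTheta₂ (x : ℂ) I = (((jacobiTheta₂ (x : ℂ) I).re : ℝ) : ℂ) := by
  have h1 := jacobiTheta₂_conj (x : ℂ) I
  rw [Complex.conj_ofReal, Complex.conj_I, neg_neg] at h1
  exact (Complex.conj_eq_iff_re.1 h1).symm

private theorem Sf_I_real_zero_lt : (jacobiTheta₂ 0 I).re < 2 := by
  have h1 := norm_jacobiTheta_sub_one_le (τ := I) (by simp)
  rw [jacobiTheta_eq_jacobiTheta₂, I_im, mul_one] at h1
  have h2 : Real.exp (-Real.pi) < 1 / 4 := by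
    rw [Real.exp_neg, ← one_div]
    apply one_div_lt_one_div_of_lt (by norm_num)
    have h3 := Real.add_one_le_exp Real.pi
    have h4 := Real.pi_gt_three
    linarith
  have h6 : (0 : ℝ) < Real.exp (-Real.pi) := Real.exp_pos _
  have h7 : 2 / (1 - Real.exp (-Real.pi)) * Real.exp (-Real.pi) < 1 := by
    rw [div_mul_eq_mul_div, div_lt_one (by linarith)]
    linarith
  have h8 := (Complex.abs_re_le_norm (jacobiTheta₂ 0 I - 1)).trans h1
  have h9 := le_abs_self (jacobiTheta₂ 0 I - 1).re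
  rw [Complex.sub_re, Complex.one_re] at h8 h9
  linarith

private theorem Sf_I_real_pos (x : ℝ) : 0 < (jacobiTheta₂ (x : ℂ) I).re := by
  have hI : 0 < I.im := by simp
  have h1 := Complex.hasSum_re (hasSum_jacobiTheta₂_term (x : ℂ) hI)
  have h2 := Complex.hasSum_re (hasSum_jacobiTheta₂_term 0 hI)
  have h3 := h1.add h2
  have hnorm : ∀ n : ℤ, ‖jacobiTheta₂_term n (x : ℂ) I‖ = (jacobiTheta₂_term n 0 I).re := by
    intro n
    rw [norm_jacobiTheta₂_term, jacobiTheta₂_term]
    have h4 : cexp (2 * Real.pi * I * n * 0 + Real.pi * I * n ^ 2 * I) =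
        ((Real.exp (-Real.pi * n ^ 2) : ℝ) : ℂ) := by
      rw [Complex.ofReal_exp]
      congr 1
      push_cast
      linear_combination ((Real.pi : ℂ) * (n : ℂ) ^ 2) * I_sq
    rw [h4, Complex.ofReal_re, Complex.ofReal_im, I_im]
    congr 1
    ring
  have h5 := le_hasSum h3 0 fun n _ => by
    have h6 := (abs_le.1 (Complex.abs_re_le_norm (jacobiTheta₂_term n (x : ℂ) I))).1
    rw [hnorm n] at h6
    show 0 ≤ (jacobiTheta₂_term n (x : ℂ) I).re + (jacobiTheta₂_term n 0 I).re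
    linarith
  have h7 : ∀ z : ℂ, (jacobiTheta₂_term 0 z I).re = 1 := by
    intro z
    rw [jacobiTheta₂_term]
    simp
  have h8 : (jacobiTheta₂_term 0 (x : ℂ) I).re + (jacobiTheta₂_term 0 0 I).re = 2 := by
    rw [h7, h7]
    norm_num
  have h9 := Sf_I_real_zero_lt
  have h10 : 2 ≤ (jacobiTheta₂ (x : ℂ) I).re + (jacobiTheta₂ 0 I).re := h8 ▸ h5
  linarith

private theorem Sf_I_real_val (x : ℝ) : Sf I x =
    (((jacobiTheta₂ (x : ℂ) I).re * Real.exp (hc I * x ^ 2 / 2) /
      (jacobiTheta₂ ((0 : ℝ) : ℂ) I).re : ℝ) : ℂ) := by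
  unfold Sf
  have h1 := Sf_I_real_conj x
  have h2 := Sf_I_real_conj 0
  push_cast
  rw [← h1]
  rw [Complex.ofReal_zero] at h2
  rw [← h2]

private theorem Sf_I_real_deriv {f : ℂ → ℂ} (hf : Differentiable ℂ f) {S : ℝ → ℝ}
    (hS : ContDiff ℝ ⊤ S) (h : ∀ x : ℝ, f x = (S x : ℂ)) (n : ℕ) (x : ℝ) :
    iteratedDeriv n f (x : ℂ) = (iteratedDeriv n S x : ℝ) := by
  induction n generalizing x with
  | zero => simpa using h x
  | succ n ih =>
    have h1 : Differentiable ℂ (iteratedDeriv n f) :=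
      (hf.contDiff (n := ⊤)).differentiable_iteratedDeriv n (WithTop.coe_lt_top _)
    have h2 : Differentiable ℝ (iteratedDeriv n S) :=
      hS.differentiable_iteratedDeriv n (WithTop.coe_lt_top _)
    have h3 : HasDerivAt (fun y : ℝ => iteratedDeriv n f (y : ℂ))
        (iteratedDeriv (n + 1) f (x : ℂ)) x := by
      rw [iteratedDeriv_succ]
      exact (h1 (x : ℂ)).hasDerivAt.comp_ofReal
    have h4 : HasDerivAt (fun y : ℝ => ((iteratedDeriv n S y : ℝ) : ℂ))
        ((iteratedDeriv (n + 1) S x : ℝ) : ℂ) x := by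
      rw [iteratedDeriv_succ]
      exact (h2 x).hasDerivAt.ofReal_comp
    have h5 : (fun y : ℝ => iteratedDeriv n f (y : ℂ)) =
        fun y : ℝ => ((iteratedDeriv n S y : ℝ) : ℂ) := funext ih
    rw [h5] at h3
    exact h3.unique h4

/-- TA-Ec6. On the real axis `Sf I` is real and positive: `θ(x, i) ≥ 1 - 2 ∑_{n≥1} exp(-πn²) > 0`;
derivatives of all orders on the real axis are those of the real function. -/
theorem Sf_I_real : ∃ S : ℝ → ℝ, ContDiff ℝ ⊤ S ∧ (∀ x, 0 < S x) ∧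
    (∀ n (x : ℝ), iteratedDeriv n (Sf I) (x : ℂ) = (iteratedDeriv n S x : ℝ)) := by
  have hd := Sf_differentiable (τ := I) (by simp)
  refine ⟨fun x => (Sf I x).re, (hd.contDiff (n := ⊤)).real_of_complex, fun x => ?_, ?_⟩
  · show 0 < (Sf I x).re
    rw [Sf_I_real_val x, Complex.ofReal_re]
    exact div_pos (mul_pos (Sf_I_real_pos x) (Real.exp_pos _)) (Sf_I_real_pos 0)
  · have hval : ∀ x : ℝ, Sf I x = (((fun x : ℝ => (Sf I x).re) x : ℝ) : ℂ) := by
      intro x
      show Sf I x = (((Sf I x).re : ℝ) : ℂ)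
      rw [Sf_I_real_val x, Complex.ofReal_re]
    exact Sf_I_real_deriv hd (hd.contDiff (n := ⊤)).real_of_complex hval

private theorem beta_I_int :
    IntervalIntegrable (fun x : ℝ => 1 / Real.sqrt (4 * x - 4 * x ^ 3)) MeasureTheory.volume 0 1 := by
  have h1 : IntervalIntegrable (fun x : ℝ => x ^ (-(1 / 2) : ℝ)) MeasureTheory.volume 0 1 :=
    intervalIntegral.intervalIntegrable_rpow' (by norm_num)
  have h2 : IntervalIntegrable (fun x : ℝ => (1 - x) ^ (-(1 / 2) : ℝ)) MeasureTheory.volume 0 1 := by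
    have := (h1.comp_sub_left 1).symm
    simpa using this
  refine (h1.add h2).mono_fun' ?_ ?_
  · refine Measurable.aestronglyMeasurable ?_
    exact measurable_const.div (Real.continuous_sqrt.measurable.comp (by fun_prop))
  · rw [Set.uIoc_of_le zero_le_one]
    refine (MeasureTheory.ae_restrict_iff' measurableSet_Ioc).2 (Filter.Eventually.of_forall ?_)
    rintro x ⟨hx0, hx1⟩
    have hx1' : 0 ≤ 1 - x := by linarith
    have e1 : x ^ (-(1 / 2) : ℝ) = 1 / Real.sqrt x := by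
      rw [Real.rpow_neg hx0.le, ← Real.sqrt_eq_rpow, one_div]
    have e2 : (1 - x) ^ (-(1 / 2) : ℝ) = 1 / Real.sqrt (1 - x) := by
      rw [Real.rpow_neg hx1', ← Real.sqrt_eq_rpow, one_div]
    simp only [e1, e2]
    rw [Real.norm_of_nonneg (by positivity)]
    have f1 : 0 ≤ 1 / Real.sqrt x := by positivity
    have f2 : 0 ≤ 1 / Real.sqrt (1 - x) := by positivity
    rcases le_total x (1 / 2) with h | h
    · have h3 : x ≤ 4 * x - 4 * x ^ 3 := by nlinarith [mul_nonneg hx0.le hx1', mul_pos hx0 hx0]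
      have h4 : 1 / Real.sqrt (4 * x - 4 * x ^ 3) ≤ 1 / Real.sqrt x :=
        one_div_le_one_div_of_le (Real.sqrt_pos.2 hx0) (Real.sqrt_le_sqrt h3)
      linarith
    · rcases hx1'.eq_or_lt with h0 | h0
      · have h5 : 4 * x - 4 * x ^ 3 = 0 := by
          have : x = 1 := by linarith
          rw [this]; norm_num
        rw [h5]
        simp only [Real.sqrt_zero, div_zero]
        linarith
      · have h3 : 1 - x ≤ 4 * x - 4 * x ^ 3 := by
          nlinarith [mul_nonneg hx0.le hx1', mul_pos hx0 hx0, mul_nonneg (mul_nonneg hx0.le hx0.le) hx1']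
        have h4 : 1 / Real.sqrt (4 * x - 4 * x ^ 3) ≤ 1 / Real.sqrt (1 - x) :=
          one_div_le_one_div_of_le (Real.sqrt_pos.2 h0) (Real.sqrt_le_sqrt h3)
        linarith

private theorem beta_I_w1 : 0 < w1 := by
  have h := intervalIntegral.intervalIntegral_pos_of_pos_on beta_I_int (fun x hx => by
    have h1 : 0 < 4 * x - 4 * x ^ 3 := by
      nlinarith [mul_pos hx.1 (sub_pos.2 hx.2), mul_pos hx.1 hx.1,
        mul_pos (mul_pos hx.1 hx.1) (sub_pos.2 hx.2)]
    have := Real.sqrt_pos.2 h1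
    positivity) zero_lt_one
  rw [w1]
  linarith

private theorem beta_I_cd {S : ℝ → ℝ} (hS : ContDiff ℝ ⊤ S) (n k : ℕ) :
    ContDiff ℝ k (iteratedDeriv n S) := by
  rw [iteratedDeriv_eq_iterate]
  exact ContDiff.iterate_deriv' k n (hS.of_le le_top)

private theorem beta_I_hd {S : ℝ → ℝ} (hS : ContDiff ℝ ⊤ S) (n : ℕ) (x : ℝ) :
    HasDerivAt (iteratedDeriv n S) (iteratedDeriv (n + 1) S x) x := by
  rw [iteratedDeriv_succ]
  exact (((beta_I_cd hS n 1).differentiable (by simp)) x).hasDerivAt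

/-- the identity theorem on the real axis -/
private theorem beta_I_zero {f : ℂ → ℂ} (hf : Differentiable ℂ f) (h : ∀ x : ℝ, f x = 0) (z : ℂ) :
    f z = 0 := by
  have h1 : AnalyticOnNhd ℂ f Set.univ := fun z _ => hf.analyticAt z
  have h2 : ∃ᶠ z in nhdsWithin (0 : ℂ) {0}ᶜ, f z = 0 := by
    have h3 : Filter.Tendsto (fun n : ℕ => ((1 / ((n : ℝ) + 1) : ℝ) : ℂ)) Filter.atTop
        (nhdsWithin (0 : ℂ) {0}ᶜ) := by
      refine tendsto_nhdsWithin_iff.2 ⟨?_, Filter.Eventually.of_forall fun n => ?_⟩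
      · have := (Complex.continuous_ofReal.tendsto 0).comp (tendsto_one_div_add_atTop_nhds_zero_nat (𝕜 := ℝ))
        rw [Complex.ofReal_zero] at this
        exact this
      · have h5 : (1 / ((n : ℝ) + 1)) ≠ 0 := by positivity
        show ((1 / ((n : ℝ) + 1) : ℝ) : ℂ) ≠ 0
        exact_mod_cast h5
    exact h3.frequently (Filter.Eventually.frequently (Filter.Eventually.of_forall fun n => h _))
  have h4 := h1.eqOn_zero_of_preconnected_of_frequently_eq_zero isPreconnected_univ (Set.mem_univ 0) h2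
  exact h4 (Set.mem_univ z)

/-- TA-Ec7. Let `S` be the real function of `Sf_I_real`, `P = (S'² - S S'')/S²`. `P(x+1) = P(x)` since
`S(x+1) = exp(π x + π/2) S(x)`; `P(0) = 0` (`Dv_I_zero`), `P'(0) = 0` (even); the constant `β` of `ode_I` is
real (put `z = 0`), and `S S'''' - 4S'S''' + 3S''² = S²(6P² - P'')`; `P` is not `0` (`Sf_nonconst` and the
identity theorem: if `Dv (Sf I)` vanishes on the real axis it vanishes). -/
theorem beta_I : ∃ N : ℕ, 0 < N ∧ ∀ z, Qv (Sf I) z = ((2 * (N * w1) ^ 4 : ℝ) : ℂ) * Sf I z ^ 2 := by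
  obtain ⟨S, hS, hpos, hD⟩ := Sf_I_real
  obtain ⟨βc, hβc⟩ := ode_I
  have hd : Differentiable ℂ (Sf I) := Sf_differentiable (τ := I) (by simp)
  have hs0 : ∀ x : ℝ, Sf I x = (S x : ℝ) := by
    intro x
    have := hD 0 x
    simpa [iteratedDeriv_zero] using this
  have s0 : ∀ x, HasDerivAt S (iteratedDeriv 1 S x) x := by
    intro x
    have := beta_I_hd hS 0 x
    simpa [iteratedDeriv_zero] using this
  have s1 := beta_I_hd hS 1
  have s2 := beta_I_hd hS 2
  have s3 := beta_I_hd hS 3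
  simp only [Nat.reduceAdd] at s1 s2 s3
  -- the constant
  have hQ : ∀ x : ℝ, Qv (Sf I) x = ((S x * iteratedDeriv 4 S x -
      4 * iteratedDeriv 1 S x * iteratedDeriv 3 S x + 3 * iteratedDeriv 2 S x ^ 2 : ℝ) : ℂ) := by
    intro x
    rw [Qv, hD, hD, hD, hD, hs0]
    push_cast
    ring
  obtain ⟨β, hβ⟩ : ∃ β : ℝ, βc = β := by
    have h1 := hβc ((0 : ℝ) : ℂ)
    rw [hQ, hs0] at h1
    have h2 : ((S 0 : ℝ) : ℂ) ^ 2 ≠ 0 := pow_ne_zero _ (by exact_mod_cast (hpos 0).ne')
    refine ⟨(S 0 * iteratedDeriv 4 S 0 - 4 * iteratedDeriv 1 S 0 * iteratedDeriv 3 S 0 +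
      3 * iteratedDeriv 2 S 0 ^ 2) / S 0 ^ 2, ?_⟩
    rw [Complex.ofReal_div, h1]
    push_cast
    rw [mul_div_cancel_right₀ _ h2]
  subst hβ
  have hQr : ∀ x : ℝ, S x * iteratedDeriv 4 S x - 4 * iteratedDeriv 1 S x * iteratedDeriv 3 S x +
      3 * iteratedDeriv 2 S x ^ 2 = β * S x ^ 2 := by
    intro x
    have h1 := hβc (x : ℂ)
    rw [hQ, hs0] at h1
    exact_mod_cast h1
  -- the function P
  let P : ℝ → ℝ := fun x => (iteratedDeriv 1 S x ^ 2 - S x * iteratedDeriv 2 S x) / S x ^ 2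
  let P1 : ℝ → ℝ := fun x => (3 * S x * iteratedDeriv 1 S x * iteratedDeriv 2 S x -
    S x ^ 2 * iteratedDeriv 3 S x - 2 * iteratedDeriv 1 S x ^ 3) / S x ^ 3
  have hP1 : ∀ x, HasDerivAt P (P1 x) x := by
    intro x
    have h0 := (hpos x).ne'
    have h1 := (((s1 x).pow 2).sub ((s0 x).mul (s2 x))).div ((s0 x).pow 2) (pow_ne_zero 2 h0)
    refine h1.congr_deriv ?_
    simp only [P1, Pi.pow_apply, Pi.sub_apply, Pi.mul_apply]
    field_simp
    ring
  have hP2 : ∀ x, HasDerivAt P1 (6 * P x ^ 2 - β) x := by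
    intro x
    have h0 := (hpos x).ne'
    have h1 := ((((((s0 x).const_mul 3).mul (s1 x)).mul (s2 x)).sub (((s0 x).pow 2).mul (s3 x))).sub
      (((s1 x).pow 3).const_mul 2)).div ((s0 x).pow 3) (pow_ne_zero 3 h0)
    refine h1.congr_deriv ?_
    have h2 : β = (S x * iteratedDeriv 4 S x - 4 * iteratedDeriv 1 S x * iteratedDeriv 3 S x +
      3 * iteratedDeriv 2 S x ^ 2) / S x ^ 2 := by
      rw [hQr]
      field_simp
    rw [h2]
    simp only [P, Pi.pow_apply, Pi.sub_apply, Pi.mul_apply]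
    field_simp
    ring
  have hdP : deriv P = P1 := funext fun x => (hP1 x).deriv
  have hode : ∀ x, iteratedDeriv 2 P x = 6 * P x ^ 2 - β := by
    intro x
    rw [iteratedDeriv_succ, iteratedDeriv_one, hdP]
    exact (hP2 x).deriv
  have hPc : ContDiff ℝ 2 P := by
    refine ContDiff.div ?_ ((hS.of_le le_top).pow 2) fun x => pow_ne_zero 2 (hpos x).ne'
    exact ((beta_I_cd hS 1 2).pow 2).sub ((hS.of_le le_top).mul (beta_I_cd hS 2 2))
  -- the period
  have hper0 : ∀ x : ℝ, S (x + 1) = Real.exp (Real.pi * (x + 1 / 2)) * S x := by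
    intro x
    have h1 := Sf_add_one I (x : ℂ)
    have h2 : ((x : ℂ) + 1) = ((x + 1 : ℝ) : ℂ) := by push_cast; rfl
    rw [h2, hs0, hs0, hc, I_im, div_one] at h1
    have h3 : cexp ((Real.pi : ℝ) * ((x : ℂ) + 1 / 2)) = ((Real.exp (Real.pi * (x + 1 / 2)) : ℝ) : ℂ) := by
      push_cast
      rfl
    rw [h3] at h1
    exact_mod_cast h1
  have he : ∀ x : ℝ, HasDerivAt (fun y => Real.exp (Real.pi * (y + 1 / 2)))
      (Real.exp (Real.pi * (x + 1 / 2)) * Real.pi) x := by
    intro x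
    have h1 : HasDerivAt (fun y : ℝ => Real.pi * (y + 1 / 2)) Real.pi x := by
      have := ((hasDerivAt_id x).add_const (1 / 2 : ℝ)).const_mul Real.pi
      simpa using this
    exact h1.exp
  have hsh : ∀ (f f' : ℝ → ℝ), (∀ x, HasDerivAt f (f' x) x) → ∀ x,
      HasDerivAt (fun y => f (y + 1)) (f' (x + 1)) x := by
    intro f f' h x
    exact (h (x + 1)).comp_add_const x 1
  have hper1 : ∀ x : ℝ, iteratedDeriv 1 S (x + 1) = Real.exp (Real.pi * (x + 1 / 2)) *
      (iteratedDeriv 1 S x + Real.pi * S x) := by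
    intro x
    have h1 := hsh _ _ s0 x
    have h2 := (he x).mul (s0 x)
    have h3 : (fun y => S (y + 1)) = (fun y => Real.exp (Real.pi * (y + 1 / 2))) * S :=
      funext hper0
    rw [h3] at h1
    rw [h1.unique h2]
    ring
  have hper2 : ∀ x : ℝ, iteratedDeriv 2 S (x + 1) = Real.exp (Real.pi * (x + 1 / 2)) *
      (iteratedDeriv 2 S x + 2 * Real.pi * iteratedDeriv 1 S x + Real.pi ^ 2 * S x) := by
    intro x
    have h1 := hsh _ _ s1 x
    have h2 := (he x).mul ((s1 x).add ((s0 x).const_mul Real.pi))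
    have h3 : (fun y => iteratedDeriv 1 S (y + 1)) = (fun y => Real.exp (Real.pi * (y + 1 / 2))) *
        ((iteratedDeriv 1 S) + fun y => Real.pi * S y) :=
      funext hper1
    rw [h3] at h1
    rw [h1.unique h2]
    simp only [Pi.add_apply]
    ring
  have hper : ∀ x, P (x + 1) = P x := by
    intro x
    have h0 := (hpos x).ne'
    have h1 : Real.exp (Real.pi * (x + 1 / 2)) ≠ 0 := (Real.exp_pos _).ne'
    simp only [P, hper0, hper1, hper2]
    field_simp
    ring
  have hDv : ∀ x : ℝ, Dv (Sf I) x = ((iteratedDeriv 1 S x ^ 2 - S x * iteratedDeriv 2 S x : ℝ) : ℂ) := by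
    intro x
    rw [Dv, hD, hD, hs0]
    push_cast
    ring
  have hodd : ∀ n, Odd n → iteratedDeriv n S 0 = 0 := by
    intro n hn
    have h1 := hD n 0
    rw [Complex.ofReal_zero, iteratedDeriv_odd_zero hd (Sf_neg I) n hn] at h1
    exact_mod_cast h1.symm
  have hP0 : P 0 = 0 := by
    have h1 := hDv 0
    rw [Complex.ofReal_zero, Dv_I_zero] at h1
    have h2 : iteratedDeriv 1 S 0 ^ 2 - S 0 * iteratedDeriv 2 S 0 = 0 := by exact_mod_cast h1.symm
    simp only [P, h2, zero_div]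
  have hP0' : deriv P 0 = 0 := by
    rw [hdP]
    simp only [P1, hodd 1 (by decide), hodd 3 (by decide)]
    simp
  have hne : ∃ x, P x ≠ 0 := by
    by_contra hcon
    push Not at hcon
    obtain ⟨z, hz⟩ := Sf_nonconst (τ := I) (by simp) theta_zero_I 0
    apply hz
    rw [zero_mul]
    refine beta_I_zero (f := Dv (Sf I)) ?_ (fun x => ?_) z
    · have hit : ∀ n : ℕ, Differentiable ℂ (iteratedDeriv n (Sf I)) := by
        intro n
        have hc : ContDiff ℂ (1 + n : ℕ) (Sf I) := hd.contDiff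
        rw [iteratedDeriv_eq_iterate]
        exact (ContDiff.iterate_deriv' 1 n hc).differentiable (by simp)
      exact ((hit 1).pow 2).sub (hd.mul (hit 2))
    · have h1 := hcon x
      have h0 := (hpos x).ne'
      have h2 : iteratedDeriv 1 S x ^ 2 - S x * iteratedDeriv 2 S x = 0 := by
        have h3 := (div_eq_zero_iff.1 h1).resolve_right (pow_ne_zero 2 h0)
        exact h3
      rw [hDv, h2, Complex.ofReal_zero]
  obtain ⟨N, hN, hb⟩ := ode1_beta hPc β hode hP0 hP0' hper hne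
  exact ⟨N, hN, fun z => by rw [hβc z, hb]⟩

theorem E_main1 : ∃ (N : ℕ) (a : ℕ → ℤ), 0 < N ∧ HasHurwitz I (N * w1) a := by
  obtain ⟨N, hN, h⟩ := beta_I
  have hw : w1 ≠ 0 := beta_I_w1.ne'
  have hd := Sf_differentiable (τ := I) (by simp)
  have e2 : iteratedDeriv 2 (Sf I) 0 = 0 := by
    have := Dv_I_zero
    rw [Dv, Sf_zero theta_zero_I, iteratedDeriv_odd_zero hd (Sf_neg I) 1 (by decide)] at this
    simpa using this
  obtain ⟨a, ha⟩ := hurwitz_of_ode hd (Sf_zero theta_zero_I)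
    (iteratedDeriv_odd_zero hd (Sf_neg I) 1 (by decide))
    (iteratedDeriv_odd_zero hd (Sf_neg I) 3 (by decide)) (N * w1) _ 0 2 (by rw [e2]; simp)
    (by push_cast; ring) h
  exact ⟨N, a, hN, mul_ne_zero (by exact_mod_cast hN.ne') (by exact_mod_cast hw), ha⟩

end Pool.Agent.Helper49.TA
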