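import Mathlib
import Pool.Agent.Helper49.TA.Ec

/-!
# Project TA, block E, part d: curve 2
-/

set_option autoImplicit false

open Complex Filter Topology

namespace Pool.Agent.Helper49.TA

/-- TA-Ed1. If `D(0) = -S''(0) = 0` then the recursion in `hurwitz_of_ode` (with `β = 0`) gives `s_n = 0` for all
`n ≥ 1` (use it with `μ = 0`, `ε = 0`, `c = 0`), so `S = 1`, against `Sf_nonconst` with `P₀ = 0`. -/
theorem Dv_rho_ne : Dv (Sf rho) 0 ≠ 0 := by
  intro h
  have hτ : 0 < rho.im := by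
    rw [rho_im]
    positivity
  have hS := Sf_differentiable hτ
  have hS0 : Sf rho 0 = 1 := Sf_zero theta_zero_rho
  have hS1 := iteratedDeriv_odd_zero hS (Sf_neg rho) 1 (by decide)
  have hS3 := iteratedDeriv_odd_zero hS (Sf_neg rho) 3 (by decide)
  have hS2 : iteratedDeriv 2 (Sf rho) 0 = 0 := by
    rw [Dv, hS0, hS1] at h
    linear_combination -h
  obtain ⟨a, ha⟩ := hurwitz_of_ode hS hS0 hS1 hS3 0 0 0 0 (by rw [hS2]; push_cast; ring)
    (by push_cast; ring) (fun z => by rw [ode_rho z, zero_mul])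
  have hn : ∀ n, n ≠ 0 → iteratedDeriv n (Sf rho) 0 = 0 := fun n hn => by
    rw [ha n, zero_pow hn, zero_mul]
  have hconst : ∀ z, Sf rho z = 1 := by
    intro z
    have h1 := Complex.hasSum_taylorSeries_of_entire hS 0 z
    have h2 := hasSum_single (f := fun n : ℕ => ((n.factorial : ℂ)⁻¹ • (z - 0) ^ n •
      iteratedDeriv n (Sf rho) 0)) 0 (fun n h => by rw [hn n h, smul_zero, smul_zero])
    have h3 := h1.unique h2
    rw [h3, iteratedDeriv_zero, hS0]
    simp
  have hfun : Sf rho = fun _ => (1 : ℂ) := funext hconst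
  obtain ⟨z, hz⟩ := Sf_nonconst hτ theta_zero_rho 0
  apply hz
  rw [Dv, hfun, zero_mul]
  simp [iteratedDeriv_const]

/-- the integrand of `w2` -/
private noncomputable def ode2_zero_g (t : ℝ) : ℝ := 1 / Real.sqrt (4 * t - 4 * t ^ 4)

private theorem ode2_zero_bd {t : ℝ} (h0 : 0 < t) (h1 : t < 1) :
    ode2_zero_g t ≤ t ^ (-(1 / 2) : ℝ) + (1 - t) ^ (-(1 / 2) : ℝ) := by
  have h1' : 0 < 1 - t := by linarith
  set a := Real.sqrt t with ha
  set b := Real.sqrt (1 - t) with hb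
  have ha0 : 0 < a := Real.sqrt_pos.2 h0
  have hb0 : 0 < b := Real.sqrt_pos.2 h1'
  have ha2 : a ^ 2 = t := Real.sq_sqrt h0.le
  have hb2 : b ^ 2 = 1 - t := Real.sq_sqrt h1'.le
  have e1 : t ^ (-(1 / 2) : ℝ) = a⁻¹ := by
    rw [Real.rpow_neg h0.le, ← Real.sqrt_eq_rpow]
  have e2 : (1 - t) ^ (-(1 / 2) : ℝ) = b⁻¹ := by
    rw [Real.rpow_neg h1'.le, ← Real.sqrt_eq_rpow]
  rw [e1, e2, ode2_zero_g]
  have h2 : 2 * a * b ≤ Real.sqrt (4 * t - 4 * t ^ 4) := by
    apply Real.le_sqrt_of_sq_le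
    have h3 : (2 * a * b) ^ 2 = 4 * t * (1 - t) := by
      rw [mul_pow, mul_pow, ha2, hb2]
      ring
    rw [h3]
    have h4 : 4 * t - 4 * t ^ 4 = 4 * t * (1 - t) * (1 + t + t ^ 2) := by ring
    rw [h4]
    have h5 : 0 ≤ 4 * t * (1 - t) := by positivity
    have h6 : 1 ≤ 1 + t + t ^ 2 := by nlinarith
    exact le_mul_of_one_le_right h5 h6
  have h3 : 0 < 2 * a * b := by positivity
  have h4 : 1 / Real.sqrt (4 * t - 4 * t ^ 4) ≤ 1 / (2 * a * b) :=
    one_div_le_one_div_of_le h3 h2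
  refine h4.trans ?_
  have h5 : 1 ≤ a + b := by nlinarith [mul_pos ha0 hb0]
  have h6 : a⁻¹ + b⁻¹ = (a + b) / (a * b) := by
    field_simp
    ring
  rw [h6, div_le_div_iff₀ h3 (by positivity)]
  nlinarith [mul_pos ha0 hb0]

private theorem ode2_zero_meas : Measurable ode2_zero_g := by
  unfold ode2_zero_g
  exact measurable_const.div (Real.continuous_sqrt.measurable.comp (by fun_prop))

private theorem ode2_zero_int : IntervalIntegrable ode2_zero_g MeasureTheory.volume 0 1 := by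
  have h1 : IntervalIntegrable (fun x : ℝ => x ^ (-(1 / 2) : ℝ)) MeasureTheory.volume 0 1 :=
    intervalIntegral.intervalIntegrable_rpow' (by norm_num)
  have h2 : IntervalIntegrable (fun x : ℝ => (1 - x) ^ (-(1 / 2) : ℝ)) MeasureTheory.volume 0 1 := by
    have h3 : IntervalIntegrable (fun x : ℝ => x ^ (-(1 / 2) : ℝ)) MeasureTheory.volume 1 0 :=
      intervalIntegral.intervalIntegrable_rpow' (by norm_num)
    have h4 := h3.comp_sub_left 1
    simpa using h4
  refine (h1.add h2).mono_fun' ode2_zero_meas.aestronglyMeasurable ?_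
  rw [Set.uIoc_of_le zero_le_one]
  have h5 : ∀ᵐ x ∂(MeasureTheory.volume.restrict (Set.Ioc (0 : ℝ) 1)), x ∈ Set.Ioo (0 : ℝ) 1 := by
    rw [← MeasureTheory.Measure.restrict_congr_set MeasureTheory.Ioo_ae_eq_Ioc]
    exact MeasureTheory.ae_restrict_mem measurableSet_Ioo
  filter_upwards [h5] with x hx
  have h6 : 0 ≤ ode2_zero_g x := by
    unfold ode2_zero_g
    positivity
  rw [Real.norm_of_nonneg h6]
  exact ode2_zero_bd hx.1 hx.2

private theorem ode2_zero_mono {f f' : ℝ → ℝ} {X : ℝ}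
    (hf : ∀ x ∈ Set.Icc 0 X, HasDerivAt f (f' x) x) (h0 : ∀ x ∈ Set.Icc 0 X, 0 ≤ f' x) :
    MonotoneOn f (Set.Icc 0 X) := by
  refine monotoneOn_of_deriv_nonneg (convex_Icc 0 X)
    (fun x hx => (hf x hx).continuousAt.continuousWithinAt) ?_ ?_
  · intro x hx
    exact (hf x (interior_subset hx)).differentiableAt.differentiableWithinAt
  · intro x hx
    rw [(hf x (interior_subset hx)).deriv]
    exact h0 x (interior_subset hx)

private theorem ode2_zero_const {f : ℝ → ℝ} {X : ℝ}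
    (hf : ∀ x ∈ Set.Icc 0 X, HasDerivAt f 0 x) {x : ℝ} (hx : x ∈ Set.Icc 0 X) : f x = f 0 := by
  have h1 := ode2_zero_mono (f := f) (f' := fun _ => 0) hf (fun _ _ => le_rfl)
  have h2 := ode2_zero_mono (f := fun x => - f x) (f' := fun _ => 0)
    (fun x hx => by
      have k := (hf x hx).neg
      rw [neg_zero] at k
      exact k) (fun _ _ => le_rfl)
  have h0 : (0 : ℝ) ∈ Set.Icc 0 X := ⟨le_rfl, hx.1.trans hx.2⟩
  have h3 := h1 h0 hx hx.1
  have h4 := h2 h0 hx hx.1
  simp only at h4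
  linarith

/-- `p`, `q = p'` on an interval on which `s` is positive -/
private theorem ode2_zero_key {s : ℝ → ℝ} (hs : ContDiff ℝ ⊤ s) (h0 : s 0 = 1)
    (h1 : iteratedDeriv 1 s 0 = 0) (h2 : iteratedDeriv 2 s 0 = -1) (h3 : iteratedDeriv 3 s 0 = 0)
    (hode : ∀ x, s x * iteratedDeriv 4 s x - 4 * iteratedDeriv 1 s x * iteratedDeriv 3 s x +
      3 * iteratedDeriv 2 s x ^ 2 = 0) {X : ℝ} (hX : 0 ≤ X) (hpos : ∀ x ∈ Set.Icc 0 X, 0 < s x) :
    ∃ p q : ℝ → ℝ, (∀ x ∈ Set.Icc 0 X, HasDerivAt p (q x) x) ∧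
      (∀ x ∈ Set.Icc 0 X, 1 ≤ p x) ∧ (∀ x ∈ Set.Icc 0 X, 6 * x ≤ q x) ∧ p 0 = 1 ∧ q 0 = 0 ∧
      (∀ x ∈ Set.Icc 0 X, q x ^ 2 = 4 * p x ^ 3 - 4) ∧
      ∀ x ∈ Set.Icc 0 X, HasDerivAt (fun x => iteratedDeriv 1 s x / s x) (-p x) x := by
  have hT : ∀ (k : ℕ) (x : ℝ), HasDerivAt (iteratedDeriv k s) (iteratedDeriv (k + 1) s x) x := by
    intro k x
    rw [iteratedDeriv_succ]
    exact ((hs.differentiable_iteratedDeriv k (WithTop.coe_lt_top _)) x).hasDerivAt
  have hT0 : ∀ x, HasDerivAt s (iteratedDeriv 1 s x) x := fun x => by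
    have := hT 0 x
    rwa [iteratedDeriv_zero] at this
  set T1 := iteratedDeriv 1 s with hT1
  set T2 := iteratedDeriv 2 s with hT2
  set T3 := iteratedDeriv 3 s with hT3
  set T4 := iteratedDeriv 4 s with hT4
  have d1 : ∀ x, HasDerivAt T1 (T2 x) x := hT 1
  have d2 : ∀ x, HasDerivAt T2 (T3 x) x := hT 2
  have d3 : ∀ x, HasDerivAt T3 (T4 x) x := hT 3
  set p : ℝ → ℝ := fun x => (T1 x ^ 2 - s x * T2 x) / s x ^ 2 with hp
  set q : ℝ → ℝ := fun x => ((T1 x * T2 x - s x * T3 x) * s x -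
    2 * (T1 x ^ 2 - s x * T2 x) * T1 x) / s x ^ 3 with hq
  have hpd : ∀ x ∈ Set.Icc 0 X, HasDerivAt p (q x) x := by
    intro x hx
    have hx' := (hpos x hx).ne'
    have k := (((d1 x).pow 2).sub ((hT0 x).mul (d2 x))).div ((hT0 x).pow 2) (pow_ne_zero 2 hx')
    refine k.congr_deriv ?_
    simp only [hq, Pi.pow_apply, Pi.sub_apply, Pi.mul_apply]
    push_cast
    field_simp
    ring
  have hqd : ∀ x ∈ Set.Icc 0 X, HasDerivAt q (6 * p x ^ 2) x := by
    intro x hx
    have hx' := (hpos x hx).ne'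
    have k := (((((d1 x).mul (d2 x)).sub ((hT0 x).mul (d3 x))).mul (hT0 x)).sub
      (((((d1 x).pow 2).sub ((hT0 x).mul (d2 x))).const_mul 2).mul (d1 x))).div ((hT0 x).pow 3)
        (pow_ne_zero 3 hx')
    refine k.congr_deriv ?_
    simp only [hp, Pi.pow_apply, Pi.sub_apply, Pi.mul_apply]
    push_cast
    have ho := hode x
    have hx2 : (s x ^ 3) ^ 2 ≠ 0 := pow_ne_zero 2 (pow_ne_zero 3 hx')
    have e : 6 * ((T1 x ^ 2 - s x * T2 x) / s x ^ 2) ^ 2 * (s x ^ 3) ^ 2 =
        6 * (T1 x ^ 2 - s x * T2 x) ^ 2 * s x ^ 2 := by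
      field_simp
    rw [div_eq_iff hx2, e]
    linear_combination (-(s x ^ 4)) * ho
  have hp0 : p 0 = 1 := by
    simp only [hp, h0, h1, h2]
    norm_num
  have hq0 : q 0 = 0 := by
    simp only [hq, h0, h1, h3]
    norm_num
  have hI0 : (0 : ℝ) ∈ Set.Icc 0 X := ⟨le_rfl, hX⟩
  have hqnn : ∀ x ∈ Set.Icc 0 X, 0 ≤ q x := by
    intro x hx
    have := ode2_zero_mono hqd (fun x _ => by positivity) hI0 hx hx.1
    rwa [hq0] at this
  have hp1 : ∀ x ∈ Set.Icc 0 X, 1 ≤ p x := by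
    intro x hx
    have := ode2_zero_mono hpd hqnn hI0 hx hx.1
    rwa [hp0] at this
  refine ⟨p, q, hpd, hp1, ?_, hp0, hq0, ?_, ?_⟩
  · intro x hx
    have k : ∀ x ∈ Set.Icc 0 X, HasDerivAt (fun x => q x - 6 * x) (6 * p x ^ 2 - 6) x := by
      intro x hx
      have := (hqd x hx).sub ((hasDerivAt_id x).const_mul 6)
      exact this.congr_deriv (by ring)
    have k2 := ode2_zero_mono k (fun x hx => by nlinarith [hp1 x hx]) hI0 hx hx.1
    simp only [hq0] at k2
    linarith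
  · intro x hx
    have k : ∀ x ∈ Set.Icc 0 X, HasDerivAt (fun x => q x ^ 2 - 4 * p x ^ 3) 0 x := by
      intro x hx
      have := ((hqd x hx).pow 2).sub (((hpd x hx).pow 3).const_mul 4)
      refine this.congr_deriv ?_
      push_cast
      ring
    have k2 := ode2_zero_const k hx
    simp only [hq0, hp0] at k2
    linarith
  · intro x hx
    have hx' := (hpos x hx).ne'
    have k := (d1 x).div (hT0 x) hx'
    refine k.congr_deriv ?_
    simp only [hp]
    field_simp
    ring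

/-- the inverse function relation -/
private theorem ode2_zero_sub {p q : ℝ → ℝ} {X : ℝ} (hX : 0 ≤ X)
    (hpd : ∀ x ∈ Set.Icc 0 X, HasDerivAt p (q x) x) (hp1 : ∀ x ∈ Set.Icc 0 X, 1 ≤ p x)
    (hq6 : ∀ x ∈ Set.Icc 0 X, 6 * x ≤ q x) (hp0 : p 0 = 1)
    (hqp : ∀ x ∈ Set.Icc 0 X, q x ^ 2 = 4 * p x ^ 3 - 4) :
    ∫ t in (p X)⁻¹..1, ode2_zero_g t = X := by
  set y : ℝ → ℝ := fun x => (p x)⁻¹ with hy
  have hppos : ∀ x ∈ Set.Icc 0 X, 0 < p x := fun x hx => lt_of_lt_of_le one_pos (hp1 x hx)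
  have hyd : ∀ x ∈ Set.Icc 0 X, HasDerivAt y (-q x / p x ^ 2) x := fun x hx =>
    (hpd x hx).inv (hppos x hx).ne'
  have hyI : ∀ x ∈ Set.Icc 0 X, y x ∈ Set.Ioc (0 : ℝ) 1 := fun x hx =>
    ⟨inv_pos.2 (hppos x hx), inv_le_one_of_one_le₀ (hp1 x hx)⟩
  have hy0 : y 0 = 1 := by simp [hy, hp0]
  have hgy : ∀ x ∈ Set.Ioo 0 X, ode2_zero_g (y x) * (-q x / p x ^ 2) = -1 := by
    intro x hx
    have hx' : x ∈ Set.Icc 0 X := Set.Ioo_subset_Icc_self hx
    have hq0 : 0 < q x := lt_of_lt_of_le (by linarith [hx.1]) (hq6 x hx')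
    have hp := hppos x hx'
    have e : 4 * y x - 4 * y x ^ 4 = (q x / p x ^ 2) ^ 2 := by
      simp only [hy]
      rw [div_pow, hqp x hx']
      field_simp
    unfold ode2_zero_g
    rw [e, Real.sqrt_sq (by positivity)]
    field_simp
  have hgcont : ContinuousOn ode2_zero_g (Set.Ioo 0 1) := by
    unfold ode2_zero_g
    refine continuousOn_const.div (Real.continuous_sqrt.comp_continuousOn (by fun_prop)) ?_
    intro t ht
    apply (Real.sqrt_pos.2 _).ne'
    have h4 : 4 * t - 4 * t ^ 4 = 4 * t * (1 - t) * (1 + t + t ^ 2) := by ring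
    rw [h4]
    have := ht.1
    have h5 : 0 < 1 - t := by linarith [ht.2]
    positivity
  have hyIoo : ∀ x ∈ Set.Ioo 0 X, y x ∈ Set.Ioo (0 : ℝ) 1 := by
    intro x hx
    have hx' : x ∈ Set.Icc 0 X := Set.Ioo_subset_Icc_self hx
    refine ⟨(hyI x hx').1, ?_⟩
    have hq0 : 0 < q x := lt_of_lt_of_le (by linarith [hx.1]) (hq6 x hx')
    have h1 := hqp x hx'
    have h2 : 1 < p x := by
      rcases (hp1 x hx').lt_or_eq with h | h
      · exact h
      · rw [← h] at h1
        nlinarith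
    exact inv_lt_one_of_one_lt₀ h2
  have key := intervalIntegral.integral_comp_mul_deriv''' (a := 0) (b := X) (f := y)
    (f' := fun x => -q x / p x ^ 2) (g := ode2_zero_g) ?_ ?_ ?_ ?_ ?_
  · have h1 : ∫ x in (0 : ℝ)..X, (ode2_zero_g ∘ y) x * (-q x / p x ^ 2) = -X := by
      have h2 : ∫ x in (0 : ℝ)..X, (ode2_zero_g ∘ y) x * (-q x / p x ^ 2) =
          ∫ x in (0 : ℝ)..X, (-1 : ℝ) := by
        rw [intervalIntegral.integral_of_le hX, intervalIntegral.integral_of_le hX,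
          MeasureTheory.integral_Ioc_eq_integral_Ioo, MeasureTheory.integral_Ioc_eq_integral_Ioo]
        exact MeasureTheory.setIntegral_congr_fun measurableSet_Ioo fun x hx => hgy x hx
      rw [h2]
      simp
    rw [h1, hy0, intervalIntegral.integral_symm] at key
    have h3 : ∫ t in (p X)⁻¹..1, ode2_zero_g t = ∫ t in y X..1, ode2_zero_g t := rfl
    rw [h3]
    linarith
  · rw [Set.uIcc_of_le hX]
    exact fun x hx => (hyd x hx).continuousAt.continuousWithinAt
  · rw [min_eq_left hX, max_eq_right hX]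
    exact fun x hx => (hyd x (Set.Ioo_subset_Icc_self hx)).hasDerivWithinAt
  · rw [min_eq_left hX, max_eq_right hX]
    refine hgcont.mono ?_
    rintro _ ⟨x, hx, rfl⟩
    exact hyIoo x hx
  · rw [Set.uIcc_of_le hX]
    have h1 := (intervalIntegrable_iff_integrableOn_Ioc_of_le zero_le_one).1 ode2_zero_int
    refine h1.mono_set ?_
    rintro _ ⟨x, hx, rfl⟩
    exact hyI x hx
  · rw [Set.uIcc_of_le hX, integrableOn_Icc_iff_integrableOn_Ioo]
    refine (MeasureTheory.integrableOn_const (C := (-1 : ℝ)) (by simp)).congr_fun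
      (fun x hx => (hgy x hx).symm) measurableSet_Ioo

/-- TA-Ed2. Real function with `s s'''' - 4 s' s''' + 3 s''² = 0`, `s(0)=1`, `s'(0)=0`, `s''(0)=-1`, `s'''(0)=0`. Let `[0,u₁)` be the
maximal interval on which `s > 0`, `p = (s'² - s s'')/s²` there: `p'' = 6p²`, `p(0)=1`, `p'(0)=0`, `p'² = 4p³-4`, `p` increasing.
`y = 1/p`: `∫_{y(u)}^1 dt/√(4t-4t⁴) = u`, hence `u < w2/2`, so `u₁ ≤ w2/2`, `s(u₁) = 0`. If `p` were bounded on `[0,u₁)` then
`log s` (`(log s)'' = -p`) would be bounded, `s(u₁) ≠ 0`; so `y → 0` and `u₁ = w2/2`. -/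
theorem ode2_zero {s : ℝ → ℝ} (hs : ContDiff ℝ ⊤ s) (h0 : s 0 = 1) (h1 : iteratedDeriv 1 s 0 = 0)
    (h2 : iteratedDeriv 2 s 0 = -1) (h3 : iteratedDeriv 3 s 0 = 0)
    (hode : ∀ x, s x * iteratedDeriv 4 s x - 4 * iteratedDeriv 1 s x * iteratedDeriv 3 s x +
      3 * iteratedDeriv 2 s x ^ 2 = 0) : s (w2 / 2) = 0 := by
  have hw : w2 / 2 = ∫ t in (0 : ℝ)..1, ode2_zero_g t := by
    unfold w2 ode2_zero_g
    ring
  set w : ℝ := ∫ t in (0 : ℝ)..1, ode2_zero_g t with hwdef
  rw [hw]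
  have hgnn : ∀ t, 0 ≤ ode2_zero_g t := fun t => by
    unfold ode2_zero_g
    positivity
  have hgpos : ∀ t ∈ Set.Ioo (0 : ℝ) 1, 0 < ode2_zero_g t := by
    intro t ht
    unfold ode2_zero_g
    have h4 : 4 * t - 4 * t ^ 4 = 4 * t * (1 - t) * (1 + t + t ^ 2) := by ring
    have := ht.1
    have h5 : 0 < 1 - t := by linarith [ht.2]
    have h6 : 0 < 4 * t - 4 * t ^ 4 := by
      rw [h4]
      positivity
    positivity
  have hint : ∀ {a b : ℝ}, 0 ≤ a → a ≤ 1 → 0 ≤ b → b ≤ 1 →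
      IntervalIntegrable ode2_zero_g MeasureTheory.volume a b := by
    intro a b ha ha' hb hb'
    refine ode2_zero_int.mono_set ?_
    rw [Set.uIcc_of_le (zero_le_one' ℝ)]
    exact Set.uIcc_subset_Icc ⟨ha, ha'⟩ ⟨hb, hb'⟩
  have hw0 : 0 ≤ w := intervalIntegral.integral_nonneg zero_le_one fun t _ => hgnn t
  -- no interval of positivity contains `w`
  have hA : ∀ X, 0 ≤ X → (∀ x ∈ Set.Icc 0 X, 0 < s x) → X < w := by
    intro X hX hpos
    obtain ⟨p, q, hpd, hp1, hq6, hp0, -, hqp, -⟩ := ode2_zero_key hs h0 h1 h2 h3 hode hX hpos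
    have h4 := ode2_zero_sub hX hpd hp1 hq6 hp0 hqp
    have hXI : X ∈ Set.Icc 0 X := ⟨hX, le_rfl⟩
    have h5 : 0 < (p X)⁻¹ := inv_pos.2 (lt_of_lt_of_le one_pos (hp1 X hXI))
    have h6 : (p X)⁻¹ ≤ 1 := inv_le_one_of_one_le₀ (hp1 X hXI)
    have h7 : w = (∫ t in (0 : ℝ)..(p X)⁻¹, ode2_zero_g t) + ∫ t in (p X)⁻¹..1, ode2_zero_g t :=
      (intervalIntegral.integral_add_adjacent_intervals (hint le_rfl zero_le_one h5.le h6)
        (hint h5.le h6 zero_le_one le_rfl)).symm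
    have h8 : 0 < ∫ t in (0 : ℝ)..(p X)⁻¹, ode2_zero_g t := by
      refine intervalIntegral.intervalIntegral_pos_of_pos_on (hint le_rfl zero_le_one h5.le h6) ?_ h5
      intro t ht
      exact hgpos t ⟨ht.1, lt_of_lt_of_le ht.2 h6⟩
    rw [h7, h4]
    linarith
  have hsc : Continuous s := hs.continuous
  -- the first zero
  set Z : Set ℝ := {x | 0 ≤ x ∧ s x ≤ 0} with hZ
  have hZc : IsClosed Z := by
    have : Z = Set.Ici 0 ∩ s ⁻¹' (Set.Iic 0) := rfl
    rw [this]
    exact isClosed_Ici.inter (isClosed_Iic.preimage hsc)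
  have hZne : Z.Nonempty := by
    by_contra hcon
    rw [Set.not_nonempty_iff_eq_empty] at hcon
    have h4 := hA w hw0 fun x hx => by
      by_contra h5
      have h6 : x ∈ Z := ⟨hx.1, not_lt.1 h5⟩
      rw [hcon] at h6
      exact h6
    exact lt_irrefl _ h4
  have hZb : BddBelow Z := ⟨0, fun x hx => hx.1⟩
  set u : ℝ := sInf Z with hu
  have huZ : u ∈ Z := hZc.csInf_mem hZne hZb
  have hbelow : ∀ x, 0 ≤ x → x < u → 0 < s x := by
    intro x hx hxu
    by_contra h5
    exact absurd (csInf_le hZb (⟨hx, not_lt.1 h5⟩ : x ∈ Z)) (not_le.2 hxu)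
  have hu0 : 0 < u := by
    rcases huZ.1.lt_or_eq with h | h
    · exact h
    · have h4 := huZ.2
      rw [← h, h0] at h4
      linarith
  have hsu : s u = 0 := by
    refine le_antisymm huZ.2 ?_
    have h4 : Tendsto s (𝓝[<] u) (𝓝 (s u)) := (hsc.tendsto u).mono_left nhdsWithin_le_nhds
    refine ge_of_tendsto h4 ?_
    filter_upwards [Ioo_mem_nhdsLT hu0] with x hx
    exact (hbelow x hx.1.le hx.2).le
  have huw : u ≤ w := by
    by_contra hcon
    rw [not_le] at hcon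
    exact lt_irrefl _ (hA w hw0 fun x hx => hbelow x hx.1 (lt_of_le_of_lt hx.2 hcon))
  rcases huw.lt_or_eq with hlt | heq
  swap
  · rw [← heq, hsu]
  exfalso
  -- a point `c > 0` with `∫_c^1 > u`
  have hcont : ContinuousOn (fun c => ∫ t in c..1, ode2_zero_g t) (Set.Icc 0 1) := by
    have h4 := intervalIntegral.continuousOn_primitive_interval_left
      (a := (0 : ℝ)) (b := 1) (f := ode2_zero_g) (μ := MeasureTheory.volume) ?_
    · rwa [Set.uIcc_of_le (zero_le_one' ℝ)] at h4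
    · rw [Set.uIcc_of_le (zero_le_one' ℝ), integrableOn_Icc_iff_integrableOn_Ioc]
      exact (intervalIntegrable_iff_integrableOn_Ioc_of_le zero_le_one).1 ode2_zero_int
  obtain ⟨c, hc0, hc1, hcu⟩ : ∃ c : ℝ, 0 < c ∧ c ≤ 1 ∧ u < ∫ t in c..1, ode2_zero_g t := by
    have h4 : Tendsto (fun c => ∫ t in c..1, ode2_zero_g t) (𝓝[Set.Icc 0 1] 0) (𝓝 w) :=
      hcont 0 ⟨le_rfl, zero_le_one⟩
    have h5 := h4.eventually (lt_mem_nhds hlt)
    have h6 : 𝓝[>] (0 : ℝ) ≤ 𝓝[Set.Icc 0 1] 0 := by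
      rw [nhdsWithin_le_iff]
      exact Filter.mem_of_superset (Ioc_mem_nhdsGT zero_lt_one) Set.Ioc_subset_Icc_self
    have h7 : ∀ᶠ c in 𝓝[>] (0 : ℝ), c ∈ Set.Ioc (0 : ℝ) 1 := Ioc_mem_nhdsGT zero_lt_one
    obtain ⟨c, hc, hc'⟩ := ((h5.filter_mono h6).and h7).exists
    exact ⟨c, hc'.1, hc'.2, hc⟩
  -- `p` is bounded by `1/c`
  have hbound : ∀ X, 0 ≤ X → X < u → Real.exp (-(X ^ 2 / (2 * c))) ≤ s X := by
    intro X hX hXu
    have hpos : ∀ x ∈ Set.Icc 0 X, 0 < s x := fun x hx => hbelow x hx.1 (lt_of_le_of_lt hx.2 hXu)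
    obtain ⟨p, q, hpd, hp1, hq6, hp0, -, hqp, hlog⟩ := ode2_zero_key hs h0 h1 h2 h3 hode hX hpos
    have hpc : ∀ x ∈ Set.Icc 0 X, p x ≤ 1 / c := by
      intro x hx
      have hsub : Set.Icc 0 x ⊆ Set.Icc 0 X := Set.Icc_subset_Icc le_rfl hx.2
      have h4 := ode2_zero_sub hx.1 (fun t ht => hpd t (hsub ht)) (fun t ht => hp1 t (hsub ht))
        (fun t ht => hq6 t (hsub ht)) hp0 (fun t ht => hqp t (hsub ht))
      have hp : 0 < p x := lt_of_lt_of_le one_pos (hp1 x hx)
      by_contra hcon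
      rw [not_le, div_lt_iff₀ hc0] at hcon
      have h5 : (p x)⁻¹ < c := by
        rw [inv_lt_iff_one_lt_mul₀ hp, mul_comm]
        exact hcon
      have h6 : 0 < (p x)⁻¹ := inv_pos.2 hp
      have h7 : ∫ t in (p x)⁻¹..1, ode2_zero_g t = (∫ t in (p x)⁻¹..c, ode2_zero_g t) +
          ∫ t in c..1, ode2_zero_g t :=
        (intervalIntegral.integral_add_adjacent_intervals
          (hint h6.le (h5.le.trans hc1) hc0.le hc1) (hint hc0.le hc1 zero_le_one le_rfl)).symm
      have h8 : 0 ≤ ∫ t in (p x)⁻¹..c, ode2_zero_g t :=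
        intervalIntegral.integral_nonneg h5.le fun t _ => hgnn t
      have h9 : x ≤ X := hx.2
      linarith
    have hT0 : ∀ x, HasDerivAt s (iteratedDeriv 1 s x) x := fun x => by
      rw [iteratedDeriv_one]
      exact ((hs.differentiable (by simp)) x).hasDerivAt
    have k1 : ∀ x ∈ Set.Icc 0 X, HasDerivAt (fun x => iteratedDeriv 1 s x / s x + x / c)
        (-p x + 1 / c) x := fun x hx => (hlog x hx).add ((hasDerivAt_id x).div_const c)
    have hI0 : (0 : ℝ) ∈ Set.Icc 0 X := ⟨le_rfl, hX⟩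
    have k2 : ∀ x ∈ Set.Icc 0 X, 0 ≤ iteratedDeriv 1 s x / s x + x / c := by
      intro x hx
      have := ode2_zero_mono k1 (fun x hx => by linarith [hpc x hx]) hI0 hx hx.1
      simpa [h1] using this
    have k3 : ∀ x ∈ Set.Icc 0 X, HasDerivAt (fun x => s x * Real.exp (x ^ 2 / (2 * c)))
        (s x * Real.exp (x ^ 2 / (2 * c)) * (iteratedDeriv 1 s x / s x + x / c)) x := by
      intro x hx
      have hsx := (hpos x hx).ne'
      have e1 : HasDerivAt (fun x : ℝ => x ^ 2 / (2 * c)) (x / c) x := by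
        have := ((hasDerivAt_id x).pow 2).div_const (2 * c)
        refine this.congr_deriv ?_
        simp
        field_simp
      have := (hT0 x).mul e1.exp
      refine this.congr_deriv ?_
      field_simp
    have k4 := ode2_zero_mono k3 (fun x hx => by
      have := hpos x hx
      have := k2 x hx
      positivity) hI0 (⟨hX, le_rfl⟩ : X ∈ Set.Icc 0 X) hX
    simp only [h0] at k4
    have k5 : (1 : ℝ) ≤ s X * Real.exp (X ^ 2 / (2 * c)) := by
      simpa using k4
    rw [Real.exp_neg, inv_le_iff_one_le_mul₀ (Real.exp_pos _)]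
    linarith
  have hlim : Tendsto (fun X => s X - Real.exp (-(X ^ 2 / (2 * c)))) (𝓝[<] u)
      (𝓝 (s u - Real.exp (-(u ^ 2 / (2 * c))))) := by
    have h4 : Continuous fun X => s X - Real.exp (-(X ^ 2 / (2 * c))) := by fun_prop
    exact (h4.tendsto u).mono_left nhdsWithin_le_nhds
  have h5 : 0 ≤ s u - Real.exp (-(u ^ 2 / (2 * c))) := by
    refine ge_of_tendsto hlim ?_
    filter_upwards [Ioo_mem_nhdsLT hu0] with x hx
    exact sub_nonneg.2 (hbound x hx.1.le hx.2)
  rw [hsu] at h5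
  have h6 := Real.exp_pos (-(u ^ 2 / (2 * c)))
  linarith

private theorem Sf_rho_zero_im {f : ℂ → ℂ} (hf : Differentiable ℂ f)
    (h : ∀ n, (iteratedDeriv n f 0).im = 0) (x : ℝ) : (f x).im = 0 := by
  have h1 := Complex.hasSum_taylorSeries_of_entire hf 0 (x : ℂ)
  have h2 := Complex.hasSum_im h1
  have h3 : (fun n : ℕ => (((n.factorial : ℂ)⁻¹ • ((x : ℂ) - 0) ^ n • iteratedDeriv n f 0)).im) =
      fun _ => 0 := by
    funext n
    have e1 : ((n.factorial : ℂ)⁻¹ • ((x : ℂ) - 0) ^ n • iteratedDeriv n f 0) =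
        (((n.factorial : ℝ)⁻¹ * x ^ n : ℝ) : ℂ) * iteratedDeriv n f 0 := by
      rw [sub_zero, smul_eq_mul, smul_eq_mul]
      push_cast
      ring
    rw [e1, Complex.im_ofReal_mul, h n]
    simp
  rw [h3] at h2
  exact h2.unique hasSum_zero

private theorem Sf_rho_zero_iter {g : ℂ → ℂ} (n k : ℕ) :
    iteratedDeriv n (iteratedDeriv k g) = iteratedDeriv (n + k) g := by
  rw [iteratedDeriv_eq_iterate, iteratedDeriv_eq_iterate, iteratedDeriv_eq_iterate,
    Function.iterate_add_apply]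

private theorem Sf_rho_zero_diff {g : ℂ → ℂ} (hg : Differentiable ℂ g) (k : ℕ) :
    Differentiable ℂ (iteratedDeriv k g) := by
  induction k with
  | zero => simpa using hg
  | succ k ih =>
    rw [iteratedDeriv_succ]
    exact ih.deriv

private theorem Sf_rho_zero_re {g : ℂ → ℂ} (hg : Differentiable ℂ g) (k : ℕ) :
    iteratedDeriv k (fun x : ℝ => (g x).re) = fun x : ℝ => (iteratedDeriv k g x).re := by
  induction k with
  | zero => simp
  | succ k ih =>
    rw [iteratedDeriv_succ, ih]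
    funext x
    have h1 : HasDerivAt (iteratedDeriv k g) (iteratedDeriv (k + 1) g x) (x : ℂ) := by
      rw [iteratedDeriv_succ]
      exact ((Sf_rho_zero_diff hg k) x).hasDerivAt
    exact h1.real_of_complex.deriv

/-- TA-Ed3. Let `μ² = D(0)`. The function `u ↦ S(u/μ)` has integer Taylor coefficients at `0` (times `n!`,
`hurwitz_of_ode` with `ε = 1`, `c = 0`), so it is real on the real axis; apply `ode2_zero`. -/
theorem Sf_rho_zero {μ : ℂ} (hμ : μ ^ 2 = Dv (Sf rho) 0) : Sf rho (w2 / (2 * μ)) = 0 := by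
  have hτ : 0 < rho.im := by
    rw [rho_im]
    positivity
  have hS := Sf_differentiable hτ
  have hS0 : Sf rho 0 = 1 := Sf_zero theta_zero_rho
  have hS1 := iteratedDeriv_odd_zero hS (Sf_neg rho) 1 (by decide)
  have hS3 := iteratedDeriv_odd_zero hS (Sf_neg rho) 3 (by decide)
  have hS2 : iteratedDeriv 2 (Sf rho) 0 = -μ ^ 2 := by
    rw [hμ, Dv, hS0, hS1]
    ring
  have hμ0 : μ ≠ 0 := by
    rintro rfl
    exact Dv_rho_ne (by rw [← hμ]; norm_num)
  obtain ⟨a, ha⟩ := hurwitz_of_ode hS hS0 hS1 hS3 μ 0 1 0 (by rw [hS2]; push_cast; ring)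
    (by push_cast; ring) (fun z => by rw [ode_rho z, zero_mul])
  set g : ℂ → ℂ := fun u => Sf rho (μ⁻¹ * u) with hg
  have hgd : Differentiable ℂ g := hS.comp ((differentiable_const _).mul differentiable_id)
  have hgn : ∀ n u, iteratedDeriv n g u = μ⁻¹ ^ n * iteratedDeriv n (Sf rho) (μ⁻¹ * u) := by
    intro n u
    have h1 := congrFun (iteratedDeriv_comp_const_mul (n := n) (f := Sf rho) hS.contDiff μ⁻¹) u
    exact h1
  have hg0 : ∀ n, iteratedDeriv n g 0 = (a n : ℂ) := by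
    intro n
    rw [hgn, mul_zero, ha n, ← mul_assoc, ← mul_pow, inv_mul_cancel₀ hμ0, one_pow, one_mul]
  have him : ∀ k (x : ℝ), (iteratedDeriv k g x).im = 0 := by
    intro k x
    refine Sf_rho_zero_im (Sf_rho_zero_diff hgd k) (fun n => ?_) x
    rw [Sf_rho_zero_iter, hg0, Complex.intCast_im]
  set s : ℝ → ℝ := fun x => (g x).re with hs
  have hsn : ∀ k (x : ℝ), iteratedDeriv k g x = ((iteratedDeriv k s x : ℝ) : ℂ) := by
    intro k x
    rw [Sf_rho_zero_re hgd k]
    exact Complex.ext (by simp) (by rw [him k x]; simp)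
  have hsn0 : ∀ x : ℝ, g x = ((s x : ℝ) : ℂ) := by
    intro x
    have := hsn 0 x
    simpa using this
  have hsc : ContDiff ℝ ⊤ s := by
    have h1 : ContDiff ℝ ⊤ g := (hgd.contDiff (n := ⊤)).restrict_scalars ℝ
    exact Complex.reCLM.contDiff.comp (h1.comp Complex.ofRealCLM.contDiff)
  have key := ode2_zero (s := s) hsc ?_ ?_ ?_ ?_ ?_
  · have h1 := hsn0 (w2 / 2)
    rw [key] at h1
    simp only [hg, ofReal_zero] at h1
    rw [← h1]
    congr 1
    push_cast
    field_simp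
  · have h1 := hsn0 0
    simp only [hg, ofReal_zero, mul_zero, hS0] at h1
    exact_mod_cast h1.symm
  · have h1 := hsn 1 0
    rw [ofReal_zero, hgn, mul_zero, hS1, mul_zero] at h1
    exact_mod_cast h1.symm
  · have h1 := hsn 2 0
    rw [ofReal_zero, hgn, mul_zero, hS2] at h1
    have h2 : μ⁻¹ ^ 2 * -μ ^ 2 = ((-1 : ℝ) : ℂ) := by
      push_cast
      field_simp
    rw [h2] at h1
    exact_mod_cast h1.symm
  · have h1 := hsn 3 0
    rw [ofReal_zero, hgn, mul_zero, hS3, mul_zero] at h1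
    exact_mod_cast h1.symm
  · intro x
    have h1 : g x * iteratedDeriv 4 g x - 4 * iteratedDeriv 1 g x * iteratedDeriv 3 g x +
        3 * iteratedDeriv 2 g x ^ 2 = 0 := by
      have h2 := ode_rho (μ⁻¹ * x)
      rw [Qv] at h2
      rw [hgn, hgn, hgn, hgn]
      simp only [hg]
      linear_combination (μ⁻¹ ^ 4) * h2
    rw [hsn0, hsn 4, hsn 1, hsn 3, hsn 2] at h1
    exact_mod_cast h1

private theorem first_int_rho_diff {g : ℂ → ℂ} (hg : Differentiable ℂ g) (k : ℕ) :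
    Differentiable ℂ (iteratedDeriv k g) := by
  induction k with
  | zero => simpa using hg
  | succ k ih =>
    rw [iteratedDeriv_succ]
    exact ih.deriv

private theorem first_int_rho_has {g : ℂ → ℂ} (hg : Differentiable ℂ g) (k : ℕ) (z : ℂ) :
    HasDerivAt (iteratedDeriv k g) (iteratedDeriv (k + 1) g z) z := by
  rw [iteratedDeriv_succ]
  exact ((first_int_rho_diff hg k) z).hasDerivAt

private theorem first_int_rho_alg {S : ℂ → ℂ} (hS : Differentiable ℂ S) (hQ : ∀ z, Qv S z = 0)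
    (h0 : S 0 = 1) (h1 : iteratedDeriv 1 S 0 = 0) (h3 : iteratedDeriv 3 S 0 = 0) (z : ℂ) :
    (deriv (Dv S) z * S z - 2 * Dv S z * deriv S z) ^ 2 =
      4 * Dv S z ^ 3 - 4 * Dv S 0 ^ 3 * S z ^ 6 := by
  have hT := first_int_rho_has hS
  have hT0 : ∀ z, HasDerivAt S (iteratedDeriv 1 S z) z := fun z => by
    have := hT 0 z
    rwa [iteratedDeriv_zero] at this
  have hDd : ∀ z, HasDerivAt (Dv S) (iteratedDeriv 1 S z * iteratedDeriv 2 S z -
      S z * iteratedDeriv 3 S z) z := by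
    intro z
    have k := ((hT 1 z).pow 2).sub ((hT0 z).mul (hT 2 z))
    have e : Dv S = (iteratedDeriv 1 S ^ 2 - S * iteratedDeriv 2 S) := by
      funext w
      rfl
    rw [e]
    refine k.congr_deriv ?_
    push_cast
    ring
  have hdD : deriv (Dv S) = fun z => iteratedDeriv 1 S z * iteratedDeriv 2 S z -
      S z * iteratedDeriv 3 S z := funext fun z => (hDd z).deriv
  have hdS : deriv S = iteratedDeriv 1 S := iteratedDeriv_one.symm
  set E : ℂ → ℂ := fun z => deriv (Dv S) z * S z - 2 * Dv S z * deriv S z with hE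
  have hEd : ∀ z, HasDerivAt E ((iteratedDeriv 2 S z ^ 2 - S z * iteratedDeriv 4 S z) * S z -
      (iteratedDeriv 1 S z * iteratedDeriv 2 S z - S z * iteratedDeriv 3 S z) *
        iteratedDeriv 1 S z - 2 * Dv S z * iteratedDeriv 2 S z) z := by
    intro z
    rw [hE, hdD, hdS]
    have k1 := (((hT 1 z).mul (hT 2 z)).sub ((hT0 z).mul (hT 3 z))).mul (hT0 z)
    have k2 := ((hDd z).const_mul 2).mul (hT 1 z)
    refine (k1.sub k2).congr_deriv ?_
    simp only [Pi.sub_apply, Pi.mul_apply]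
    ring
  set c : ℂ := Dv S 0 ^ 3 with hc
  set H : ℂ → ℂ := fun z => E z ^ 2 - 4 * Dv S z ^ 3 + 4 * c * S z ^ 6 with hH
  have hHd : ∀ z, ∃ d, HasDerivAt H d z ∧ d * S z = 6 * H z * iteratedDeriv 1 S z := by
    intro z
    have k := (((hEd z).pow 2).sub (((hDd z).pow 3).const_mul 4)).add (((hT0 z).pow 6).const_mul (4 * c))
    refine ⟨_, k, ?_⟩
    have hq := hQ z
    simp only [hH, hE, hdD, hdS, Dv, Qv] at hq ⊢
    push_cast
    linear_combination (-2 * ((iteratedDeriv 1 S z * iteratedDeriv 2 S z -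
      S z * iteratedDeriv 3 S z) * S z - 2 * (iteratedDeriv 1 S z ^ 2 - S z * iteratedDeriv 2 S z) *
        iteratedDeriv 1 S z) * S z ^ 2) * hq
  have hH0 : H 0 = 0 := by
    simp only [hH, hE, hdD, hdS, hc, Dv, h0, h1, h3]
    ring
  have hHdiff : Differentiable ℂ H := fun z => by
    obtain ⟨d, hd, -⟩ := hHd z
    exact hd.differentiableAt
  have hSne : ∀ᶠ w in 𝓝 (0 : ℂ), S w ≠ 0 :=
    hS.continuous.continuousAt.eventually_ne (by rw [h0]; exact one_ne_zero)
  obtain ⟨r, hr, hball⟩ := Metric.eventually_nhds_iff_ball.1 hSne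
  have hKd : ∀ w ∈ Metric.ball (0 : ℂ) r, HasDerivAt (fun z => H z / S z ^ 6) 0 w := by
    intro w hw
    obtain ⟨d, hd, hd'⟩ := hHd w
    have hs := hball w hw
    have k := hd.div ((hT0 w).pow 6) (pow_ne_zero 6 hs)
    refine k.congr_deriv ?_
    rw [div_eq_zero_iff]
    left
    push_cast
    simp only [Pi.pow_apply]
    linear_combination (S w ^ 5) * hd'
  have hloc : ∀ᶠ w in 𝓝 (0 : ℂ), H w = 0 := by
    filter_upwards [Metric.ball_mem_nhds (0 : ℂ) hr] with w hw
    have k := Metric.isOpen_ball.is_const_of_deriv_eq_zero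
      (convex_ball (0 : ℂ) r).isPreconnected
      (fun v hv => (hKd v hv).differentiableAt.differentiableWithinAt)
      (fun v hv => (hKd v hv).deriv) hw (Metric.mem_ball_self hr)
    rw [hH0, zero_div, div_eq_zero_iff] at k
    exact k.resolve_right (pow_ne_zero 6 (hball w hw))
  have hall : H z = 0 := by
    have han : AnalyticOnNhd ℂ H Set.univ :=
      hHdiff.differentiableOn.analyticOnNhd isOpen_univ
    exact han.eqOn_zero_of_preconnected_of_eventuallyEq_zero isPreconnected_univ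
      (Set.mem_univ 0) hloc (Set.mem_univ z)
  have h4 : E z ^ 2 - 4 * Dv S z ^ 3 + 4 * c * S z ^ 6 = 0 := hall
  have h5 : E z = deriv (Dv S) z * S z - 2 * Dv S z * deriv S z := rfl
  rw [h5] at h4
  linear_combination h4

/-- TA-Ed4. First integral `P'² = 4P³ - 4e³`, `P' = (D'S - 2DS')/S³`: near `0` from `P'' = 6P²` and
`P(0) = e`, `P'(0) = 0`; everywhere by the identity theorem. -/
theorem first_int_rho (z : ℂ) :
    (deriv (Dv (Sf rho)) z * Sf rho z - 2 * Dv (Sf rho) z * deriv (Sf rho) z) ^ 2 =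
      4 * Dv (Sf rho) z ^ 3 - 4 * Dv (Sf rho) 0 ^ 3 * Sf rho z ^ 6 := by
  have hτ : 0 < rho.im := by
    rw [rho_im]
    positivity
  have hS := Sf_differentiable hτ
  exact first_int_rho_alg hS ode_rho (Sf_zero theta_zero_rho)
    (iteratedDeriv_odd_zero hS (Sf_neg rho) 1 (by decide))
    (iteratedDeriv_odd_zero hS (Sf_neg rho) 3 (by decide)) z

private theorem simple_zero_ent {S : ℂ → ℂ} (hS : Differentiable ℂ S) :
    Differentiable ℂ (deriv S) :=
  differentiableOn_univ.1 (hS.differentiableOn.deriv isOpen_univ)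

private theorem simple_zero_d2 (S : ℂ → ℂ) : iteratedDeriv 2 S = deriv (deriv S) := by
  rw [iteratedDeriv_succ, iteratedDeriv_one]

private theorem simple_zero_Dv (S : ℂ → ℂ) (z : ℂ) :
    Dv S z = deriv S z ^ 2 - S z * deriv (deriv S) z := by
  rw [Dv, simple_zero_d2, iteratedDeriv_one]

private theorem simple_zero_two {S c : ℂ → ℂ} (hS : Differentiable ℂ S) (hc : Differentiable ℂ c)
    {A B z : ℂ} (h : ∀ t, S (z + t) * S (z - t) = A * S t ^ 2 + B * c t) (h0 : S 0 = 1)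
    (h1 : deriv S 0 = 0) : 2 * (S z * deriv (deriv S) z - deriv S z ^ 2) =
      A * (2 * deriv (deriv S) 0) + B * deriv (deriv c) 0 := by
  have hS' := simple_zero_ent hS
  have hc' := simple_zero_ent hc
  have p1 : ∀ {f : ℂ → ℂ}, Differentiable ℂ f → ∀ t,
      HasDerivAt (fun t => f (z + t)) (deriv f (z + t)) t := fun {f} hf t => by
    have := (hf (z + t)).hasDerivAt.comp t ((hasDerivAt_id t).const_add z)
    rwa [mul_one] at this
  have p2 : ∀ {f : ℂ → ℂ}, Differentiable ℂ f → ∀ t,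
      HasDerivAt (fun t => f (z - t)) (-deriv f (z - t)) t := fun {f} hf t => by
    have := (hf (z - t)).hasDerivAt.comp t ((hasDerivAt_id t).const_sub z)
    rwa [mul_neg, mul_one] at this
  have e1 : (fun t => S (z + t) * S (z - t)) = fun t => A * S t ^ 2 + B * c t := funext h
  have d1 : ∀ t, HasDerivAt (fun t => S (z + t) * S (z - t))
      (deriv S (z + t) * S (z - t) + S (z + t) * -deriv S (z - t)) t := fun t =>
    (p1 hS t).mul (p2 hS t)
  have d2 : ∀ t, HasDerivAt (fun t => A * S t ^ 2 + B * c t)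
      (A * (2 * S t * deriv S t) + B * deriv c t) t := fun t => by
    have k := (((hS t).hasDerivAt.pow 2).const_mul A).add ((hc t).hasDerivAt.const_mul B)
    refine k.congr_deriv ?_
    push_cast
    ring
  have e2 : (fun t => deriv S (z + t) * S (z - t) + S (z + t) * -deriv S (z - t)) =
      fun t => A * (2 * S t * deriv S t) + B * deriv c t := by
    funext t
    have k := d1 t
    rw [e1] at k
    exact k.unique (d2 t)
  have d3 := ((p1 hS' 0).mul (p2 hS 0)).add ((p1 hS 0).mul (p2 hS' 0).neg)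
  have d4 := ((((hS 0).hasDerivAt.const_mul 2).mul (hS' 0).hasDerivAt).const_mul A).add
    ((hc' 0).hasDerivAt.const_mul B)
  have d3' : HasDerivAt (fun t => deriv S (z + t) * S (z - t) + S (z + t) * -deriv S (z - t)) _ 0 :=
    d3
  rw [e2] at d3'
  have k := d3'.unique d4
  rw [add_zero, sub_zero] at k
  have k' : (-fun t : ℂ => deriv S (z - t)) 0 = -deriv S z := by
    rw [Pi.neg_apply, sub_zero]
  rw [k', h0, h1] at k
  linear_combination k

private theorem simple_zero_im : 0 < rho.im := by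
  rw [rho_im]
  have : 0 < Real.sqrt 3 := Real.sqrt_pos.2 (by norm_num)
  linarith

private theorem simple_zero_anal {f : ℂ → ℂ} (hf : Differentiable ℂ f) :
    AnalyticOnNhd ℂ f Set.univ := fun z _ =>
  (hf.differentiableOn.analyticOnNhd isOpen_univ) z (Set.mem_univ z)

/-- an entire function that vanishes near a point is zero -/
private theorem simple_zero_id {f : ℂ → ℂ} (hf : Differentiable ℂ f) {a : ℂ}
    (h : ∀ᶠ z in 𝓝 a, f z = 0) (z : ℂ) : f z = 0 :=
  (simple_zero_anal hf).eqOn_zero_of_preconnected_of_eventuallyEq_zero isPreconnected_univ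
    (Set.mem_univ a) h (Set.mem_univ z)

/-- TA-Ed5. The zeros of `Sf rho` are simple: if the order is `m ≥ 2`, the leading coefficient of `Q` at the zero is
`6 m (m-1)` times a nonzero number (or: `m ≥ 2` gives `D` of order `2m-2`, `S⁶` of order `6m`, and in
`first_int_rho` the left side has order `≥ 2(3m-3)` with leading coefficient `4 m²·(m c³)²...`; the first way is easier:
`S(z₀) = S'(z₀) = 0` and `Q = 0` give `S''(z₀) = 0`; in general compare leading coefficients). -/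
theorem simple_zero {z₀ : ℂ} (h : Sf rho z₀ = 0) : deriv (Sf rho) z₀ ≠ 0 := by
  intro h'
  have hS := Sf_differentiable simple_zero_im
  have h0 := Sf_zero theta_zero_rho
  have h1 : deriv (Sf rho) 0 = 0 := by
    have := iteratedDeriv_odd_zero hS (Sf_neg rho) 1 (by decide)
    rwa [iteratedDeriv_one] at this
  obtain ⟨c, hc, -, -, hadd⟩ := Sf_addition simple_zero_im theta_zero_rho
  have key : ∀ z, 2 * (Sf rho z * deriv (deriv (Sf rho)) z - deriv (Sf rho) z ^ 2) =
      Sf rho z ^ 2 * (2 * deriv (deriv (Sf rho)) 0) + c z * deriv (deriv c) 0 := fun z =>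
    simple_zero_two hS hc (fun t => hadd z t) h0 h1
  have k0 := key z₀
  rw [h, h'] at k0
  have k1 : c z₀ * deriv (deriv c) 0 = 0 := by linear_combination -k0
  rcases mul_eq_zero.1 k1 with k2 | k2
  · -- the product of the values at `z₀ + t` and `z₀ - t` is zero
    have k3 : ∀ t, Sf rho (z₀ + t) * Sf rho (z₀ - t) = 0 := fun t => by
      rw [hadd, h, k2]
      ring
    have k4 : ∀ᶠ w in 𝓝 (2 * z₀), Sf rho w = 0 := by
      have k5 : Tendsto (fun w : ℂ => Sf rho (2 * z₀ - w)) (𝓝 (2 * z₀)) (𝓝 (Sf rho 0)) := by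
        have k6 : Continuous fun w : ℂ => Sf rho (2 * z₀ - w) :=
          hS.continuous.comp (continuous_const.sub continuous_id)
        have k7 := k6.tendsto (2 * z₀)
        rwa [sub_self] at k7
      have k8 : ∀ᶠ w in 𝓝 (2 * z₀), Sf rho (2 * z₀ - w) ≠ 0 :=
        k5.eventually_ne (by rw [h0]; exact one_ne_zero)
      filter_upwards [k8] with w hw
      have k9 := k3 (w - z₀)
      have e1 : z₀ + (w - z₀) = w := by ring
      have e2 : z₀ - (w - z₀) = 2 * z₀ - w := by ring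
      rw [e1, e2] at k9
      exact (mul_eq_zero.1 k9).resolve_right hw
    have k10 := simple_zero_id hS k4 0
    rw [h0] at k10
    exact one_ne_zero k10
  · obtain ⟨z, hz⟩ := Sf_nonconst simple_zero_im theta_zero_rho (-deriv (deriv (Sf rho)) 0)
    apply hz
    have k3 := key z
    rw [k2] at k3
    rw [simple_zero_Dv]
    linear_combination (-1 / 2 : ℂ) * k3

/-- TA-Ed6. Uniqueness for analytic functions: `y'' = 2 - 8 e³ y³` near `0` in `ℂ` for `y₁` and `y₂`, same value and same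
first derivative at `0`: `δ = y₁ - y₂` satisfies `δ'' = q δ` with `q` analytic; if `δ` is not `0` near `0`, it has an order
`m ≥ 2`, `δ''` has order `m - 2` and `q δ` has order `≥ m`. -/
theorem analytic_unique {y₁ y₂ : ℂ → ℂ} (c : ℂ) (h₁ : AnalyticAt ℂ y₁ 0) (h₂ : AnalyticAt ℂ y₂ 0)
    (e₁ : ∀ᶠ w in 𝓝 (0 : ℂ), iteratedDeriv 2 y₁ w = 2 - c * y₁ w ^ 3)
    (e₂ : ∀ᶠ w in 𝓝 (0 : ℂ), iteratedDeriv 2 y₂ w = 2 - c * y₂ w ^ 3)
    (h0 : y₁ 0 = y₂ 0) (h1 : deriv y₁ 0 = deriv y₂ 0) : ∀ᶠ w in 𝓝 (0 : ℂ), y₁ w = y₂ w := by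
  have hd1 : ∀ᶠ w in 𝓝 (0 : ℂ), deriv (fun w => y₁ w - y₂ w) w = deriv y₁ w - deriv y₂ w := by
    filter_upwards [h₁.eventually_analyticAt, h₂.eventually_analyticAt] with w k1 k2
    exact deriv_fun_sub k1.differentiableAt k2.differentiableAt
  have hd1' : deriv (fun w => y₁ w - y₂ w) =ᶠ[𝓝 0] fun w => deriv y₁ w - deriv y₂ w := hd1
  have hd2 : deriv (deriv (fun w => y₁ w - y₂ w)) =ᶠ[𝓝 0]
      fun w => iteratedDeriv 2 y₁ w - iteratedDeriv 2 y₂ w := by
    have k0 := hd1'.deriv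
    refine k0.trans ?_
    filter_upwards [h₁.deriv.eventually_analyticAt, h₂.deriv.eventually_analyticAt] with w k1 k2
    rw [deriv_fun_sub k1.differentiableAt k2.differentiableAt, simple_zero_d2, simple_zero_d2]
  have hδ : AnalyticAt ℂ (fun w => y₁ w - y₂ w) 0 := h₁.sub h₂
  have hq : AnalyticAt ℂ (fun w => -c * (y₁ w ^ 2 + y₁ w * y₂ w + y₂ w ^ 2)) 0 := by
    fun_prop
  have hd3 : deriv (deriv (fun w => y₁ w - y₂ w)) =ᶠ[𝓝 0]
      (fun w => -c * (y₁ w ^ 2 + y₁ w * y₂ w + y₂ w ^ 2)) * (fun w => y₁ w - y₂ w) := by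
    refine hd2.trans ?_
    filter_upwards [e₁, e₂] with w k1 k2
    rw [k1, k2, Pi.mul_apply]
    ring
  have o1 := hδ.analyticOrderAt_deriv_add_one
  have o2 := hδ.deriv.analyticOrderAt_deriv_add_one
  have z1 : (fun w => (fun w => y₁ w - y₂ w) w - (fun w => y₁ w - y₂ w) 0) =
      fun w => y₁ w - y₂ w := by
    funext w
    simp [h0]
  have z2 : (fun w => deriv (fun w => y₁ w - y₂ w) w - deriv (fun w => y₁ w - y₂ w) 0) =
      deriv (fun w => y₁ w - y₂ w) := by
    funext w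
    rw [hd1.self_of_nhds, h1, sub_self, sub_zero]
  rw [z1] at o1
  rw [z2, analyticOrderAt_congr hd3, analyticOrderAt_mul hq hδ] at o2
  have key : analyticOrderAt (fun w => y₁ w - y₂ w) 0 = ⊤ := by
    generalize analyticOrderAt (fun w => y₁ w - y₂ w) 0 = n at o1 o2
    generalize analyticOrderAt (deriv (fun w => y₁ w - y₂ w)) 0 = m at o1 o2
    generalize analyticOrderAt (fun w => -c * (y₁ w ^ 2 + y₁ w * y₂ w + y₂ w ^ 2)) 0 = k at o2
    induction n using ENat.recTopCoe with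
    | top => rfl
    | coe n =>
      exfalso
      have hm : m ≠ ⊤ := by
        rintro rfl
        simp at o1
      have hk : k ≠ ⊤ := by
        rintro rfl
        simp at o2
        exact hm o2.symm
      lift m to ℕ using hm
      lift k to ℕ using hk
      norm_cast at o1 o2
      omega
  rw [analyticOrderAt_eq_top] at key
  filter_upwards [key] with w hw
  exact sub_eq_zero.1 hw

private theorem even_about_zero_it {S : ℂ → ℂ} (hS : Differentiable ℂ S) (n : ℕ) (z : ℂ) :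
    HasDerivAt (iteratedDeriv n S) (iteratedDeriv (n + 1) S z) z := by
  have h := (hS.contDiff (n := ⊤)).differentiable_iteratedDeriv n (WithTop.coe_lt_top _)
  rw [iteratedDeriv_succ]
  exact (h z).hasDerivAt

private theorem even_about_zero_it0 {S : ℂ → ℂ} (hS : Differentiable ℂ S) (z : ℂ) :
    HasDerivAt S (iteratedDeriv 1 S z) z := by
  have h := even_about_zero_it hS 0 z
  rwa [iteratedDeriv_zero] at h

private theorem even_about_zero_D {S : ℂ → ℂ} (hS : Differentiable ℂ S) (z : ℂ) :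
    HasDerivAt (Dv S) (iteratedDeriv 1 S z * iteratedDeriv 2 S z - S z * iteratedDeriv 3 S z) z := by
  have h0 := even_about_zero_it0 hS z
  have h1 := even_about_zero_it hS 1 z
  have h2 := even_about_zero_it hS 2 z
  have h := (h1.pow 2).sub (h0.mul h2)
  refine (h.congr_deriv ?_)
  norm_num
  ring

/-- `F = D' S - 2 D S'` -/
private noncomputable def even_about_zero_F (S : ℂ → ℂ) (z : ℂ) : ℂ :=
  3 * S z * iteratedDeriv 1 S z * iteratedDeriv 2 S z - S z ^ 2 * iteratedDeriv 3 S z -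
    2 * iteratedDeriv 1 S z ^ 3

private theorem even_about_zero_hF {S : ℂ → ℂ} (hS : Differentiable ℂ S) (z : ℂ) :
    HasDerivAt (even_about_zero_F S) (3 * S z * iteratedDeriv 2 S z ^ 2 -
      3 * iteratedDeriv 1 S z ^ 2 * iteratedDeriv 2 S z +
      S z * iteratedDeriv 1 S z * iteratedDeriv 3 S z - S z ^ 2 * iteratedDeriv 4 S z) z := by
  have h0 := even_about_zero_it0 hS z
  have h1 := even_about_zero_it hS 1 z
  have h2 := even_about_zero_it hS 2 z
  have h3 := even_about_zero_it hS 3 z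
  have h := ((((h0.const_mul 3).mul h1).mul h2).sub ((h0.pow 2).mul h3)).sub
    ((h1.pow 3).const_mul 2)
  refine (h.congr_deriv ?_)
  norm_num
  ring

private theorem even_about_zero_Y {S : ℂ → ℂ} (hS : Differentiable ℂ S) {z : ℂ}
    (hD : Dv S z ≠ 0) :
    HasDerivAt (fun z => S z ^ 2 / Dv S z) (-(S z * even_about_zero_F S z) / Dv S z ^ 2) z := by
  have h0 := even_about_zero_it0 hS z
  have h := (h0.pow 2).div (even_about_zero_D hS z) hD
  refine (h.congr_deriv ?_)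
  congr 1
  unfold even_about_zero_F Dv
  norm_num
  ring

private theorem even_about_zero_alg {s0 s1 s2 s3 s4 D F e : ℂ} (hD : D ≠ 0)
    (eD : D = s1 ^ 2 - s0 * s2) (eF : F = 3 * s0 * s1 * s2 - s0 ^ 2 * s3 - 2 * s1 ^ 3)
    (eQ : s0 * s4 - 4 * s1 * s3 + 3 * s2 ^ 2 = 0) (hF : F ^ 2 = 4 * D ^ 3 - 4 * e * s0 ^ 6) :
    (-(s1 * F + s0 * (3 * s0 * s2 ^ 2 - 3 * s1 ^ 2 * s2 + s0 * s1 * s3 - s0 ^ 2 * s4)) * D ^ 2 +
      s0 * F * (2 * D * (s1 * s2 - s0 * s3))) / D ^ 4 = 2 - 8 * e * (s0 ^ 2 / D) ^ 3 := by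
  have h2 : 2 * D ^ 3 - 8 * e * s0 ^ 6 = 2 * F ^ 2 - 6 * D ^ 3 := by
    rw [hF]
    ring
  have key : -(s1 * F + s0 * (3 * s0 * s2 ^ 2 - 3 * s1 ^ 2 * s2 + s0 * s1 * s3 -
      s0 ^ 2 * s4)) * D ^ 2 + s0 * F * (2 * D * (s1 * s2 - s0 * s3)) =
      D * (2 * D ^ 3 - 8 * e * s0 ^ 6) := by
    have h3 : 3 * s1 * F - s0 * (3 * s0 * s2 ^ 2 - 3 * s1 ^ 2 * s2 + s0 * s1 * s3 -
        s0 ^ 2 * s4) + 6 * D ^ 2 = 0 := by
      rw [eF, eD]
      linear_combination s0 ^ 2 * eQ
    have h4 : F = (s1 * s2 - s0 * s3) * s0 - 2 * D * s1 := by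
      rw [eF, eD]
      ring
    rw [h2]
    linear_combination D ^ 2 * h3 - 2 * D * F * h4
  rw [key, div_pow]
  field_simp

private theorem even_about_zero_Y1 {S : ℂ → ℂ} (hS : Differentiable ℂ S) {z e : ℂ}
    (hD : Dv S z ≠ 0) (hQ : Qv S z = 0)
    (hF : even_about_zero_F S z ^ 2 = 4 * Dv S z ^ 3 - 4 * e * S z ^ 6) :
    HasDerivAt (fun z => -(S z * even_about_zero_F S z) / Dv S z ^ 2)
      (2 - 8 * e * (S z ^ 2 / Dv S z) ^ 3) z := by
  have h0 := even_about_zero_it0 hS z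
  have h := ((h0.mul (even_about_zero_hF hS z)).neg).div ((even_about_zero_D hS z).pow 2)
    (pow_ne_zero 2 hD)
  refine (h.congr_deriv ?_)
  rw [← even_about_zero_alg (s4 := iteratedDeriv 4 S z) (D := Dv S z)
    (F := even_about_zero_F S z) hD rfl rfl hQ hF]
  simp only [Pi.mul_apply, Pi.pow_apply, Pi.neg_apply]
  generalize Dv S z = D
  generalize even_about_zero_F S z = F
  rw [← pow_mul]
  congr 1
  norm_num

private theorem even_about_zero_abs {Y Y1 : ℂ → ℂ} {e z₀ : ℂ}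
    (h1 : ∀ᶠ z in 𝓝 z₀, HasDerivAt Y (Y1 z) z)
    (h2 : ∀ᶠ z in 𝓝 z₀, HasDerivAt Y1 (2 - 8 * e * Y z ^ 3) z) (h0' : Y1 z₀ = 0) :
    ∀ᶠ w in 𝓝 (0 : ℂ), Y (z₀ + w) = Y (z₀ - w) := by
  have key : ∀ σ : ℂ, σ ^ 2 = 1 →
      AnalyticAt ℂ (fun w => Y (z₀ + σ * w)) 0 ∧
      (∀ᶠ w in 𝓝 (0 : ℂ), iteratedDeriv 2 (fun w => Y (z₀ + σ * w)) w =
        2 - 8 * e * Y (z₀ + σ * w) ^ 3) ∧
      deriv (fun w => Y (z₀ + σ * w)) 0 = 0 := by
    intro σ hσ
    have hl : ∀ w : ℂ, HasDerivAt (fun w => z₀ + σ * w) σ w := by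
      intro w
      have := ((hasDerivAt_id w).const_mul σ).const_add z₀
      simpa using this
    have htend : Tendsto (fun w : ℂ => z₀ + σ * w) (𝓝 0) (𝓝 z₀) := by
      have := (hl 0).continuousAt.tendsto
      simpa using this
    have f1 : ∀ᶠ w in 𝓝 (0 : ℂ), HasDerivAt (fun w => Y (z₀ + σ * w)) (Y1 (z₀ + σ * w) * σ) w := by
      filter_upwards [htend.eventually h1] with w hw
      exact HasDerivAt.comp w hw (hl w)
    have f2 : ∀ᶠ w in 𝓝 (0 : ℂ), HasDerivAt (fun w => Y1 (z₀ + σ * w) * σ)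
        (2 - 8 * e * Y (z₀ + σ * w) ^ 3) w := by
      filter_upwards [htend.eventually h2] with w hw
      have h3 : HasDerivAt (fun w => Y1 (z₀ + σ * w)) ((2 - 8 * e * Y (z₀ + σ * w) ^ 3) * σ) w :=
        HasDerivAt.comp w hw (hl w)
      have h4 := h3.mul_const σ
      refine h4.congr_deriv ?_
      rw [mul_assoc, ← pow_two, hσ, mul_one]
    refine ⟨?_, ?_, ?_⟩
    · rw [Complex.analyticAt_iff_eventually_differentiableAt]
      filter_upwards [f1] with w hw
      exact hw.differentiableAt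
    · filter_upwards [f1.eventually_nhds, f2] with w hw hw2
      have h3 : deriv (fun w => Y (z₀ + σ * w)) =ᶠ[𝓝 w] (fun w => Y1 (z₀ + σ * w) * σ) := by
        filter_upwards [hw] with v hv
        exact hv.deriv
      rw [iteratedDeriv_succ, iteratedDeriv_one, h3.deriv_eq]
      exact hw2.deriv
    · rw [f1.self_of_nhds.deriv, mul_zero, add_zero, h0', zero_mul]
  obtain ⟨a1, b1, c1⟩ := key 1 (by norm_num)
  obtain ⟨a2, b2, c2⟩ := key (-1) (by norm_num)
  have hun := analytic_unique (8 * e) a1 a2 b1 b2 (by simp) (by rw [c1, c2])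
  filter_upwards [hun] with v h3
  rw [one_mul, neg_one_mul, ← sub_eq_add_neg] at h3
  exact h3

private theorem even_about_zero_gen {S : ℂ → ℂ} (hS : Differentiable ℂ S) {z₀ : ℂ}
    (h : S z₀ = 0) (hsz : deriv S z₀ ≠ 0) (hode : ∀ z, Qv S z = 0)
    (hfi : ∀ z, (deriv (Dv S) z * S z - 2 * Dv S z * deriv S z) ^ 2 =
      4 * Dv S z ^ 3 - 4 * Dv S 0 ^ 3 * S z ^ 6) (w : ℂ) :
    Dv S (z₀ + w) * S (z₀ - w) ^ 2 = Dv S (z₀ - w) * S (z₀ + w) ^ 2 := by
  have hd1 : ∀ z, deriv S z = iteratedDeriv 1 S z := fun z => (even_about_zero_it0 hS z).deriv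
  have hD0 : Dv S z₀ ≠ 0 := by
    rw [Dv, h, zero_mul, sub_zero, ← hd1]
    exact pow_ne_zero 2 hsz
  have hDc : Differentiable ℂ (Dv S) := fun z => (even_about_zero_D hS z).differentiableAt
  have hev : ∀ᶠ z in 𝓝 z₀, Dv S z ≠ 0 := (hDc.continuous.continuousAt).eventually_ne hD0
  have hF : ∀ z, even_about_zero_F S z ^ 2 = 4 * Dv S z ^ 3 - 4 * (Dv S 0 ^ 3) * S z ^ 6 := by
    intro z
    rw [← hfi z, (even_about_zero_D hS z).deriv, hd1]
    unfold even_about_zero_F Dv
    ring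
  have hun := even_about_zero_abs (Y := fun z => S z ^ 2 / Dv S z)
    (Y1 := fun z => -(S z * even_about_zero_F S z) / Dv S z ^ 2) (e := Dv S 0 ^ 3) (z₀ := z₀)
    (by
      filter_upwards [hev] with z hz
      exact even_about_zero_Y hS hz)
    (by
      filter_upwards [hev] with z hz
      exact even_about_zero_Y1 hS hz (hode z) (hF z))
    (by rw [h]; simp)
  have hev1 : ∀ᶠ w in 𝓝 (0 : ℂ), Dv S (z₀ + w) ≠ 0 := by
    have ht : Tendsto (fun w : ℂ => z₀ + w) (𝓝 0) (𝓝 z₀) := by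
      have : ContinuousAt (fun w : ℂ => z₀ + w) 0 := by fun_prop
      simpa [ContinuousAt] using this
    exact ht.eventually hev
  have hev2 : ∀ᶠ w in 𝓝 (0 : ℂ), Dv S (z₀ - w) ≠ 0 := by
    have ht : Tendsto (fun w : ℂ => z₀ - w) (𝓝 0) (𝓝 z₀) := by
      have : ContinuousAt (fun w : ℂ => z₀ - w) 0 := by fun_prop
      simpa [ContinuousAt] using this
    exact ht.eventually hev
  have hloc : ∀ᶠ w in 𝓝 (0 : ℂ), Dv S (z₀ + w) * S (z₀ - w) ^ 2 =
      Dv S (z₀ - w) * S (z₀ + w) ^ 2 := by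
    filter_upwards [hun, hev1, hev2] with v h1 h2 h3
    rw [div_eq_div_iff h2 h3] at h1
    linear_combination -h1
  have hp : Differentiable ℂ (fun w : ℂ => z₀ + w) := by fun_prop
  have hm : Differentiable ℂ (fun w : ℂ => z₀ - w) := by fun_prop
  have hd2 : Differentiable ℂ (fun w => Dv S (z₀ + w) * S (z₀ - w) ^ 2) :=
    (hDc.comp hp).mul ((hS.comp hm).pow 2)
  have hd3 : Differentiable ℂ (fun w => Dv S (z₀ - w) * S (z₀ + w) ^ 2) :=
    (hDc.comp hm).mul ((hS.comp hp).pow 2)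
  have hfin := AnalyticOnNhd.eq_of_eventuallyEq (𝕜 := ℂ) (z₀ := (0 : ℂ))
    (fun x _ => (hd2.analyticAt x)) (fun x _ => (hd3.analyticAt x)) hloc
  exact congrFun hfin w

/-- TA-Ed7. `P` is even about a zero of `S`: `y = S²/D` is analytic near `z₀` (`D(z₀) = S'(z₀)² ≠ 0`), `y(z₀) = y'(z₀) = 0`,
`y'' = 2 - 8e³y³` (where `S ≠ 0` from `y = 1/P`, `P'' = 6P²`, `first_int_rho`; then by continuity);
`analytic_unique` for `w ↦ y(z₀+w)`, `w ↦ y(z₀-w)`; identity theorem for the entire identity. -/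
theorem even_about_zero {z₀ : ℂ} (h : Sf rho z₀ = 0) (w : ℂ) :
    Dv (Sf rho) (z₀ + w) * Sf rho (z₀ - w) ^ 2 = Dv (Sf rho) (z₀ - w) * Sf rho (z₀ + w) ^ 2 := by
  have hρ : 0 < rho.im := by
    rw [rho_im]
    positivity
  exact even_about_zero_gen (Sf_differentiable hρ) h (simple_zero h) ode_rho first_int_rho w

/-- `ω` is a period of `P` -/
private def period_mem_P (ω : ℂ) : Prop :=
  ∀ z, Dv (Sf rho) (z + ω) * Sf rho z ^ 2 = Dv (Sf rho) z * Sf rho (z + ω) ^ 2

private theorem period_mem_Dv {S : ℂ → ℂ} (hS : Differentiable ℂ S) : Differentiable ℂ (Dv S) := by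
  have h1 : Dv S = fun z => deriv S z ^ 2 - S z * deriv (deriv S) z :=
    funext fun z => simple_zero_Dv S z
  rw [h1]
  exact ((simple_zero_ent hS).pow 2).sub (hS.mul (simple_zero_ent (simple_zero_ent hS)))

private theorem period_mem_add {ω ω' : ℂ} (h : period_mem_P ω) (h' : period_mem_P ω') :
    period_mem_P (ω + ω') := by
  intro z
  have hS := Sf_differentiable simple_zero_im
  have hD := period_mem_Dv hS
  have d1 : Differentiable ℂ fun z : ℂ => Dv (Sf rho) (z + (ω + ω')) * Sf rho z ^ 2 -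
      Dv (Sf rho) z * Sf rho (z + (ω + ω')) ^ 2 :=
    ((hD.comp (differentiable_id.add_const _)).mul (hS.pow 2)).sub
      (hD.mul ((hS.comp (differentiable_id.add_const _)).pow 2))
  have k1 : ∀ z : ℂ, Sf rho (z + ω) ^ 2 * (Dv (Sf rho) (z + (ω + ω')) * Sf rho z ^ 2 -
      Dv (Sf rho) z * Sf rho (z + (ω + ω')) ^ 2) = 0 := by
    intro z
    have e1 := h z
    have e2 := h' (z + ω)
    rw [add_assoc] at e2
    linear_combination (Sf rho z ^ 2) * e2 + (Sf rho (z + (ω + ω')) ^ 2) * e1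
  have k2 : ∀ᶠ z in 𝓝 (-ω), Dv (Sf rho) (z + (ω + ω')) * Sf rho z ^ 2 -
      Dv (Sf rho) z * Sf rho (z + (ω + ω')) ^ 2 = 0 := by
    have k5 : Tendsto (fun w : ℂ => Sf rho (w + ω)) (𝓝 (-ω)) (𝓝 (Sf rho 0)) := by
      have k6 : Continuous fun w : ℂ => Sf rho (w + ω) :=
        hS.continuous.comp (continuous_id.add continuous_const)
      have k7 := k6.tendsto (-ω)
      rwa [neg_add_cancel] at k7
    have k8 : ∀ᶠ w in 𝓝 (-ω), Sf rho (w + ω) ≠ 0 :=
      k5.eventually_ne (by rw [Sf_zero theta_zero_rho]; exact one_ne_zero)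
    filter_upwards [k8] with w hw
    exact (mul_eq_zero.1 (k1 w)).resolve_left (pow_ne_zero 2 hw)
  exact sub_eq_zero.1 (simple_zero_id d1 k2 z)

private theorem period_mem_lat (m n : ℤ) : period_mem_P (m + n * rho) := by
  intro z
  have hS := Sf_differentiable simple_zero_im
  obtain ⟨χ, hχ, hadd⟩ := Sf_add simple_zero_im m n
  set lam : ℂ := m + n * rho with hlam
  set a : ℂ := hc rho * (starRingEnd ℂ) lam with ha
  set b : ℂ := hc rho * (lam * (starRingEnd ℂ) lam / 2) with hb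
  have hadd' : ∀ z, Sf rho (z + lam) = χ * cexp (a * z + b) * Sf rho z := by
    intro z
    rw [hadd z]
    congr 3
    rw [ha, hb]
    ring
  have hS' := simple_zero_ent hS
  have hE : ∀ z, HasDerivAt (fun z => χ * cexp (a * z + b)) (a * (χ * cexp (a * z + b))) z := by
    intro z
    have k1 : HasDerivAt (fun z : ℂ => a * z + b) a z := by
      have := ((hasDerivAt_id z).const_mul a).add_const b
      rwa [mul_one] at this
    have k2 := k1.cexp.const_mul χ
    refine k2.congr_deriv ?_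
    ring
  have t1 : ∀ {f : ℂ → ℂ}, Differentiable ℂ f → ∀ z,
      HasDerivAt (fun z => f (z + lam)) (deriv f (z + lam)) z := fun {f} hf z => by
    have := (hf (z + lam)).hasDerivAt.comp z ((hasDerivAt_id z).add_const lam)
    rwa [mul_one] at this
  have f1 : ∀ z, deriv (Sf rho) (z + lam) =
      χ * cexp (a * z + b) * (a * Sf rho z + deriv (Sf rho) z) := by
    intro z
    have k1 := t1 hS z
    have k2 : (fun z => Sf rho (z + lam)) = fun z => χ * cexp (a * z + b) * Sf rho z :=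
      funext hadd'
    rw [k2] at k1
    have k3 := k1.unique ((hE z).mul (hS z).hasDerivAt)
    rw [k3]
    ring
  have f2 : ∀ z, deriv (deriv (Sf rho)) (z + lam) =
      χ * cexp (a * z + b) * (a ^ 2 * Sf rho z + 2 * a * deriv (Sf rho) z +
        deriv (deriv (Sf rho)) z) := by
    intro z
    have k1 := t1 hS' z
    have k2 : (fun z => deriv (Sf rho) (z + lam)) =
        fun z => χ * cexp (a * z + b) * (a * Sf rho z + deriv (Sf rho) z) := funext f1
    rw [k2] at k1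
    have k3 := k1.unique ((hE z).mul (((hS z).hasDerivAt.const_mul a).add (hS' z).hasDerivAt))
    rw [k3]
    ring
  rw [simple_zero_Dv, simple_zero_Dv, f1, f2, hadd']
  ring

private theorem period_mem_nat {ω : ℂ} (h : period_mem_P ω) (N : ℕ) : period_mem_P (N * ω) := by
  induction N with
  | zero =>
    intro z
    rw [Nat.cast_zero, zero_mul, add_zero]
  | succ N ih =>
    have := period_mem_add ih h
    have e : ((N + 1 : ℕ) : ℂ) * ω = N * ω + ω := by push_cast; ring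
    rwa [e]

/-- reduction to the parallelogram -/
private theorem period_mem_red (z : ℂ) : ∃ m n : ℤ, ‖z + (m + n * rho)‖ ≤ 1 + ‖rho‖ := by
  have him := simple_zero_im
  set y : ℝ := z.im / rho.im with hy
  set x : ℝ := z.re - y * rho.re with hx
  have hz : z = x + y * rho := by
    apply Complex.ext
    · rw [Complex.add_re, Complex.ofReal_re, Complex.re_ofReal_mul, hx]
      ring
    · rw [Complex.add_im, Complex.ofReal_im, Complex.im_ofReal_mul, hy]
      field_simp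
      ring
  refine ⟨-⌊x⌋, -⌊y⌋, ?_⟩
  have e : z + (((-⌊x⌋ : ℤ) : ℂ) + ((-⌊y⌋ : ℤ) : ℂ) * rho) =
      ((Int.fract x : ℝ) : ℂ) + ((Int.fract y : ℝ) : ℂ) * rho := by
    rw [hz, ← Int.self_sub_floor, ← Int.self_sub_floor]
    push_cast
    ring
  rw [e]
  have a1 : ‖((Int.fract x : ℝ) : ℂ)‖ ≤ 1 := by
    rw [Complex.norm_real, Real.norm_eq_abs, abs_of_nonneg (Int.fract_nonneg x)]
    exact (Int.fract_lt_one x).le
  have a2 : ‖((Int.fract y : ℝ) : ℂ)‖ ≤ 1 := by
    rw [Complex.norm_real, Real.norm_eq_abs, abs_of_nonneg (Int.fract_nonneg y)]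
    exact (Int.fract_lt_one y).le
  refine (norm_add_le _ _).trans (add_le_add a1 ?_)
  rw [norm_mul]
  exact mul_le_of_le_one_left (norm_nonneg _) a2

/-- TA-Ed8. If `ω` is a period of `P` then `ω ∈ ℚ + ℚρ`: otherwise the numbers `nω` reduced modulo `ℤ + ℤρ` to the
parallelogram are pairwise distinct, so there are periods `ω_n → 0`, `ω_n ≠ 0` (the periods form a group which contains
`ℤ + ℤρ` by `Sf_add`); then `D(ω_n) = P₀ S(ω_n)²` for `P₀ = D(0)`, so `D = P₀ S²` by the identity theorem, against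
`Sf_nonconst`. (`P(z+λ) = P(z)` for `λ ∈ ℤ+ℤρ`; adding periods: `S` and `D` have no common zeros by `simple_zero`.) -/
theorem period_mem {ω : ℂ}
    (h : ∀ z, Dv (Sf rho) (z + ω) * Sf rho z ^ 2 = Dv (Sf rho) z * Sf rho (z + ω) ^ 2) :
    ∃ p q : ℚ, ω = p + q * rho := by
  by_contra hcon
  have hS := Sf_differentiable simple_zero_im
  have hD := period_mem_Dv hS
  have hω : period_mem_P ω := h
  choose m n hmn using fun N : ℕ => period_mem_red (N * ω)
  let x : ℕ → ℂ := fun N => N * ω + (m N + n N * rho)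
  have hxK : ∀ N, x N ∈ Metric.closedBall (0 : ℂ) (1 + ‖rho‖) := fun N => by
    rw [mem_closedBall_zero_iff]
    exact hmn N
  obtain ⟨a, -, φ, hφ, hlim⟩ := (isCompact_closedBall (0 : ℂ) (1 + ‖rho‖)).tendsto_subseq hxK
  let y : ℕ → ℂ := fun k => x (φ (k + 1)) - x (φ k)
  have hy0 : Tendsto y atTop (𝓝 0) := by
    have k1 := (hlim.comp (tendsto_add_atTop_nat 1)).sub hlim
    rw [sub_self] at k1
    exact k1
  have hyform : ∀ k, ∃ (N : ℕ) (m' n' : ℤ), 0 < N ∧ y k = N * ω + (m' + n' * rho) := by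
    intro k
    have k1 := hφ (Nat.lt_succ_self k)
    refine ⟨φ (k + 1) - φ k, m (φ (k + 1)) - m (φ k), n (φ (k + 1)) - n (φ k),
      Nat.sub_pos_of_lt k1, ?_⟩
    change (φ (k + 1) : ℂ) * ω + (m (φ (k + 1)) + n (φ (k + 1)) * rho) -
      (φ k * ω + (m (φ k) + n (φ k) * rho)) = _
    have k2 : φ k ≤ φ (k + 1) := k1.le
    push_cast [Nat.cast_sub k2]
    ring
  have hyper : ∀ k, period_mem_P (y k) := by
    intro k
    obtain ⟨N, m', n', -, h2⟩ := hyform k
    rw [h2]
    exact period_mem_add (period_mem_nat hω N) (period_mem_lat m' n')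
  have hyne : ∀ k, y k ≠ 0 := by
    intro k hk
    obtain ⟨N, m', n', hN, h2⟩ := hyform k
    apply hcon
    have hN' : (N : ℂ) ≠ 0 := Nat.cast_ne_zero.2 hN.ne'
    refine ⟨-m' / N, -n' / N, ?_⟩
    rw [h2] at hk
    push_cast
    have h3 : (N : ℂ) * ω = -(m' + n' * rho) := by linear_combination hk
    have h4 : ω = -(m' + n' * rho) / N := by
      rw [eq_div_iff hN', mul_comm]
      exact h3
    rw [h4]
    field_simp
    ring
  have hF : Differentiable ℂ fun w => Dv (Sf rho) w - Dv (Sf rho) 0 * Sf rho w ^ 2 :=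
    hD.sub ((differentiable_const _).mul (hS.pow 2))
  have hfreq : ∃ᶠ w in 𝓝[≠] (0 : ℂ), Dv (Sf rho) w - Dv (Sf rho) 0 * Sf rho w ^ 2 = 0 := by
    have k1 : Tendsto y atTop (𝓝[≠] 0) :=
      tendsto_nhdsWithin_iff.2 ⟨hy0, Filter.Eventually.of_forall hyne⟩
    refine k1.frequently (Filter.Frequently.of_forall fun k => ?_)
    have k2 := hyper k 0
    rw [zero_add, Sf_zero theta_zero_rho] at k2
    linear_combination k2
  have hzero : ∀ w, Dv (Sf rho) w - Dv (Sf rho) 0 * Sf rho w ^ 2 = 0 := fun w =>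
    (simple_zero_anal hF).eqOn_zero_of_preconnected_of_frequently_eq_zero isPreconnected_univ
      (Set.mem_univ 0) hfreq (Set.mem_univ w)
  obtain ⟨w, hw⟩ := Sf_nonconst simple_zero_im theta_zero_rho (Dv (Sf rho) 0)
  exact hw (sub_eq_zero.1 (hzero w))

private theorem w2_pos_int :
    IntervalIntegrable (fun x : ℝ => 1 / Real.sqrt (4 * x - 4 * x ^ 4)) MeasureTheory.volume 0 1 := by
  have h1 : IntervalIntegrable (fun x : ℝ => x ^ (-(1 / 2) : ℝ)) MeasureTheory.volume 0 1 :=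
    intervalIntegral.intervalIntegrable_rpow' (by norm_num)
  have h2 : IntervalIntegrable (fun x : ℝ => (1 - x) ^ (-(1 / 2) : ℝ)) MeasureTheory.volume 0 1 := by
    have := (h1.comp_sub_left 1).symm
    simpa using this
  refine (h1.add h2).mono_fun' ?_ ?_
  · refine Measurable.aestronglyMeasurable ?_
    exact measurable_const.div (Real.continuous_sqrt.measurable.comp (by fun_prop))
  · rw [Set.uIoc_of_le zero_le_one]
    refine (MeasureTheory.ae_restrict_iff' measurableSet_Ioc).2 (Filter.Eventually.of_forall ?_)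
    rintro x ⟨hx0, hx1⟩
    have hx1' : 0 ≤ 1 - x := by linarith
    have e1 : x ^ (-(1 / 2) : ℝ) = 1 / Real.sqrt x := by
      rw [Real.rpow_neg hx0.le, ← Real.sqrt_eq_rpow, one_div]
    have e2 : (1 - x) ^ (-(1 / 2) : ℝ) = 1 / Real.sqrt (1 - x) := by
      rw [Real.rpow_neg hx1', ← Real.sqrt_eq_rpow, one_div]
    simp only [e1, e2]
    rw [Real.norm_of_nonneg (by positivity)]
    have f1 : 0 ≤ 1 / Real.sqrt x := by positivity
    have f2 : 0 ≤ 1 / Real.sqrt (1 - x) := by positivity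
    have e3 : 4 * x - 4 * x ^ 4 = 4 * x * (1 - x) * (1 + x + x ^ 2) := by ring
    rcases le_total x (1 / 2) with h | h
    · have h3 : x ≤ 4 * x - 4 * x ^ 4 := by
        have k1 : x ^ 3 ≤ (1 / 2) ^ 3 := pow_le_pow_left₀ hx0.le h 3
        nlinarith
      have h4 : 1 / Real.sqrt (4 * x - 4 * x ^ 4) ≤ 1 / Real.sqrt x :=
        one_div_le_one_div_of_le (Real.sqrt_pos.2 hx0) (Real.sqrt_le_sqrt h3)
      linarith
    · rcases hx1'.eq_or_lt with h0 | h0
      · have h5 : 4 * x - 4 * x ^ 4 = 0 := by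
          have : x = 1 := by linarith
          rw [this]; norm_num
        rw [h5]
        simp only [Real.sqrt_zero, div_zero]
        linarith
      · have h3 : 1 - x ≤ 4 * x - 4 * x ^ 4 := by
          rw [e3]
          have k1 : 1 * (1 - x) ≤ 4 * x * (1 - x) := mul_le_mul_of_nonneg_right (by linarith) hx1'
          have k2 : 4 * x * (1 - x) * 1 ≤ 4 * x * (1 - x) * (1 + x + x ^ 2) :=
            mul_le_mul_of_nonneg_left (by nlinarith) (by positivity)
          linarith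
        have h4 : 1 / Real.sqrt (4 * x - 4 * x ^ 4) ≤ 1 / Real.sqrt (1 - x) :=
          one_div_le_one_div_of_le (Real.sqrt_pos.2 h0) (Real.sqrt_le_sqrt h3)
        linarith

theorem w2_pos : 0 < w2 := by
  unfold w2
  refine mul_pos two_pos ?_
  refine intervalIntegral.intervalIntegral_pos_of_pos_on w2_pos_int (fun x hx => ?_) one_pos
  have h1 : 0 < 4 * x - 4 * x ^ 4 := by
    have h2 : x ^ 4 < x := by
      have h3 : x ^ 3 < 1 := pow_lt_one₀ hx.1.le hx.2 (by norm_num)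
      nlinarith [hx.1]
    linarith
  exact one_div_pos.2 (Real.sqrt_pos.2 h1)

/-- TA-Ed9. `μ² = D(0) ≠ 0`; `ω = w2/μ` is a period by `even_about_zero` at `z₀ = w2/(2μ)` with `w = z₀ + z` and evenness of
`S`, `D`; so `w2/μ = p + qρ ≠ 0`, and the inverse is again in `ℚ + ℚρ`. The Hurwitz property is `hurwitz_of_ode` with
`ε = 1`, `c = 0`. -/
theorem E_main2 : ∃ (p q : ℚ) (a : ℕ → ℤ), (p + q * rho : ℂ) ≠ 0 ∧
    HasHurwitz rho ((p + q * rho) * w2) a := by
  have hS := Sf_differentiable simple_zero_im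
  have h0 := Sf_zero theta_zero_rho
  have h1 := iteratedDeriv_odd_zero hS (Sf_neg rho) 1 (by decide)
  have h3 := iteratedDeriv_odd_zero hS (Sf_neg rho) 3 (by decide)
  obtain ⟨μ, hμ⟩ : ∃ μ : ℂ, μ ^ 2 = Dv (Sf rho) 0 := IsAlgClosed.exists_pow_nat_eq _ (by norm_num)
  have hμ0 : μ ≠ 0 := by
    rintro rfl
    apply Dv_rho_ne
    rw [← hμ]
    norm_num
  have hz := Sf_rho_zero hμ
  -- `Dv` is even
  have hneg : ∀ z, Dv (Sf rho) (-z) = Dv (Sf rho) z := by
    intro z
    have k0 : (fun z => Sf rho (-z)) = Sf rho := funext (Sf_neg rho)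
    have k1 : ∀ z, deriv (Sf rho) (-z) = -deriv (Sf rho) z := by
      intro z
      have k2 := deriv_comp_neg (Sf rho) z
      rw [k0] at k2
      rw [k2, neg_neg]
    have k2 : deriv (deriv (Sf rho)) (-z) = deriv (deriv (Sf rho)) z := by
      have k3 := deriv_comp_neg (deriv (Sf rho)) z
      have k4 : (fun z => deriv (Sf rho) (-z)) = fun z => -deriv (Sf rho) z := funext k1
      rw [k4, deriv.fun_neg] at k3
      exact (neg_injective k3).symm
    rw [simple_zero_Dv, simple_zero_Dv, k1, k2, Sf_neg]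
    ring
  have hper : ∀ z, Dv (Sf rho) (z + w2 / μ) * Sf rho z ^ 2 =
      Dv (Sf rho) z * Sf rho (z + w2 / μ) ^ 2 := by
    intro z
    have k1 := even_about_zero hz (w2 / (2 * μ) + z)
    have e1 : (w2 : ℂ) / (2 * μ) + (w2 / (2 * μ) + z) = z + w2 / μ := by
      field_simp
      ring
    have e2 : (w2 : ℂ) / (2 * μ) - (w2 / (2 * μ) + z) = -z := by ring
    rw [e1, e2, Sf_neg, hneg] at k1
    exact k1
  obtain ⟨p, q, hpq⟩ := period_mem hper
  have hw : (w2 : ℂ) ≠ 0 := Complex.ofReal_ne_zero.2 w2_pos.ne'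
  have hne : (p + q * rho : ℂ) ≠ 0 := by
    rw [← hpq]
    exact div_ne_zero hw hμ0
  have hnorm : (p + q * rho : ℂ) * ((p - q) - q * rho) = ((p ^ 2 - p * q + q ^ 2 : ℚ) : ℂ) := by
    push_cast
    linear_combination (-(q : ℂ) ^ 2) * rho_sq
  have hd : (p ^ 2 - p * q + q ^ 2 : ℚ) ≠ 0 := by
    intro h
    have hq : q = 0 := by nlinarith [sq_nonneg (2 * p - q), sq_nonneg q]
    have hp : p = 0 := by
      rw [hq] at h
      nlinarith
    apply hne
    rw [hp, hq]
    push_cast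
    ring
  have hd' : ((p ^ 2 - p * q + q ^ 2 : ℚ) : ℂ) ≠ 0 := by exact_mod_cast hd
  set d : ℚ := p ^ 2 - p * q + q ^ 2 with hdd
  have hinv : (((p - q) / d : ℚ) + ((-q / d : ℚ) : ℂ) * rho) * (p + q * rho : ℂ) = 1 := by
    push_cast
    field_simp
    linear_combination hnorm
  have hμe : (((p - q) / d : ℚ) + ((-q / d : ℚ) : ℂ) * rho) * w2 = μ := by
    have k1 : (w2 : ℂ) = (p + q * rho) * μ := by
      rw [← hpq]
      field_simp
    rw [k1, ← mul_assoc, hinv, one_mul]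
  obtain ⟨a, ha⟩ := hurwitz_of_ode hS h0 h1 h3 μ 0 1 0 (by
    rw [hμ, Dv, h0, h1]
    push_cast
    ring) (by push_cast; ring) (fun z => by rw [ode_rho, zero_mul])
  refine ⟨(p - q) / d, -q / d, a, ?_, ?_⟩
  · intro h
    rw [h, zero_mul] at hinv
    exact zero_ne_one hinv
  · rw [hμe]
    exact ⟨hμ0, ha⟩

end Pool.Agent.Helper49.TA
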