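import Mathlib
import Pool.Agent.Helper49.TA.Df

/-!
# Project TA, block E, part g: Gamma values
-/

set_option autoImplicit false

open Complex

namespace Pool.Agent.Helper49.TA

private theorem E_w1_beta {α β : ℝ} (hα : 0 < α) (hβ : 0 < β) :
    ∫ x in Set.Ioo (0 : ℝ) 1, x ^ (α - 1) * (1 - x) ^ (β - 1) =
      Real.Gamma α * Real.Gamma β / Real.Gamma (α + β) := by
  have h := ProbabilityTheory.beta_eq_betaIntegralReal α β hα hβ
  unfold ProbabilityTheory.beta at h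
  rw [h, betaIntegral, intervalIntegral.integral_of_le (by norm_num),
    ← MeasureTheory.integral_Ioc_eq_integral_Ioo, ← RCLike.re_to_complex, ← integral_re]
  · refine MeasureTheory.setIntegral_congr_fun measurableSet_Ioc fun x hx => ?_
    norm_cast
    rw [← Complex.ofReal_cpow hx.1.le, ← Complex.ofReal_cpow (by linarith [hx.2]),
      RCLike.re_to_complex, Complex.re_mul_ofReal, Complex.ofReal_re]
  · have h2 := betaIntegral_convergent (u := (α : ℂ)) (v := (β : ℂ)) (by simpa) (by simpa)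
    rw [intervalIntegrable_iff_integrableOn_Ioc_of_le (by simp)] at h2
    exact h2

private theorem E_w1_gen (n : ℕ) (hn : 0 < n) :
    2 * ∫ x in (0 : ℝ)..1, 1 / Real.sqrt (4 * x - 4 * x ^ (n + 1)) =
      Real.Gamma (1 / (2 * n)) * Real.Gamma (1 / 2) /
        (n * Real.Gamma (1 / (2 * n) + 1 / 2)) := by
  have hn' : (0 : ℝ) < n := Nat.cast_pos.2 hn
  set g : ℝ → ℝ := Set.indicator (Set.Ioo (0 : ℝ) 1)
    fun t => t ^ (1 / (2 * n : ℝ) - 1) * (1 - t) ^ ((1 : ℝ) / 2 - 1) with hg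
  have h1 := MeasureTheory.integral_comp_rpow_Ioi_of_pos (g := g) (p := n) hn'
  have h2 : ∫ y in Set.Ioi (0 : ℝ), g y =
      Real.Gamma (1 / (2 * n)) * Real.Gamma (1 / 2) / Real.Gamma (1 / (2 * n) + 1 / 2) := by
    rw [hg, MeasureTheory.setIntegral_indicator measurableSet_Ioo]
    have e : Set.Ioi (0 : ℝ) ∩ Set.Ioo 0 1 = Set.Ioo 0 1 :=
      Set.inter_eq_right.2 fun x hx => hx.1
    rw [e]
    exact E_w1_beta (by positivity) (by norm_num)
  have h3 : ∫ x in Set.Ioi (0 : ℝ), ((n : ℝ) * x ^ ((n : ℝ) - 1)) • g (x ^ (n : ℝ)) =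
      n * (2 * ∫ x in (0 : ℝ)..1, 1 / Real.sqrt (4 * x - 4 * x ^ (n + 1))) := by
    have e1 : ∀ x ∈ Set.Ioi (0 : ℝ), ((n : ℝ) * x ^ ((n : ℝ) - 1)) • g (x ^ (n : ℝ)) =
        Set.indicator (Set.Ioo (0 : ℝ) 1)
          (fun x => n * (2 * (1 / Real.sqrt (4 * x - 4 * x ^ (n + 1))))) x := by
      intro x hx
      have hx0 : (0 : ℝ) < x := hx
      have hxn : x ^ (n : ℝ) = x ^ n := Real.rpow_natCast x n
      by_cases hx1 : x < 1
      · have hlt : x ^ n < 1 := pow_lt_one₀ hx0.le hx1 hn.ne'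
        have hm : x ^ (n : ℝ) ∈ Set.Ioo (0 : ℝ) 1 := by
          rw [hxn]
          exact ⟨pow_pos hx0 n, hlt⟩
        rw [hg, Set.indicator_of_mem hm, Set.indicator_of_mem (Set.mem_Ioo.2 ⟨hx0, hx1⟩),
          smul_eq_mul, ← Real.rpow_mul hx0.le]
        have e2 : x ^ ((n : ℝ) - 1) * x ^ ((n : ℝ) * (1 / (2 * n) - 1)) = (Real.sqrt x)⁻¹ := by
          rw [← Real.rpow_add hx0, Real.sqrt_eq_rpow, ← Real.rpow_neg hx0.le]
          congr 1
          field_simp
          ring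
        have e3 : (1 - x ^ (n : ℝ)) ^ ((1 : ℝ) / 2 - 1) = (Real.sqrt (1 - x ^ n))⁻¹ := by
          rw [hxn, Real.sqrt_eq_rpow, ← Real.rpow_neg (by linarith)]
          norm_num
        have e4 : Real.sqrt (4 * x - 4 * x ^ (n + 1)) =
            2 * (Real.sqrt x * Real.sqrt (1 - x ^ n)) := by
          rw [← Real.sqrt_mul hx0.le]
          have e5 : 4 * x - 4 * x ^ (n + 1) = 2 ^ 2 * (x * (1 - x ^ n)) := by
            rw [pow_succ]
            ring
          rw [e5, Real.sqrt_mul (by norm_num), Real.sqrt_sq (by norm_num)]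
        rw [e3, e4]
        calc (n : ℝ) * x ^ ((n : ℝ) - 1) *
              (x ^ ((n : ℝ) * (1 / (2 * n) - 1)) * (Real.sqrt (1 - x ^ n))⁻¹)
            = n * ((x ^ ((n : ℝ) - 1) * x ^ ((n : ℝ) * (1 / (2 * n) - 1))) *
                (Real.sqrt (1 - x ^ n))⁻¹) := by ring
          _ = _ := by
              rw [e2, one_div, mul_inv, mul_inv]
              ring
      · have hge : 1 ≤ x ^ n := one_le_pow₀ (not_lt.1 hx1)
        have hm : x ^ (n : ℝ) ∉ Set.Ioo (0 : ℝ) 1 := by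
          rw [hxn]
          exact fun h => absurd h.2 (not_lt.2 hge)
        rw [hg, Set.indicator_of_notMem hm,
          Set.indicator_of_notMem (fun h => hx1 h.2), smul_zero]
    rw [MeasureTheory.setIntegral_congr_fun measurableSet_Ioi e1,
      MeasureTheory.setIntegral_indicator measurableSet_Ioo]
    have e : Set.Ioi (0 : ℝ) ∩ Set.Ioo 0 1 = Set.Ioo 0 1 :=
      Set.inter_eq_right.2 fun x hx => hx.1
    rw [e, MeasureTheory.integral_const_mul, MeasureTheory.integral_const_mul,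
      intervalIntegral.integral_of_le (by norm_num), MeasureTheory.integral_Ioc_eq_integral_Ioo]
  rw [h3, h2] at h1
  rw [← div_div, div_right_comm, ← h1]
  field_simp

/-- TA-Eg1. substitution `t = x²`: `w1 = B(1/4,1/2)/2` -/
theorem E_w1 : w1 = Real.Gamma (1 / 4) * Real.sqrt Real.pi / (2 * Real.Gamma (3 / 4)) := by
  have h := E_w1_gen 2 (by norm_num)
  unfold w1
  rw [h, Real.Gamma_one_half_eq]
  norm_num

/-- TA-Eg2. substitution `t = x³`: `w2 = B(1/6,1/2)/3` -/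
theorem E_w2 : w2 = Real.Gamma (1 / 6) * Real.sqrt Real.pi / (3 * Real.Gamma (2 / 3)) := by
  have h := E_w1_gen 3 (by norm_num)
  unfold w2
  rw [h, Real.Gamma_one_half_eq]
  norm_num

/-- TA-Eg3. duplication formula at `1/6`: `Γ(1/6)Γ(2/3) = 2^{2/3} √π Γ(1/3)`, reflection
`Γ(1/3)Γ(2/3) = 2π/√3`. -/
theorem w2_algebraic : ∃ c : ℝ, c ≠ 0 ∧ IsAlgebraic ℚ c ∧
    Real.pi / w2 ^ 2 = c * (Real.Gamma (2 / 3) / Real.Gamma (1 / 3)) ^ 3 := by
  have hg1 : 0 < Real.Gamma (1 / 3) := Real.Gamma_pos_of_pos (by norm_num)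
  have hg2 : 0 < Real.Gamma (2 / 3) := Real.Gamma_pos_of_pos (by norm_num)
  have hg6 : 0 < Real.Gamma (1 / 6) := Real.Gamma_pos_of_pos (by norm_num)
  have hpi : 0 < Real.pi := Real.pi_pos
  have hs3 : 0 < Real.sqrt 3 := Real.sqrt_pos.2 (by norm_num)
  set t : ℝ := (2 : ℝ) ^ (2 / 3 : ℝ) with ht
  have ht0 : 0 < t := Real.rpow_pos_of_pos (by norm_num) _
  have ht3 : t ^ 3 = 4 := by
    rw [ht, ← Real.rpow_natCast, ← Real.rpow_mul (by norm_num)]
    norm_num
  -- duplication and reflection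
  have hd : Real.Gamma (1 / 6) * Real.Gamma (2 / 3) = t * Real.sqrt Real.pi * Real.Gamma (1 / 3) := by
    have h := Real.Gamma_mul_Gamma_add_half (1 / 6)
    have e1 : (1 : ℝ) / 6 + 1 / 2 = 2 / 3 := by norm_num
    have e2 : 2 * ((1 : ℝ) / 6) = 1 / 3 := by norm_num
    have e3 : (1 : ℝ) - 1 / 3 = 2 / 3 := by norm_num
    rw [e1, e2, e3] at h
    rw [h]
    ring
  have hr : Real.Gamma (1 / 3) * Real.Gamma (2 / 3) = 2 * Real.pi / Real.sqrt 3 := by
    have h := Real.Gamma_mul_Gamma_one_sub (1 / 3)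
    have e1 : (1 : ℝ) - 1 / 3 = 2 / 3 := by norm_num
    have e2 : Real.pi * (1 / 3) = Real.pi / 3 := by ring
    rw [e1, e2, Real.sin_pi_div_three] at h
    rw [h]
    field_simp
  refine ⟨18 / (t ^ 2 * Real.sqrt 3), by positivity, ?_, ?_⟩
  · have h6 : (18 / (t ^ 2 * Real.sqrt 3)) ^ 6 = ((18 ^ 6 / (256 * 27) : ℚ) : ℝ) := by
      have e1 : (t ^ 2) ^ 6 = 256 := by
        calc (t ^ 2) ^ 6 = (t ^ 3) ^ 4 := by ring
          _ = 256 := by rw [ht3]; norm_num
      have e2 : Real.sqrt 3 ^ 6 = 27 := by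
        calc Real.sqrt 3 ^ 6 = (Real.sqrt 3 ^ 2) ^ 3 := by ring
          _ = 27 := by rw [Real.sq_sqrt (by norm_num)]; norm_num
      rw [div_pow, mul_pow, e1, e2]
      push_cast
      norm_num
    refine IsAlgebraic.of_pow (n := 6) (by norm_num) ?_
    rw [h6]
    exact isAlgebraic_algebraMap (A := ℝ) (18 ^ 6 / (256 * 27) : ℚ)
  · rw [E_w2]
    have hsp : Real.sqrt Real.pi ^ 2 = Real.pi := Real.sq_sqrt hpi.le
    have hg6' : Real.Gamma (1 / 6) = t * Real.sqrt Real.pi * Real.Gamma (1 / 3) /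
        Real.Gamma (2 / 3) := by
      rw [eq_div_iff hg2.ne']
      exact hd
    have hpi' : Real.pi = Real.sqrt 3 / 2 * (Real.Gamma (1 / 3) * Real.Gamma (2 / 3)) := by
      rw [hr]
      field_simp
    have hsp0 : 0 < Real.sqrt Real.pi := Real.sqrt_pos.2 hpi
    have e1 : Real.pi / (Real.Gamma (1 / 6) * Real.sqrt Real.pi / (3 * Real.Gamma (2 / 3))) ^ 2 =
        9 * Real.Gamma (2 / 3) ^ 4 / (t ^ 2 * Real.Gamma (1 / 3) ^ 2 * Real.pi) := by
      rw [hg6']
      have h2 : (t * Real.sqrt Real.pi * Real.Gamma (1 / 3) / Real.Gamma (2 / 3) *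
          Real.sqrt Real.pi / (3 * Real.Gamma (2 / 3))) ^ 2 =
          t ^ 2 * (Real.sqrt Real.pi ^ 2) ^ 2 * Real.Gamma (1 / 3) ^ 2 /
            (9 * Real.Gamma (2 / 3) ^ 4) := by
        field_simp
        ring
      rw [h2, hsp]
      field_simp
    rw [e1]
    have e2 : 9 * Real.Gamma (2 / 3) ^ 4 / (t ^ 2 * Real.Gamma (1 / 3) ^ 2 * Real.pi) =
        9 * Real.Gamma (2 / 3) ^ 4 / (t ^ 2 * Real.Gamma (1 / 3) ^ 2 *
          (Real.sqrt 3 / 2 * (Real.Gamma (1 / 3) * Real.Gamma (2 / 3)))) := by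
      rw [← hpi']
    rw [e2]
    field_simp
    ring

/-- TA-Eg3. -/
theorem w1_algebraic : Real.pi / w1 ^ 2 = 4 * (Real.Gamma (3 / 4) / Real.Gamma (1 / 4)) ^ 2 := by
  have hg1 : 0 < Real.Gamma (1 / 4) := Real.Gamma_pos_of_pos (by norm_num)
  have hg2 : 0 < Real.Gamma (3 / 4) := Real.Gamma_pos_of_pos (by norm_num)
  have hpi : 0 < Real.pi := Real.pi_pos
  rw [E_w1, div_pow, mul_pow, Real.sq_sqrt hpi.le]
  field_simp
  norm_num

private theorem transfer_aux {x y b₁ b₂ : ℂ} (hb : AlgebraicIndependent ℚ ![b₁, b₂])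
    (h₁ : IsAlgebraic (Algebra.adjoin ℚ {x, y}) b₁)
    (h₂ : IsAlgebraic (Algebra.adjoin ℚ {x, y}) b₂) :
    AlgebraicIndependent ℚ ![x, y] := by
  classical
  have hbne : b₁ ≠ b₂ := by
    intro h
    have h3 : (0 : Fin 2) = 1 := hb.injective (by simp [h])
    exact absurd h3 (by decide)
  have hT : (AlgebraicIndependent.matroid ℚ ℂ).Indep {b₁, b₂} := by
    have h3 := AlgebraicIndependent.matroid_indep_iff.mpr hb.to_subtype_range
    rwa [Matrix.range_cons_cons_empty] at h3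
  have hsub : ({b₁, b₂} : Set ℂ) ⊆ (AlgebraicIndependent.matroid ℚ ℂ).closure {x, y} := by
    rw [AlgebraicIndependent.matroid_closure_eq]
    rintro z (rfl | rfl)
    · exact h₁
    · exact h₂
  have hr : (2 : ℕ∞) ≤ (AlgebraicIndependent.matroid ℚ ℂ).eRk {x, y} := by
    rw [← Matroid.eRk_closure_eq, ← Set.encard_pair hbne, ← hT.eRk_eq_encard]
    exact Matroid.eRk_mono _ hsub
  have hle : (AlgebraicIndependent.matroid ℚ ℂ).eRk {x, y} ≤ ({x, y} : Set ℂ).encard :=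
    Matroid.eRk_le_encard _ _
  have hxy : x ≠ y := by
    rintro rfl
    have h5 := hr.trans hle
    rw [Set.pair_eq_singleton, Set.encard_singleton] at h5
    exact absurd h5 (by decide)
  have henc : ({x, y} : Set ℂ).encard = 2 := Set.encard_pair hxy
  have hI : (AlgebraicIndependent.matroid ℚ ℂ).Indep {x, y} := by
    rw [Matroid.indep_iff_eRk_eq_encard_of_finite (Set.toFinite _)]
    rw [henc] at hle ⊢
    exact le_antisymm hle hr
  have hI' := AlgebraicIndependent.matroid_indep_iff.mp hI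
  apply AlgebraicIndependent.of_subtype_range
  · intro i j hij
    fin_cases i <;> fin_cases j
    · rfl
    · exact absurd hij hxy
    · exact absurd hij.symm hxy
    · rfl
  · rw [Matrix.range_cons_cons_empty]
    exact hI'

/-- TA-Eg4. algebraic independence up to algebraic factors and powers, from `ℂ` down to `ℝ` -/
theorem transfer {x y : ℝ} {b₁ b₂ c₁ c₂ : ℂ} (hb : AlgebraicIndependent ℚ ![b₁, b₂])
    (h₁ : IsAlgebraic ℚ c₁) (h₂ : IsAlgebraic ℚ c₂) (hx : b₂ * x ^ 3 = c₂) (hy : b₁ * y ^ 2 = c₁)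
    (hx0 : x ≠ 0) (hy0 : y ≠ 0) :
    AlgebraicIndependent ℚ ![x, y] := by
  have hxc : (x : ℂ) ≠ 0 := by exact_mod_cast hx0
  have hyc : (y : ℂ) ≠ 0 := by exact_mod_cast hy0
  have hax : IsAlgebraic (Algebra.adjoin ℚ {(x : ℂ), (y : ℂ)}) (x : ℂ) :=
    isAlgebraic_algebraMap
      (⟨(x : ℂ), Algebra.subset_adjoin (Or.inl rfl)⟩ : Algebra.adjoin ℚ {(x : ℂ), (y : ℂ)})
  have hay : IsAlgebraic (Algebra.adjoin ℚ {(x : ℂ), (y : ℂ)}) (y : ℂ) :=
    isAlgebraic_algebraMap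
      (⟨(y : ℂ), Algebra.subset_adjoin (Or.inr rfl)⟩ : Algebra.adjoin ℚ {(x : ℂ), (y : ℂ)})
  have hinj : Function.Injective (algebraMap ℚ (Algebra.adjoin ℚ {(x : ℂ), (y : ℂ)})) :=
    (algebraMap ℚ (Algebra.adjoin ℚ {(x : ℂ), (y : ℂ)})).injective
  have h1 : IsAlgebraic (Algebra.adjoin ℚ {(x : ℂ), (y : ℂ)}) b₁ := by
    have h3 : b₁ = c₁ * ((y : ℂ) ^ 2)⁻¹ := by
      rw [← hy]
      field_simp
    rw [h3]
    exact (h₁.extendScalars hinj).mul (hay.pow 2).inv
  have h2 : IsAlgebraic (Algebra.adjoin ℚ {(x : ℂ), (y : ℂ)}) b₂ := by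
    have h3 : b₂ = c₂ * ((x : ℂ) ^ 3)⁻¹ := by
      rw [← hx]
      field_simp
    rw [h3]
    exact (h₂.extendScalars hinj).mul (hax.pow 3).inv
  have h := transfer_aux hb h1 h2
  apply AlgebraicIndependent.of_comp (Complex.ofRealAm.restrictScalars ℚ)
  convert h using 1
  funext i
  fin_cases i <;> rfl

end Pool.Agent.Helper49.TA
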