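import Mathlib
import Pool.Agent.Helper49.TA.Au
import Pool.Agent.Helper49.TA.Ec
import Pool.Agent.Helper49.TA.Ed
import Pool.Agent.Helper49.TA.Eg

/-!
# Project TA: `Γ(1/3)/Γ(2/3)` and `Γ(1/4)/Γ(3/4)` are algebraically independent
-/

set_option autoImplicit false

open Complex

namespace Pool.Agent.Helper49.TA

theorem isAlgebraic_rho : IsAlgebraic ℚ rho := by
  refine ⟨Polynomial.X ^ 2 + Polynomial.X + 1, ?_, ?_⟩
  · intro h0
    have := congrArg (fun P => Polynomial.coeff P 2) h0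
    simp [Polynomial.coeff_X, Polynomial.coeff_one] at this
  · have h3 : ((Real.sqrt 3 : ℝ) : ℂ) ^ 2 = 3 := by
      rw [← ofReal_pow, Real.sq_sqrt (by norm_num)]
      norm_num
    simp only [map_add, map_pow, Polynomial.aeval_X, map_one, rho]
    push_cast
    linear_combination (1 / 4 : ℂ) * I ^ 2 * h3 + (3 / 4 : ℂ) * I_sq

theorem final : AlgebraicIndependent ℚ
    ![Real.Gamma (1 / 3) / Real.Gamma (2 / 3), Real.Gamma (1 / 4) / Real.Gamma (3 / 4)] := by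
  obtain ⟨N, a₁, hN, h₁⟩ := E_main1
  obtain ⟨p, q, a₂, hpq, h₂⟩ := E_main2
  have hA := A_main h₁ h₂
  obtain ⟨c, hc0, hc, hcw⟩ := w2_algebraic
  have g1 : 0 < Real.Gamma (1 / 3) := Real.Gamma_pos_of_pos (by norm_num)
  have g2 : 0 < Real.Gamma (2 / 3) := Real.Gamma_pos_of_pos (by norm_num)
  have g3 : 0 < Real.Gamma (1 / 4) := Real.Gamma_pos_of_pos (by norm_num)
  have g4 : 0 < Real.Gamma (3 / 4) := Real.Gamma_pos_of_pos (by norm_num)
  have hN' : (N : ℂ) ≠ 0 := by exact_mod_cast hN.ne'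
  -- the second number
  have e2 : (Real.pi / w2 ^ 2 : ℂ) =
      c * ((Real.Gamma (2 / 3) : ℂ) / Real.Gamma (1 / 3)) ^ 3 := by
    exact_mod_cast congrArg (fun x : ℝ => (x : ℂ)) hcw
  have e1 : (Real.pi / w1 ^ 2 : ℂ) =
      4 * ((Real.Gamma (3 / 4) : ℂ) / Real.Gamma (1 / 4)) ^ 2 := by
    exact_mod_cast congrArg (fun x : ℝ => (x : ℂ)) w1_algebraic
  have G1 : (Real.Gamma (1 / 3) : ℂ) ≠ 0 := by exact_mod_cast g1.ne'
  have G2 : (Real.Gamma (2 / 3) : ℂ) ≠ 0 := by exact_mod_cast g2.ne'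
  have G3 : (Real.Gamma (1 / 4) : ℂ) ≠ 0 := by exact_mod_cast g3.ne'
  have G4 : (Real.Gamma (3 / 4) : ℂ) ≠ 0 := by exact_mod_cast g4.ne'
  refine transfer hA (c₁ := 4 / (N : ℂ) ^ 2) (c₂ := c / (p + q * rho) ^ 2) ?_ ?_ ?_ ?_
    (div_pos g1 g2).ne' (div_pos g3 g4).ne'
  · have : (4 / (N : ℂ) ^ 2) = ((4 / (N : ℚ) ^ 2 : ℚ) : ℂ) := by push_cast; rfl
    rw [this]
    exact isAlgebraic_algebraMap (A := ℂ) (4 / (N : ℚ) ^ 2 : ℚ)
  · have h3 : IsAlgebraic ℚ (c : ℂ) := hc.algebraMap (A := ℂ)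
    have h4 : IsAlgebraic ℚ ((p : ℂ) + q * rho) :=
      (isAlgebraic_algebraMap (A := ℂ) p).add ((isAlgebraic_algebraMap (A := ℂ) q).mul
        isAlgebraic_rho)
    rw [div_eq_mul_inv]
    exact h3.mul (h4.pow 2).inv
  · rw [show (Real.pi / ((p + q * rho) * w2) ^ 2 : ℂ) = (Real.pi / w2 ^ 2) / (p + q * rho) ^ 2 by
      rw [mul_pow, mul_comm, ← div_div], e2]
    push_cast
    field_simp
  · rw [show (Real.pi / ((N : ℂ) * w1) ^ 2 : ℂ) = (Real.pi / w1 ^ 2) / (N : ℂ) ^ 2 by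
      rw [mul_pow, mul_comm, ← div_div], e1]
    push_cast
    field_simp

end Pool.Agent.Helper49.TA
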