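import Mathlib
import Pool.Agent.Helper49.TA.Df

/-!
# Project TA: targets of the blocks (this file is not imported)
-/

set_option autoImplicit false

open Complex Polynomial

namespace Pool.Agent.Helper49.TA.Tg

/-! ### Block E -/

theorem E_main1 : ∃ (N : ℕ) (a : ℕ → ℤ), 0 < N ∧ HasHurwitz I (N * w1) a := by
  sorry

theorem E_main2 : ∃ (p q : ℚ) (a : ℕ → ℤ), (p + q * rho : ℂ) ≠ 0 ∧
    HasHurwitz rho ((p + q * rho) * w2) a := by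
  sorry

theorem E_w1 : w1 = Real.Gamma (1 / 4) * Real.sqrt Real.pi / (2 * Real.Gamma (3 / 4)) := by
  sorry

theorem E_w2 : w2 = Real.Gamma (1 / 6) * Real.sqrt Real.pi / (3 * Real.Gamma (2 / 3)) := by
  sorry

/-! ### Block M -/

theorem M_main {μ : ℂ} {a : ℕ → ℤ} (h : HasHurwitz I μ a) :
    ∃ C : ℝ, 0 < C ∧ ∀ P : ℤ[X], P ≠ 0 → ∀ s : ℝ, (P.natDegree : ℝ) ≤ s →
      (∀ i, |(P.coeff i : ℝ)| ≤ Real.exp s) →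
      Real.exp (-C * (s + 1) ^ (5 / 2 : ℝ)) ≤ ‖aeval (Real.pi / μ ^ 2 : ℂ) P‖ := by
  sorry

/-! ### Block F -/

section F

variable (μ₁ μ₂ : ℂ) (L : ℕ) (p : (Fin 4 → Fin (L + 1)) → ℂ)

theorem F_diff : Differentiable ℂ (Ff μ₁ μ₂ L p) := by
  sorry

/-- quasi-periodicity; the factor does not depend on `p` (nor on `L`) -/
theorem F_qp (κ : Fin 4 → ℤ) : ∃ χ : ℂ, (χ = 1 ∨ χ = -1) ∧ ∀ (L : ℕ)
    (p : (Fin 4 → Fin (L + 1)) → ℂ) (z : Fin 4 → ℂ), Ff μ₁ μ₂ L p (z + lat κ) =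
      χ * cexp (∑ i, (hc (ta i) : ℂ) * ((starRingEnd ℂ) (Lf i (lat κ)) * Lf i z +
        Lf i (lat κ) * (starRingEnd ℂ) (Lf i (lat κ)) / 2)) * Ff μ₁ μ₂ L p z := by
  sorry

theorem F_per (κ : Fin 4 → ℤ) (z : Fin 4 → ℂ) (hz : IsR z) :
    ‖Ft μ₁ μ₂ L p (z + lat κ)‖ = ‖Ft μ₁ μ₂ L p z‖ := by
  sorry

theorem F_growth (h1 : μ₁ ≠ 0) (h2 : μ₂ ≠ 0) : ∃ C : ℝ, 1 ≤ C ∧ ∀ (L : ℕ)
    (p : (Fin 4 → Fin (L + 1)) → ℂ) (s v : Fin 4 → ℂ), IsR s → IsR v →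
      ‖Ft μ₁ μ₂ L p (s + I • v)‖ ≤ (∑ k, ‖p k‖) *
        Real.exp (C * (L + 1) * Real.log (L + 2) + C * ‖v‖ ^ 2 + Xf s v) := by
  sorry

theorem F_poly : ∃ G : ℕ → (Fin 4 → ℂ) → ℂ, (∀ j, Differentiable ℂ (G j)) ∧
    (∀ j z w, G j (Function.update z 2 w) = G j z) ∧
    ∀ z, Ff μ₁ μ₂ L p z = ∑ j ∈ Finset.range (4 * L + 1), G j z * z 2 ^ j := by
  sorry

theorem F_ne (h1 : μ₁ ≠ 0) (h2 : μ₂ ≠ 0) (h : ∀ z, Ff μ₁ μ₂ L p z = 0) : ∀ k, p k = 0 := by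
  sorry

end F

/-! ### Block F5: arithmetic of the derivatives -/

theorem F_arith {μ₁ μ₂ : ℂ} {a₁ a₂ : ℕ → ℤ} (h₁ : HasHurwitz I μ₁ a₁)
    (h₂ : HasHurwitz rho μ₂ a₂) : ∃ C : ℝ, 1 ≤ C ∧
    ∃ W : ℕ → (Fin 4 → ℕ) → (Fin 4 → ℕ) → MvPolynomial (Fin 4) ℤ,
    ∀ (m : ℕ) (k a : Fin 4 → ℕ) (T : ℕ), 1 ≤ T → m ≤ T → (∀ i, k i ≤ T) → (∀ i, a i ≤ T) →
      ((W m k a).totalDegree : ℝ) ≤ C * T ∧
      ln (W m k a) ≤ Real.exp (C * T * Real.log (T + 1)) ∧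
      dl m (fun z => ∏ i, psi (ta i) (mf μ₁ μ₂ i) (k i) (Lf i z) (Ls i z))
        (zd μ₁ μ₂ fun i => (a i : ℂ)) = MvPolynomial.aeval (vv μ₁ μ₂) (W m k a) := by
  sorry

/-- derivatives of a sum -/
theorem dl_Ff (μ₁ μ₂ : ℂ) (L : ℕ) (p : (Fin 4 → Fin (L + 1)) → ℂ) (m : ℕ) (z : Fin 4 → ℂ) :
    dl m (Ff μ₁ μ₂ L p) z = ∑ k : Fin 4 → Fin (L + 1), p k *
      dl m (fun z => ∏ i, psi (ta i) (mf μ₁ μ₂ i) (k i) (Lf i z) (Ls i z)) z := by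
  sorry

/-- `z ↦ dl m F z` is a homogeneous polynomial of degree `m`; a grid decides whether it vanishes -/
theorem F_grid {μ₁ μ₂ : ℂ} (h1 : μ₁ ≠ 0) (h2 : μ₂ ≠ 0) (L : ℕ)
    (p : (Fin 4 → Fin (L + 1)) → ℂ) (m : ℕ)
    (h : ∀ a : Fin 4 → ℕ, a 0 = 1 → (∀ i, i ≠ 0 → a i ≤ m) →
      dl m (Ff μ₁ μ₂ L p) (zd μ₁ μ₂ fun i => (a i : ℂ)) = 0) (z : Fin 4 → ℂ) :
    dl m (Ff μ₁ μ₂ L p) z = 0 := by
  sorry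

/-- an entire function all of whose derivatives at `0` along lines vanish is zero -/
theorem F_zero {F : (Fin 4 → ℂ) → ℂ} (hF : Differentiable ℂ F) (h : ∀ m z, dl m F z = 0)
    (z : Fin 4 → ℂ) : F z = 0 := by
  sorry

/-! ### Block X -/

theorem X_main (C₁ c₀ : ℝ) (hC₁ : 1 ≤ C₁) (hc₀ : 0 < c₀) : ∃ η T₀ : ℝ, 0 < η ∧
    ∀ (F Φ : (Fin 4 → ℂ) → ℂ) (A : ℝ) (D T : ℕ),
      Differentiable ℂ F → (∀ z, Φ z = F z * cexp (-(Qf z) / 2)) →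
      (∀ κ z, IsR z → ‖Φ (z + lat κ)‖ = ‖Φ z‖) →
      (∀ s v, IsR s → IsR v → ‖Φ (s + I • v)‖ ≤ Real.exp (A + C₁ * ‖v‖ ^ 2 + Xf s v)) →
      (∃ G : ℕ → (Fin 4 → ℂ) → ℂ, (∀ j, Differentiable ℂ (G j)) ∧
        (∀ j z w, G j (Function.update z 2 w) = G j z) ∧
        ∀ z, F z = ∑ j ∈ Finset.range (D + 1), G j z * z 2 ^ j) →
      (∀ m < T, ∀ z, dl m F z = 0) →
      c₀ * D ≤ T → T₀ ≤ T → A ≤ η * T ^ 3 →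
      ∀ z, ‖dl T F z‖ ≤ T.factorial * ‖z‖ ^ T * Real.exp (-η * T ^ 3) := by
  sorry

/-! ### Block N -/

theorem N_siegel {β : ℂ} (hβ : Transcendental ℚ β) {ϖ : Fin 4 → ℂ}
    (hϖ : ∀ i, IsAlgebraic (IntermediateField.adjoin ℚ {β}) (ϖ i)) : ∃ C : ℝ, 1 ≤ C ∧
    ∀ (M N : ℕ) (S : ℝ) (a : Fin M → Fin N → MvPolynomial (Fin 4) ℤ), 1 ≤ N → C * M ≤ N →
      1 ≤ S → Real.log N ≤ S → (∀ m i, ((a m i).totalDegree : ℝ) ≤ S) →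
      (∀ m i, ln (a m i) ≤ Real.exp S) →
      ∃ p : Fin N → ℤ[X], p ≠ 0 ∧ (∀ i, ((p i).natDegree : ℝ) ≤ C * S) ∧
        (∀ i j, |((p i).coeff j : ℝ)| ≤ Real.exp (C * S)) ∧
        ∀ m, ∑ i, aeval β (p i) * MvPolynomial.aeval ϖ (a m i) = 0 := by
  sorry

theorem N_norm {β : ℂ} (hβ : Transcendental ℚ β) {ϖ : Fin 4 → ℂ}
    (hϖ : ∀ i, IsAlgebraic (IntermediateField.adjoin ℚ {β}) (ϖ i)) : ∃ C : ℝ, 1 ≤ C ∧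
    ∀ (N : ℕ) (S : ℝ) (p : Fin N → ℤ[X]) (a : Fin N → MvPolynomial (Fin 4) ℤ), 1 ≤ N →
      1 ≤ S → Real.log N ≤ S → (∀ i, ((p i).natDegree : ℝ) ≤ S) →
      (∀ i j, |((p i).coeff j : ℝ)| ≤ Real.exp S) → (∀ i, ((a i).totalDegree : ℝ) ≤ S) →
      (∀ i, ln (a i) ≤ Real.exp S) → ∑ i, aeval β (p i) * MvPolynomial.aeval ϖ (a i) ≠ 0 →
      ∃ Q : ℤ[X], Q ≠ 0 ∧ (Q.natDegree : ℝ) ≤ C * S ∧
        (∀ j, |(Q.coeff j : ℝ)| ≤ Real.exp (C * S)) ∧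
        ‖aeval β Q‖ ≤ ‖∑ i, aeval β (p i) * MvPolynomial.aeval ϖ (a i)‖ * Real.exp (C * S) := by
  sorry

/-! ### Assembly -/

theorem A_main {μ₁ μ₂ : ℂ} {a₁ a₂ : ℕ → ℤ} (h₁ : HasHurwitz I μ₁ a₁)
    (h₂ : HasHurwitz rho μ₂ a₂) :
    AlgebraicIndependent ℚ ![(Real.pi / μ₁ ^ 2 : ℂ), (Real.pi / μ₂ ^ 2 : ℂ)] := by
  sorry

theorem final : AlgebraicIndependent ℚ ![Real.Gamma (1 / 3) / Real.Gamma (2 / 3),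
    Real.Gamma (1 / 4) / Real.Gamma (3 / 4)] := by
  sorry

end Pool.Agent.Helper49.TA.Tg
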